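import Mathlib
import Pool.Agent.H54.Q.D.Defs2

/-! # Facts about the tables -/

set_option autoImplicit false

namespace H54.Q.D

/-- boolean check of `TabOK` by rows, columns and diagonals -/
def bchk (T : List (List ℕ)) (sX sY mx : ℕ) : Bool :=
  (List.range sX).all fun X => (List.range sY).all fun Y =>
    let v := ent T X Y
    v == 13 || (v ≤ mx && ((List.range sX).all fun X' =>
      (X' == X) ||
        (ent T X' Y != v &&
         (Y + X' < X || Y + X' - X ≥ sY || ent T X' (Y + X' - X) != v) &&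
         (X + Y < X' || X + Y - X' ≥ sY || ent T X' (X + Y - X') != v))) &&
      ((List.range sY).all fun Y' => (Y' == Y) || ent T X Y' != v))

theorem bchk_sound {T : List (List ℕ)} {sX sY mx : ℕ} (h : bchk T sX sY mx = true) :
    TabOK T sX sY mx := by
  have key : ∀ X, X < sX → ∀ Y, Y < sY → ent T X Y = 13 ∨ (ent T X Y ≤ mx ∧
      (∀ X', X' < sX → X' = X ∨ (ent T X' Y ≠ ent T X Y ∧
        (Y + X' < X ∨ Y + X' - X ≥ sY ∨ ent T X' (Y + X' - X) ≠ ent T X Y) ∧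
        (X + Y < X' ∨ X + Y - X' ≥ sY ∨ ent T X' (X + Y - X') ≠ ent T X Y))) ∧
      (∀ Y', Y' < sY → Y' = Y ∨ ent T X Y' ≠ ent T X Y)) := by
    intro X hX Y hY
    unfold bchk at h
    rw [List.all_eq_true] at h
    have h1 := h X (List.mem_range.mpr hX)
    rw [List.all_eq_true] at h1
    have h2 := h1 Y (List.mem_range.mpr hY)
    simp only [Bool.or_eq_true, beq_iff_eq, Bool.and_eq_true, decide_eq_true_eq,
      List.all_eq_true, List.mem_range, bne_iff_ne] at h2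
    rcases h2 with h2 | ⟨⟨h2, h3⟩, h4⟩
    · exact Or.inl h2
    · refine Or.inr ⟨h2, ?_, h4⟩
      intro X' hX'
      rcases h3 X' hX' with h5 | ⟨⟨h5, h6⟩, h7⟩
      · exact Or.inl h5
      · refine Or.inr ⟨h5, ?_, ?_⟩
        · rcases h6 with (h6 | h6) | h6
          · exact Or.inl h6
          · exact Or.inr (Or.inl h6)
          · exact Or.inr (Or.inr h6)
        · rcases h7 with (h7 | h7) | h7
          · exact Or.inl h7
          · exact Or.inr (Or.inl h7)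
          · exact Or.inr (Or.inr h7)
  constructor
  · intro X hX Y hY h13
    rcases key X hX Y hY with h1 | h1
    · exact absurd h1 h13
    · exact h1.1
  · intro X Y X' Y' hX hY hX' hY' h13 heq hatt
    rcases key X hX Y hY with h1 | ⟨_, h1, h2⟩
    · exact absurd h1 h13
    · by_cases hXX : X' = X
      · subst hXX
        refine ⟨rfl, ?_⟩
        rcases h2 Y' hY' with h3 | h3
        · exact h3.symm
        · exact absurd heq.symm h3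
      · exfalso
        rcases h1 X' hX' with h3 | ⟨h3, h4, h5⟩
        · exact hXX h3
        · rcases hatt with h6 | h6 | h6 | h6
          · exact hXX h6.symm
          · subst h6; exact h3 heq.symm
          · rcases h4 with h4 | h4 | h4
            · omega
            · omega
            · apply h4
              rw [heq]
              congr 1
              omega
          · rcases h5 with h5 | h5 | h5
            · omega
            · omega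
            · apply h5
              rw [heq]
              congr 1
              omega

theorem tPL_ok : TabOK tPL 12 12 11 := bchk_sound (by decide +kernel)
theorem tW_ok : TabOK tW 12 12 12 := bchk_sound (by decide +kernel)
theorem tNR_ok : TabOK tNR 13 12 11 := bchk_sound (by decide +kernel)
theorem tNC_ok : TabOK tNC 12 13 11 := bchk_sound (by decide +kernel)
theorem tPQ_ok : TabOK tPQ 13 13 11 := bchk_sound (by decide +kernel)
theorem tWR_ok : TabOK tWR 13 12 12 := bchk_sound (by decide +kernel)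
theorem tWC_ok : TabOK tWC 12 13 12 := bchk_sound (by decide +kernel)
theorem tP_ok : TabOK tP 13 12 12 := bchk_sound (by decide +kernel)
theorem tQ_ok : TabOK tQ 12 13 12 := bchk_sound (by decide +kernel)
theorem tNRdr_ok : TabOK tNRdr 13 12 11 := bchk_sound (by decide +kernel)
theorem tNRar_ok : TabOK tNRar 13 12 11 := bchk_sound (by decide +kernel)
theorem tNRdc_ok : TabOK tNRdc 13 12 11 := bchk_sound (by decide +kernel)
theorem tNRac_ok : TabOK tNRac 13 12 11 := bchk_sound (by decide +kernel)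
theorem tNCdr_ok : TabOK tNCdr 12 13 11 := bchk_sound (by decide +kernel)
theorem tNCar_ok : TabOK tNCar 12 13 11 := bchk_sound (by decide +kernel)
theorem tNCdc_ok : TabOK tNCdc 12 13 11 := bchk_sound (by decide +kernel)
theorem tNCac_ok : TabOK tNCac 12 13 11 := bchk_sound (by decide +kernel)
theorem tL1_ok : TabOK tL1 12 12 11 := bchk_sound (by decide +kernel)
theorem tL2_ok : TabOK tL2 12 12 11 := bchk_sound (by decide +kernel)
theorem tL3_ok : TabOK tL3 12 12 11 := bchk_sound (by decide +kernel)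
theorem tL4_ok : TabOK tL4 12 12 11 := bchk_sound (by decide +kernel)

/-! no foreign cells -/

theorem tPL_full : ∀ X < (12 : ℕ), ∀ Y < (12 : ℕ), ent tPL X Y ≠ 13 := by decide +kernel
theorem tW_full : ∀ X < (12 : ℕ), ∀ Y < (12 : ℕ), ent tW X Y ≠ 13 := by decide +kernel
theorem tP_full : ∀ X < (13 : ℕ), ∀ Y < (12 : ℕ), ent tP X Y ≠ 13 := by decide +kernel
theorem tQ_full : ∀ X < (12 : ℕ), ∀ Y < (13 : ℕ), ent tQ X Y ≠ 13 := by decide +kernel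
theorem tL1_full : ∀ X < (12 : ℕ), ∀ Y < (12 : ℕ), ent tL1 X Y ≠ 13 := by decide +kernel
theorem tL2_full : ∀ X < (12 : ℕ), ∀ Y < (12 : ℕ), ent tL2 X Y ≠ 13 := by decide +kernel
theorem tL3_full : ∀ X < (12 : ℕ), ∀ Y < (12 : ℕ), ent tL3 X Y ≠ 13 := by decide +kernel
theorem tL4_full : ∀ X < (12 : ℕ), ∀ Y < (12 : ℕ), ent tL4 X Y ≠ 13 := by decide +kernel

/-! foreign cells -/

theorem tNR_for : ∀ X < (13 : ℕ), ∀ Y < (12 : ℕ), (ent tNR X Y = 13 ↔ X = R Y) := by decide +kernel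
theorem tWR_for : ∀ X < (13 : ℕ), ∀ Y < (12 : ℕ), (ent tWR X Y = 13 ↔ X = R Y) := by decide +kernel
theorem tNRdr_for : ∀ X < (13 : ℕ), ∀ Y < (12 : ℕ), (ent tNRdr X Y = 13 ↔ X = R Y) := by decide +kernel
theorem tNRar_for : ∀ X < (13 : ℕ), ∀ Y < (12 : ℕ), (ent tNRar X Y = 13 ↔ X = R Y) := by decide +kernel
theorem tNRdc_for : ∀ X < (13 : ℕ), ∀ Y < (12 : ℕ), (ent tNRdc X Y = 13 ↔ X = R Y) := by decide +kernel
theorem tNRac_for : ∀ X < (13 : ℕ), ∀ Y < (12 : ℕ), (ent tNRac X Y = 13 ↔ X = R Y) := by decide +kernel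
theorem tNC_for : ∀ X < (12 : ℕ), ∀ Y < (13 : ℕ), (ent tNC X Y = 13 ↔ Y = R X) := by decide +kernel
theorem tWC_for : ∀ X < (12 : ℕ), ∀ Y < (13 : ℕ), (ent tWC X Y = 13 ↔ Y = R X) := by decide +kernel
theorem tNCdr_for : ∀ X < (12 : ℕ), ∀ Y < (13 : ℕ), (ent tNCdr X Y = 13 ↔ Y = R X) := by decide +kernel
theorem tNCar_for : ∀ X < (12 : ℕ), ∀ Y < (13 : ℕ), (ent tNCar X Y = 13 ↔ Y = R X) := by decide +kernel
theorem tNCdc_for : ∀ X < (12 : ℕ), ∀ Y < (13 : ℕ), (ent tNCdc X Y = 13 ↔ Y = R X) := by decide +kernel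
theorem tNCac_for : ∀ X < (12 : ℕ), ∀ Y < (13 : ℕ), (ent tNCac X Y = 13 ↔ Y = R X) := by decide +kernel
theorem tPQ_for : ∀ X < (13 : ℕ), ∀ Y < (13 : ℕ),
    (ent tPQ X Y = 13 ↔ (X = 6 ∧ Y = 6) ∨ X = Rc Y ∨ Y = Rc X) := by decide +kernel

/-! missing rows, columns and diagonals; `13` is harmless: the entry is compared with names below 12 -/

theorem tNR_row : ∀ X < (13 : ℕ), ∀ Y < (12 : ℕ), ent tNR X Y ≠ 13 → X ≠ R (ent tNR X Y) := by decide +kernel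
theorem tNC_col : ∀ X < (12 : ℕ), ∀ Y < (13 : ℕ), ent tNC X Y ≠ 13 → Y ≠ R (rho (ent tNC X Y)) := by
  decide +kernel
theorem tW_col : ∀ X < (12 : ℕ), ∀ Y < (12 : ℕ), ent tW X Y ≠ Y := by decide +kernel
theorem tW_row : ∀ X < (12 : ℕ), ∀ Y < (12 : ℕ), ent tW X Y ≠ 12 → X ≠ rho (ent tW X Y) := by decide +kernel
theorem tW_inf : ∀ X < (12 : ℕ), ∀ Y < (12 : ℕ), ent tW X Y = 12 → X ≠ Y ∧ X + Y ≠ 11 := by decide +kernel
theorem tPQ_row : ∀ X < (13 : ℕ), ∀ Y < (13 : ℕ), ent tPQ X Y ≠ 13 → X ≠ R (ent tPQ X Y) := by decide +kernel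
theorem tPQ_col : ∀ X < (13 : ℕ), ∀ Y < (13 : ℕ), ent tPQ X Y ≠ 13 → Y ≠ R (rho (ent tPQ X Y)) := by
  decide +kernel
theorem tWR_col : ∀ X < (13 : ℕ), ∀ Y < (12 : ℕ), ent tWR X Y ≠ Y := by decide +kernel
theorem tWR_p : ∀ t < 12, ∀ X < (13 : ℕ), ∀ Y < (12 : ℕ), ent tWR X Y = pWR t → X ≠ R t := by decide +kernel
theorem tWR_x : ∀ t < 12, ∀ X < (13 : ℕ), ∀ Y < (12 : ℕ), ent tWR X Y = xWR t → X ≠ kap t := by decide +kernel
theorem tWR_inf : ∀ X < (13 : ℕ), ∀ Y < (12 : ℕ), ent tWR X Y = 12 → X ≠ 6 := by decide +kernel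
theorem tWC_row : ∀ X < (12 : ℕ), ∀ Y < (13 : ℕ), ent tWC X Y < 12 → X ≠ rho (ent tWC X Y) := by decide +kernel
theorem tWC_p : ∀ t < 12, ∀ X < (12 : ℕ), ∀ Y < (13 : ℕ), ent tWC X Y = pWC (rinv t) → Y ≠ R t := by
  decide +kernel
theorem tWC_n : ∀ t < 12, ∀ X < (12 : ℕ), ∀ Y < (13 : ℕ), ent tWC X Y = nWC t → Y ≠ kap t := by decide +kernel
theorem tWC_inf : ∀ X < (12 : ℕ), ∀ Y < (13 : ℕ), ent tWC X Y = 12 → Y ≠ 6 := by decide +kernel
theorem tP_row : ∀ X < (13 : ℕ), ∀ Y < (12 : ℕ), ent tP X Y ≠ 12 → X ≠ kap (rho (ent tP X Y)) := by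
  decide +kernel
theorem tP_inf : ∀ X < (13 : ℕ), ∀ Y < (12 : ℕ), ent tP X Y = 12 → X ≠ 6 := by decide +kernel
theorem tQ_col : ∀ X < (12 : ℕ), ∀ Y < (13 : ℕ), ent tQ X Y ≠ 12 → Y ≠ kap (ent tQ X Y) := by decide +kernel
theorem tQ_inf : ∀ X < (12 : ℕ), ∀ Y < (13 : ℕ), ent tQ X Y = 12 → Y ≠ 6 := by decide +kernel

theorem tNRdr_row : ∀ X < (13 : ℕ), ∀ Y < (12 : ℕ), ent tNRdr X Y ≠ 13 → X ≠ R (ent tNRdr X Y) := by
  decide +kernel
theorem tNRar_row : ∀ X < (13 : ℕ), ∀ Y < (12 : ℕ), ent tNRar X Y ≠ 13 → X ≠ R (ent tNRar X Y) := by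
  decide +kernel
theorem tNRdc_row : ∀ X < (13 : ℕ), ∀ Y < (12 : ℕ), ent tNRdc X Y ≠ 13 → X ≠ R (ent tNRdc X Y) := by
  decide +kernel
theorem tNRac_row : ∀ X < (13 : ℕ), ∀ Y < (12 : ℕ), ent tNRac X Y ≠ 13 → X ≠ R (ent tNRac X Y) := by
  decide +kernel
theorem tNRdr_av : ∀ X < (13 : ℕ), ∀ Y < (12 : ℕ), ent tNRdr X Y ≠ 13 →
    (X : ℤ) - Y ≠ J .dr 0 (ent tNRdr X Y) := by decide +kernel
theorem tNRar_av : ∀ X < (13 : ℕ), ∀ Y < (12 : ℕ), ent tNRar X Y ≠ 13 →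
    (X : ℤ) + Y ≠ J .ar 0 (ent tNRar X Y) := by decide +kernel
theorem tNRdc_av : ∀ X < (13 : ℕ), ∀ Y < (12 : ℕ), ent tNRdc X Y ≠ 13 →
    (X : ℤ) - Y ≠ J .dc 1 (rho (ent tNRdc X Y)) := by decide +kernel
theorem tNRac_av : ∀ X < (13 : ℕ), ∀ Y < (12 : ℕ), ent tNRac X Y ≠ 13 →
    (X : ℤ) + Y ≠ J .ac 0 (rho (ent tNRac X Y)) := by decide +kernel
theorem tNCdr_col : ∀ X < (12 : ℕ), ∀ Y < (13 : ℕ), ent tNCdr X Y ≠ 13 → Y ≠ R (rho (ent tNCdr X Y)) := by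
  decide +kernel
theorem tNCar_col : ∀ X < (12 : ℕ), ∀ Y < (13 : ℕ), ent tNCar X Y ≠ 13 → Y ≠ R (rho (ent tNCar X Y)) := by
  decide +kernel
theorem tNCdc_col : ∀ X < (12 : ℕ), ∀ Y < (13 : ℕ), ent tNCdc X Y ≠ 13 → Y ≠ R (rho (ent tNCdc X Y)) := by
  decide +kernel
theorem tNCac_col : ∀ X < (12 : ℕ), ∀ Y < (13 : ℕ), ent tNCac X Y ≠ 13 → Y ≠ R (rho (ent tNCac X Y)) := by
  decide +kernel
theorem tNCdr_av : ∀ X < (12 : ℕ), ∀ Y < (13 : ℕ), ent tNCdr X Y ≠ 13 →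
    (X : ℤ) - Y ≠ J .dr 1 (ent tNCdr X Y) := by decide +kernel
theorem tNCar_av : ∀ X < (12 : ℕ), ∀ Y < (13 : ℕ), ent tNCar X Y ≠ 13 →
    (X : ℤ) + Y ≠ J .ar 0 (ent tNCar X Y) := by decide +kernel
theorem tNCdc_av : ∀ X < (12 : ℕ), ∀ Y < (13 : ℕ), ent tNCdc X Y ≠ 13 →
    (X : ℤ) - Y ≠ J .dc 0 (rho (ent tNCdc X Y)) := by decide +kernel
theorem tNCac_av : ∀ X < (12 : ℕ), ∀ Y < (13 : ℕ), ent tNCac X Y ≠ 13 →
    (X : ℤ) + Y ≠ J .ac 0 (rho (ent tNCac X Y)) := by decide +kernel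
theorem tL1_av : ∀ X < (12 : ℕ), ∀ Y < (12 : ℕ), (X : ℤ) - Y ≠ J .dr 0 (ent tL1 X Y) ∧
    (X : ℤ) - Y ≠ J .dc 1 (rho (ent tL1 X Y)) := by decide +kernel
theorem tL2_av : ∀ X < (12 : ℕ), ∀ Y < (12 : ℕ), (X : ℤ) - Y ≠ J .dr 1 (ent tL2 X Y) ∧
    (X : ℤ) + Y ≠ J .ac 0 (rho (ent tL2 X Y)) := by decide +kernel
theorem tL3_av : ∀ X < (12 : ℕ), ∀ Y < (12 : ℕ), (X : ℤ) + Y ≠ J .ar 0 (ent tL3 X Y) ∧
    (X : ℤ) - Y ≠ J .dc 0 (rho (ent tL3 X Y)) := by decide +kernel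
theorem tL4_av : ∀ X < (12 : ℕ), ∀ Y < (12 : ℕ), (X : ℤ) + Y ≠ J .ar 0 (ent tL4 X Y) ∧
    (X : ℤ) + Y ≠ J .ac 0 (rho (ent tL4 X Y)) := by decide +kernel

theorem tPL_dr : ∀ σ < 3, ∀ X < (12 : ℕ), ∀ Y < (12 : ℕ),
    (X : ℤ) - Y ≠ J .dr σ (MIt .dr σ (ent tPL X Y)) := by decide +kernel
theorem tPL_ar : ∀ σ < 3, ∀ X < (12 : ℕ), ∀ Y < (12 : ℕ),
    (X : ℤ) + Y ≠ J .ar σ (MIt .ar σ (ent tPL X Y)) := by decide +kernel
theorem tPL_dc : ∀ σ < 3, ∀ X < (12 : ℕ), ∀ Y < (12 : ℕ),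
    (X : ℤ) - Y ≠ J .dc σ (MIt .dc σ (ent tPL X Y)) := by decide +kernel
theorem tPL_ac : ∀ σ < 3, ∀ X < (12 : ℕ), ∀ Y < (12 : ℕ),
    (X : ℤ) + Y ≠ J .ac σ (MIt .ac σ (ent tPL X Y)) := by decide +kernel
theorem tW_dr : ∀ σ < 2, ∀ t < 12, ∀ X < (12 : ℕ), ∀ Y < (12 : ℕ), ent tW X Y = MWt .dr σ t →
    (X : ℤ) - Y ≠ J .dr σ t := by decide +kernel
theorem tW_ar : ∀ σ < 2, ∀ t < 12, ∀ X < (12 : ℕ), ∀ Y < (12 : ℕ), ent tW X Y = MWt .ar σ t →
    (X : ℤ) + Y ≠ J .ar σ t := by decide +kernel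
theorem tW_dc : ∀ σ < 2, ∀ t < 12, ∀ X < (12 : ℕ), ∀ Y < (12 : ℕ), ent tW X Y = MWt .dc σ t →
    (X : ℤ) - Y ≠ J .dc σ t := by decide +kernel
theorem tW_ac : ∀ σ < 2, ∀ t < 12, ∀ X < (12 : ℕ), ∀ Y < (12 : ℕ), ent tW X Y = MWt .ac σ t →
    (X : ℤ) + Y ≠ J .ac σ t := by decide +kernel

/-! permutations -/

theorem rho_lt : ∀ t < 12, rho t < 12 := by decide +kernel
theorem rinv_lt : ∀ t < 12, rinv t < 12 := by decide +kernel
theorem rho_rinv : ∀ t < 12, rho (rinv t) = t := by decide +kernel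
theorem rinv_rho : ∀ t < 12, rinv (rho t) = t := by decide +kernel
theorem kap_lt : ∀ t < 12, kap t < 13 := by decide +kernel
theorem kap_ne : ∀ t < 12, kap t ≠ 6 := by decide +kernel
theorem kinv_kap : ∀ t < 12, kinv (kap t) = t := by decide +kernel
theorem kap_kinv : ∀ y < 13, y ≠ 6 → kap (kinv y) = y := by decide +kernel
theorem kinv_lt : ∀ y < 13, y ≠ 6 → kinv y < 12 := by decide +kernel
theorem Rc_kap : ∀ t < 12, Rc (kap t) = R t := by decide +kernel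
theorem R_kinv : ∀ y < 13, y ≠ 6 → R (kinv y) = Rc y := by decide +kernel
theorem Rc_six : Rc 6 = 6 := by decide +kernel
theorem R_lt : ∀ t < 12, R t < 13 := by decide +kernel
theorem Rc_lt : ∀ y < 13, Rc y < 13 := by decide +kernel
theorem RcRc : ∀ X < (13 : ℕ), ∀ Y < (13 : ℕ), X = Rc Y → Y = Rc X → X = 6 ∧ Y = 6 := by decide +kernel
theorem Mt_lt : ∀ σ < 3, ∀ t < 12, Mt .dr σ t < 12 ∧ Mt .ar σ t < 12 ∧ Mt .dc σ t < 12 ∧
    Mt .ac σ t < 12 := by decide +kernel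
theorem MIt_lt : ∀ σ < 3, ∀ t < 12, MIt .dr σ t < 12 ∧ MIt .ar σ t < 12 ∧ MIt .dc σ t < 12 ∧
    MIt .ac σ t < 12 := by decide +kernel
theorem MIt_Mt : ∀ σ < 3, ∀ t < 12, MIt .dr σ (Mt .dr σ t) = t ∧ MIt .ar σ (Mt .ar σ t) = t ∧
    MIt .dc σ (Mt .dc σ t) = t ∧ MIt .ac σ (Mt .ac σ t) = t := by decide +kernel
theorem Mt_MIt : ∀ σ < 3, ∀ t < 12, Mt .dr σ (MIt .dr σ t) = t ∧ Mt .ar σ (MIt .ar σ t) = t ∧
    Mt .dc σ (MIt .dc σ t) = t ∧ Mt .ac σ (MIt .ac σ t) = t := by decide +kernel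
theorem MWt_lt : ∀ σ < 2, ∀ t < 12, MWt .dr σ t < 12 ∧ MWt .ar σ t < 12 ∧ MWt .dc σ t < 12 ∧
    MWt .ac σ t < 12 := by decide +kernel
theorem MWt_inj_dr : ∀ σ < 2, ∀ t < 12, ∀ t' < 12, MWt .dr σ t = MWt .dr σ t' → t = t' := by
  decide +kernel
theorem MWt_inj_ar : ∀ σ < 2, ∀ t < 12, ∀ t' < 12, MWt .ar σ t = MWt .ar σ t' → t = t' := by
  decide +kernel
theorem MWt_inj_dc : ∀ σ < 2, ∀ t < 12, ∀ t' < 12, MWt .dc σ t = MWt .dc σ t' → t = t' := by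
  decide +kernel
theorem MWt_inj_ac : ∀ σ < 2, ∀ t < 12, ∀ t' < 12, MWt .ac σ t = MWt .ac σ t' → t = t' := by
  decide +kernel
theorem pWR_lt : ∀ t < 12, pWR t < 12 := by decide +kernel
theorem xWR_lt : ∀ t < 12, xWR t < 12 := by decide +kernel
theorem nWC_lt : ∀ t < 12, nWC t < 12 := by decide +kernel
theorem pWC_lt : ∀ t < 12, pWC t < 12 := by decide +kernel
theorem pWR_inj : ∀ t < 12, ∀ t' < 12, pWR t = pWR t' → t = t' := by decide +kernel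
theorem xWR_inj : ∀ t < 12, ∀ t' < 12, xWR t = xWR t' → t = t' := by decide +kernel
theorem nWC_inj : ∀ t < 12, ∀ t' < 12, nWC t = nWC t' → t = t' := by decide +kernel
theorem pWC_inj : ∀ t < 12, ∀ t' < 12, pWC t = pWC t' → t = t' := by decide +kernel

/-! compatibility of the foreign groups -/

theorem WR_compat : ∀ t < 12, ∀ t' < 12, pWR t = xWR t' → R t ≠ kap t' := by decide +kernel
theorem WC_compat : ∀ t < 12, ∀ t' < 12, nWC t = pWC (rinv t') → kap t ≠ R t' := by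
  decide +kernel
theorem drdc_compat0 : ∀ t < 12, ∀ t' < 12, Mt .dr 0 t = Mt .dc 1 t' → J .dr 0 t ≠ J .dc 1 t' := by
  decide +kernel
theorem drdc_compat1 : ∀ t < 12, ∀ t' < 12, Mt .dr 1 t = Mt .dc 0 t' → J .dr 1 t ≠ J .dc 0 t' := by
  decide +kernel
theorem arac_compat : ∀ σ < 2, ∀ t < 12, ∀ t' < 12, Mt .ar σ t = Mt .ac σ t' →
    J .ar σ t ≠ J .ac σ t' := by decide +kernel
theorem link_dc : ∀ t < 12, J .dr 0 t ≠ J .dc 1 (rho t) := by decide +kernel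
theorem link_ac : ∀ t < 12, J .ar 0 t ≠ J .ac 0 (rho t) := by decide +kernel

end H54.Q.D
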