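import Mathlib
import Pool.Agent.H54.Q.D.Tab

set_option autoImplicit false

namespace H54.Q.D


theorem att_split {m X Y X' Y' a b a' b' : ℕ} (ha : a < m) (hb : b < m) (ha' : a' < m)
    (hb' : b' < m) (h : Att (m * X + a) (m * Y + b) (m * X' + a') (m * Y' + b')) :
    (a = a' ∧ X = X') ∨ (b = b' ∧ Y = Y') ∨
    (∃ s : ℤ, ((a' : ℤ) - b') - ((a : ℤ) - b) = s * m ∧ (X : ℤ) - Y = (X' : ℤ) - Y' + s) ∨
    (∃ s : ℤ, ((a' : ℤ) + b') - ((a : ℤ) + b) = s * m ∧ (X : ℤ) + Y = (X' : ℤ) + Y' + s) := by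
  have key : ∀ {p q p' q' : ℕ}, q < m → q' < m → m * p + q = m * p' + q' → q = q' ∧ p = p' := by
    intro p q p' q' hq hq' he
    have h1 := congrArg (fun t => t % m) he
    simp only [Nat.mul_add_mod, Nat.mod_eq_of_lt hq, Nat.mod_eq_of_lt hq'] at h1
    subst h1
    have h2 : m * p = m * p' := Nat.add_right_cancel he
    exact ⟨rfl, Nat.eq_of_mul_eq_mul_left (by omega) h2⟩
  rcases h with h | h | h | h
  · exact Or.inl (key ha ha' h)
  · exact Or.inr (Or.inl (key hb hb' h))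
  · refine Or.inr (Or.inr (Or.inl ⟨(X : ℤ) - Y - X' + Y', ?_, by ring⟩))
    have h1 : (m : ℤ) * X + a + (m * Y' + b') = m * X' + a' + (m * Y + b) := by exact_mod_cast h
    linarith
  · refine Or.inr (Or.inr (Or.inr ⟨(X : ℤ) + Y - X' - Y', ?_, by ring⟩))
    have h1 : (m : ℤ) * X + a + (m * Y + b) = m * X' + a' + (m * Y' + b') := by exact_mod_cast h
    linarith

theorem cancel {m k : ℕ} (h : Nat.Coprime m k) {x y : ZMod m} (hxy : (k : ZMod m) * x = k * y) :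
    x = y := by
  have h1 := ZMod.coe_mul_inv_eq_one k h.symm
  calc x = ((k : ZMod m) * (k : ZMod m)⁻¹) * x := by rw [h1, one_mul]
    _ = (k : ZMod m)⁻¹ * ((k : ZMod m) * x) := by ring
    _ = (k : ZMod m)⁻¹ * ((k : ZMod m) * y) := by rw [hxy]
    _ = ((k : ZMod m) * (k : ZMod m)⁻¹) * y := by ring
    _ = y := by rw [h1, one_mul]

theorem cast_eq {m a b : ℕ} (ha : a < m) (hb : b < m) (h : (a : ZMod m) = (b : ZMod m)) :
    a = b := by
  have h1 := (ZMod.natCast_eq_natCast_iff' a b m).1 h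
  rwa [Nat.mod_eq_of_lt ha, Nat.mod_eq_of_lt hb] at h1

theorem TA_pos {m : ℕ} (h6 : Nat.Coprime m 6) : 0 < m := by
  rcases Nat.eq_zero_or_pos m with h | h
  · subst h
    revert h6
    decide
  · exact h

theorem TA_c2 {m : ℕ} (h6 : Nat.Coprime m 6) : Nat.Coprime m 2 :=
  Nat.Coprime.coprime_dvd_right (by norm_num) h6

theorem TA_c3 {m : ℕ} (h6 : Nat.Coprime m 6) : Nat.Coprime m 3 :=
  Nat.Coprime.coprime_dvd_right (by norm_num) h6

theorem TA_cancel6 {m : ℕ} (h6 : Nat.Coprime m 6) {x y : ZMod m}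
    (hxy : (6 : ZMod m) * x = 6 * y) : x = y :=
  cancel h6 (by push_cast; exact hxy)

theorem TA_cancel3 {m : ℕ} (h6 : Nat.Coprime m 6) {x y : ZMod m}
    (hxy : (3 : ZMod m) * x = 3 * y) : x = y :=
  cancel (TA_c3 h6) (by push_cast; exact hxy)

theorem TA_cancel2 {m : ℕ} (h6 : Nat.Coprime m 6) {x y : ZMod m}
    (hxy : (2 : ZMod m) * x = 2 * y) : x = y :=
  cancel (TA_c2 h6) (by push_cast; exact hxy)

theorem bI_lt {m : ℕ} (hm : 0 < m) (w : ℕ → ZMod m) (i : ℕ) (c : ZMod m) : bI m w i c < m := by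
  have : NeZero m := ⟨by omega⟩
  exact ZMod.val_lt _

theorem aI_lt {m : ℕ} (hm : 0 < m) (w : ℕ → ZMod m) (i : ℕ) (c : ZMod m) : aI m w i c < m := by
  have : NeZero m := ⟨by omega⟩
  exact ZMod.val_lt _

theorem bI_eq {m : ℕ} (h6 : Nat.Coprime m 6) (w : ℕ → ZMod m) (i : ℕ) (c : ZMod m) :
    (6 : ZMod m) * (bI m w i c : ZMod m) = -(c + 4 * w i) := by
  have : NeZero m := ⟨by have := TA_pos h6; omega⟩
  have h1 := ZMod.coe_mul_inv_eq_one 6 h6.symm
  push_cast at h1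
  rw [bI, ZMod.natCast_zmod_val]
  calc (6 : ZMod m) * (-(c + 4 * w i) * (6 : ZMod m)⁻¹) =
      -(c + 4 * w i) * ((6 : ZMod m) * (6 : ZMod m)⁻¹) := by ring
    _ = -(c + 4 * w i) := by rw [h1, mul_one]

theorem aI_eq {m : ℕ} (h6 : Nat.Coprime m 6) (w : ℕ → ZMod m) (i : ℕ) (c : ZMod m) :
    (3 : ZMod m) * (aI m w i c : ZMod m) = -(c + w i) := by
  have : NeZero m := ⟨by have := TA_pos h6; omega⟩
  have h1 := ZMod.coe_mul_inv_eq_one 3 (TA_c3 h6).symm
  push_cast at h1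
  rw [aI, ZMod.natCast_zmod_val]
  calc (3 : ZMod m) * (-(c + w i) * (3 : ZMod m)⁻¹) =
      -(c + w i) * ((3 : ZMod m) * (3 : ZMod m)⁻¹) := by ring
    _ = -(c + w i) := by rw [h1, mul_one]

theorem onW_b {m : ℕ} (h6 : Nat.Coprime m 6) (w : ℕ → ZMod m) {i a b : ℕ} (hb : b < m)
    (h : onW m w i a b) : bI m w i (lab m a b) = b := by
  refine cast_eq (bI_lt (TA_pos h6) w i _) hb (TA_cancel6 h6 ?_)
  rw [bI_eq h6]
  unfold onW at h
  rw [← h]
  unfold lab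
  ring

theorem onW_a {m : ℕ} (h6 : Nat.Coprime m 6) (w : ℕ → ZMod m) {i a b : ℕ} (ha : a < m)
    (h : onW m w i a b) : aI m w i (lab m a b) = a := by
  refine cast_eq (aI_lt (TA_pos h6) w i _) ha (TA_cancel3 h6 ?_)
  rw [aI_eq h6]
  unfold onW at h
  rw [← h]
  unfold lab
  ring

theorem onW_of_b {m : ℕ} (h6 : Nat.Coprime m 6) (w : ℕ → ZMod m) {i a b : ℕ}
    (h : bI m w i (lab m a b) = b) : onW m w i a b := by
  have h1 := bI_eq h6 w i (lab m a b)
  rw [h] at h1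
  unfold lab at h1
  unfold onW
  refine TA_cancel2 h6 (TA_cancel2 h6 ?_)
  linear_combination (-1 : ZMod m) * h1

theorem onW_of_a {m : ℕ} (h6 : Nat.Coprime m 6) (w : ℕ → ZMod m) {i a b : ℕ}
    (h : aI m w i (lab m a b) = a) : onW m w i a b := by
  have h1 := aI_eq h6 w i (lab m a b)
  rw [h] at h1
  unfold lab at h1
  unfold onW
  linear_combination (-1 : ZMod m) * h1

theorem onW_AB {m : ℕ} (h6 : Nat.Coprime m 6) (w : ℕ → ZMod m) (i : ℕ) (c : ZMod m) :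
    onW m w i (aI m w i c) (bI m w i c) := by
  have h1 := bI_eq h6 w i c
  have h2 := aI_eq h6 w i c
  unfold onW
  refine TA_cancel6 h6 ?_
  linear_combination (2 : ZMod m) * h2 - 2 * h1

theorem lab_AB {m : ℕ} (h6 : Nat.Coprime m 6) (w : ℕ → ZMod m) (i : ℕ) (c : ZMod m) :
    lab m (aI m w i c) (bI m w i c) = c := by
  have h1 := bI_eq h6 w i c
  have h2 := aI_eq h6 w i c
  unfold lab
  refine TA_cancel6 h6 ?_
  linear_combination (2 : ZMod m) * h1 - 8 * h2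

theorem bI_lF {m : ℕ} (h6 : Nat.Coprime m 6) (w : ℕ → ZMod m) {i b : ℕ} (hb : b < m) :
    bI m w i (lF m w i b) = b := by
  refine cast_eq (bI_lt (TA_pos h6) w i _) hb (TA_cancel6 h6 ?_)
  rw [bI_eq h6]
  unfold lF
  ring

theorem lF_bI {m : ℕ} (h6 : Nat.Coprime m 6) (w : ℕ → ZMod m) (i : ℕ) (c : ZMod m) :
    lF m w i (bI m w i c) = c := by
  have h1 := bI_eq h6 w i c
  unfold lF
  linear_combination (-1 : ZMod m) * h1

theorem aI_lG {m : ℕ} (h6 : Nat.Coprime m 6) (w : ℕ → ZMod m) {j a : ℕ} (ha : a < m) :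
    aI m w j (lG m w j a) = a := by
  refine cast_eq (aI_lt (TA_pos h6) w j _) ha (TA_cancel3 h6 ?_)
  rw [aI_eq h6]
  unfold lG
  ring

theorem lG_aI {m : ℕ} (h6 : Nat.Coprime m 6) (w : ℕ → ZMod m) (j : ℕ) (c : ZMod m) :
    lG m w j (aI m w j c) = c := by
  have h1 := aI_eq h6 w j c
  unfold lG
  linear_combination (-1 : ZMod m) * h1

end H54.Q.D
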