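import Mathlib
import Pool.Agent.H54.Q.D.Tab
import Pool.Agent.H54.Q.D.TA

set_option autoImplicit false

namespace H54.Q.D


theorem TB_pos {m : ℕ} (h6 : Nat.Coprime m 6) : NeZero m := by
  constructor
  rintro rfl
  revert h6
  decide

theorem TB_c2 {m : ℕ} (h6 : Nat.Coprime m 6) : Nat.Coprime m 2 :=
  Nat.Coprime.coprime_dvd_right (by decide) h6

theorem TB_c3 {m : ℕ} (h6 : Nat.Coprime m 6) : Nat.Coprime m 3 :=
  Nat.Coprime.coprime_dvd_right (by decide) h6

theorem TB_iff6 {m : ℕ} (h6 : Nat.Coprime m 6) {X L : ZMod m}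
    (h : (6 : ZMod m) * X = -((2 : ZMod m) * L)) : L = 0 ↔ X = 0 := by
  constructor
  · intro hL
    apply cancel h6
    push_cast
    rw [h, hL]
    ring
  · intro hX
    apply cancel (TB_c2 h6)
    push_cast
    rw [hX, mul_zero] at h
    rw [mul_zero]
    linear_combination h

theorem TB_iff3 {m : ℕ} (h6 : Nat.Coprime m 6) {X L : ZMod m}
    (h : (3 : ZMod m) * X = L) : L = 0 ↔ X = 0 := by
  constructor
  · intro hL
    apply cancel (TB_c3 h6)
    push_cast
    rw [h, hL]
    ring
  · intro hX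
    rw [← h, hX, mul_zero]

theorem TB_dvd {m : ℕ} {z : ℤ} : (z : ZMod m) = 0 ↔ ∃ s : ℤ, z = s * m := by
  rw [ZMod.intCast_zmod_eq_zero_iff_dvd]
  constructor
  · rintro ⟨s, hs⟩
    exact ⟨s, by rw [hs]; ring⟩
  · rintro ⟨s, hs⟩
    exact ⟨s, by rw [hs]; ring⟩

theorem ln_rw_iff {m : ℕ} {U : ℕ → ℕ} {i a b : ℕ} (hi : i < m) (ha : a < m) :
    ln m U .rw i a b ↔ a = i := by
  unfold ln kp kq ky
  push_cast
  constructor
  · intro h
    apply cast_eq ha hi
    linear_combination h
  · rintro rfl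
    ring

theorem ln_cl_iff {m : ℕ} {U : ℕ → ℕ} {i a b : ℕ} (hi : i < m) (hb : b < m) :
    ln m U .cl i a b ↔ b = i := by
  unfold ln kp kq ky
  push_cast
  constructor
  · intro h
    apply cast_eq hb hi
    linear_combination h
  · rintro rfl
    ring

theorem ln_w_iff {m : ℕ} {U : ℕ → ℕ} {i a b : ℕ} :
    ln m U .w i a b ↔ onW m (wU m U) i a b := by
  unfold ln kp kq ky onW wU
  push_cast
  constructor
  · intro h
    linear_combination h
  · intro h
    linear_combination h

theorem ln_D_iff {m : ℕ} {U : ℕ → ℕ} (h6 : Nat.Coprime m 6) {κ : Kind} (hκ : isD κ)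
    {i a b : ℕ} :
    ln m U κ i a b ↔ ∃ s : ℤ, gofs m U κ i (lab m a b) - bofs κ a b = s * m := by
  rw [← TB_dvd]
  have hB := bI_eq h6 (wU m U) i (lab m a b)
  have hA := aI_eq h6 (wU m U) i (lab m a b)
  unfold wU lab at hA hB
  cases κ with
  | rw => exact absurd hκ (by simp [isD])
  | cl => exact absurd hκ (by simp [isD])
  | w => exact absurd hκ (by simp [isD])
  | dr =>
    have key : (6 : ZMod m) * ((gofs m U .dr i (lab m a b) - bofs .dr a b : ℤ) : ZMod m) =
        -((2 : ZMod m) * (5 * ((a : ZMod m) - i) - 4 * ((b : ZMod m) - i) + 2 * (U i : ZMod m))) := by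
      unfold gofs bofs wU lab
      push_cast
      linear_combination -hB
    rw [← TB_iff6 h6 key]
    unfold ln kp kq ky
    push_cast
    constructor
    · intro h
      linear_combination h
    · intro h
      linear_combination h
  | ar =>
    have key : (6 : ZMod m) * ((gofs m U .ar i (lab m a b) - bofs .ar a b : ℤ) : ZMod m) =
        -((2 : ZMod m) * (((a : ZMod m) - i) + 4 * ((b : ZMod m) - i) - 2 * (U i : ZMod m))) := by
      unfold gofs bofs wU lab
      push_cast
      linear_combination hB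
    rw [← TB_iff6 h6 key]
    unfold ln kp kq ky
    push_cast
    constructor
    · intro h
      linear_combination h
    · intro h
      linear_combination h
  | dc =>
    have key : (3 : ZMod m) * ((gofs m U .dc i (lab m a b) - bofs .dc a b : ℤ) : ZMod m) =
        (((a : ZMod m) - i) + ((b : ZMod m) - i) + (U i : ZMod m)) := by
      unfold gofs bofs wU lab
      push_cast
      linear_combination hA
    rw [← TB_iff3 h6 key]
    unfold ln kp kq ky
    push_cast
    constructor
    · intro h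
      linear_combination h
    · intro h
      linear_combination h
  | ac =>
    have key : (3 : ZMod m) * ((gofs m U .ac i (lab m a b) - bofs .ac a b : ℤ) : ZMod m) =
        (((a : ZMod m) - i) - 5 * ((b : ZMod m) - i) + (U i : ZMod m)) := by
      unfold gofs bofs wU lab
      push_cast
      linear_combination hA
    rw [← TB_iff3 h6 key]
    unfold ln kp kq ky
    push_cast
    constructor
    · intro h
      linear_combination h
    · intro h
      linear_combination h

theorem exists_diff {m : ℕ} (hm : 0 < m) (h6 : Nat.Coprime m 6) (c d : ZMod m) :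
    ∃ a b, a < m ∧ b < m ∧ lab m a b = c ∧ (a : ZMod m) - (b : ZMod m) = d := by
  have : NeZero m := ⟨hm.ne'⟩
  have h2 : ((2 : ℕ) : ZMod m) * ((2 : ℕ) : ZMod m)⁻¹ = 1 :=
    ZMod.coe_mul_inv_eq_one 2 (TB_c2 h6).symm
  refine ⟨(-(c + 4 * d) * ((2 : ℕ) : ZMod m)⁻¹ + d).val, (-(c + 4 * d) * ((2 : ℕ) : ZMod m)⁻¹).val,
    ZMod.val_lt _, ZMod.val_lt _, ?_, ?_⟩
  · unfold lab
    rw [ZMod.natCast_zmod_val, ZMod.natCast_zmod_val]
    push_cast at h2 ⊢
    linear_combination (c + 4 * d) * h2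
  · rw [ZMod.natCast_zmod_val, ZMod.natCast_zmod_val]
    ring

theorem exists_sum {m : ℕ} (hm : 0 < m) (h6 : Nat.Coprime m 6) (c d : ZMod m) :
    ∃ a b, a < m ∧ b < m ∧ lab m a b = c ∧ (a : ZMod m) + (b : ZMod m) = d := by
  have : NeZero m := ⟨hm.ne'⟩
  have h2 : ((6 : ℕ) : ZMod m) * ((6 : ℕ) : ZMod m)⁻¹ = 1 :=
    ZMod.coe_mul_inv_eq_one 6 h6.symm
  refine ⟨(d - (c + 4 * d) * ((6 : ℕ) : ZMod m)⁻¹).val, ((c + 4 * d) * ((6 : ℕ) : ZMod m)⁻¹).val,
    ZMod.val_lt _, ZMod.val_lt _, ?_, ?_⟩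
  · unfold lab
    rw [ZMod.natCast_zmod_val, ZMod.natCast_zmod_val]
    push_cast at h2 ⊢
    linear_combination (c + 4 * d) * h2
  · rw [ZMod.natCast_zmod_val, ZMod.natCast_zmod_val]
    ring

end H54.Q.D
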