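import Mathlib
import Pool.Agent.H54.Q.D.Tab
import Pool.Agent.H54.Q.D.TA
import Pool.Agent.H54.Q.D.TB

set_option autoImplicit false

namespace H54.Q.D


theorem AS_symm {x y x' y' : ℕ} (h : Att x y x' y') : Att x' y' x y := by
  unfold Att at *
  omega

/-- attacking cells of the same board -/
theorem AS_same {m a b X Y X' Y' : ℕ} (hm : 0 < m)
    (h : Att (m * X + a) (m * Y + b) (m * X' + a) (m * Y' + b)) : Att X Y X' Y' := by
  unfold Att at *
  rcases h with h | h | h | h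
  · left
    have : m * X = m * X' := by omega
    exact Nat.eq_of_mul_eq_mul_left hm this
  · right; left
    have : m * Y = m * Y' := by omega
    exact Nat.eq_of_mul_eq_mul_left hm this
  · right; right; left
    have : m * (X + Y') = m * (X' + Y) := by
      rw [Nat.mul_add, Nat.mul_add]; omega
    exact Nat.eq_of_mul_eq_mul_left hm this
  · right; right; right
    have : m * (X + Y) = m * (X' + Y') := by
      rw [Nat.mul_add, Nat.mul_add]; omega
    exact Nat.eq_of_mul_eq_mul_left hm this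

theorem AS_cop {m : ℕ} (h6 : Nat.Coprime m 6) : Nat.Coprime m 2 ∧ Nat.Coprime m 3 :=
  ⟨Nat.Coprime.coprime_dvd_right (by norm_num) h6, Nat.Coprime.coprime_dvd_right (by norm_num) h6⟩

/-- the possible relations between the boards of attacking cells, modulo `m` -/
theorem AS_mod {m X Y X' Y' a b a' b' : ℕ} (ha : a < m) (hb : b < m) (ha' : a' < m)
    (hb' : b' < m) (h : Att (m * X + a) (m * Y + b) (m * X' + a') (m * Y' + b')) :
    (a : ZMod m) = a' ∨ (b : ZMod m) = b' ∨ (a : ZMod m) - b = a' - b' ∨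
      (a : ZMod m) + b = a' + b' := by
  rcases att_split ha hb ha' hb' h with h | h | ⟨s, h, -⟩ | ⟨s, h, -⟩
  · left; rw [h.1]
  · right; left; rw [h.1]
  · right; right; left
    have h1 := congrArg (fun z : ℤ => (z : ZMod m)) h
    push_cast at h1
    rw [ZMod.natCast_self, mul_zero, sub_eq_zero] at h1
    exact h1.symm
  · right; right; right
    have h1 := congrArg (fun z : ℤ => (z : ZMod m)) h
    push_cast at h1
    rw [ZMod.natCast_self, mul_zero, sub_eq_zero] at h1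
    exact h1.symm

/-- attacking cells in boards of the same label are in the same board -/
theorem AS_lab {m X Y X' Y' a b a' b' : ℕ} (h6 : Nat.Coprime m 6) (ha : a < m) (hb : b < m)
    (ha' : a' < m) (hb' : b' < m) (hl : lab m a b = lab m a' b')
    (h : Att (m * X + a) (m * Y + b) (m * X' + a') (m * Y' + b')) : a = a' ∧ b = b' := by
  obtain ⟨c2, c3⟩ := AS_cop h6
  unfold lab at hl
  have key : (a : ZMod m) = a' ∧ (b : ZMod m) = b' := by
    rcases AS_mod ha hb ha' hb' h with h | h | h | h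
    · refine ⟨h, ?_⟩
      apply cancel c2
      push_cast
      linear_combination hl + 4 * h
    · refine ⟨?_, h⟩
      apply cancel c2
      apply cancel c2
      push_cast
      linear_combination -hl + 2 * h
    · have h1 : (a : ZMod m) = a' := by
        apply cancel c2
        push_cast
        linear_combination -hl - 2 * h
      refine ⟨h1, ?_⟩
      linear_combination h1 - h
    · have h1 : (a : ZMod m) = a' := by
        apply cancel h6
        push_cast
        linear_combination -hl + 2 * h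
      refine ⟨h1, ?_⟩
      linear_combination h - h1
  exact ⟨cast_eq ha ha' key.1, cast_eq hb hb' key.2⟩

/-- attacking cells in boards on the same line `W_i` are in the same board -/
theorem AS_W {m X Y X' Y' a b a' b' : ℕ} {w : ℕ → ZMod m} {i : ℕ} (h6 : Nat.Coprime m 6)
    (ha : a < m) (hb : b < m) (ha' : a' < m) (hb' : b' < m) (hl : onW m w i a b)
    (hl' : onW m w i a' b')
    (h : Att (m * X + a) (m * Y + b) (m * X' + a') (m * Y' + b')) : a = a' ∧ b = b' := by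
  obtain ⟨c2, c3⟩ := AS_cop h6
  unfold onW at hl hl'
  have key : (a : ZMod m) = a' ∧ (b : ZMod m) = b' := by
    rcases AS_mod ha hb ha' hb' h with h | h | h | h
    · refine ⟨h, ?_⟩
      apply cancel c2
      push_cast
      linear_combination hl' - hl + h
    · refine ⟨?_, h⟩
      linear_combination hl - hl' + 2 * h
    · have h1 : (b : ZMod m) = b' := by
        linear_combination hl' - hl + h
      refine ⟨?_, h1⟩
      linear_combination h + h1
    · have h1 : (b : ZMod m) = b' := by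
        apply cancel c3
        push_cast
        linear_combination hl' - hl + h
      refine ⟨?_, h1⟩
      linear_combination h - h1
  exact ⟨cast_eq ha ha' key.1, cast_eq hb hb' key.2⟩

/-- index of the position `Y` in class `b` -/
theorem AS_ki {r b Y : ℕ} (hY : Y < sz r b) (h6 : b < r → Y ≠ 6) :
    ki r b Y < 12 ∧ kk r b (ki r b Y) = Y ∧ R (ki r b Y) = RF r b Y := by
  unfold sz at hY
  unfold ki kk RF
  split_ifs at hY ⊢ with hb
  · exact ⟨kinv_lt Y hY (h6 hb), kap_kinv Y hY (h6 hb), R_kinv Y hY (h6 hb)⟩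
  · exact ⟨hY, rfl, rfl⟩

/-- the five types of cells with their colours -/
def AS_C (m r : ℕ) (w : ℕ → ZMod m) (nu xi : ℕ → ZMod m → ℕ → ℕ)
    (H : ℕ → ℕ → ℕ → ℕ → ℕ) (h : ℕ → ℕ → ℕ) (x y : ℕ) (v : (ZMod m × ℕ) ⊕ ℕ) : Prop :=
  (∃ i c t, i < r ∧ t < 12 ∧ ¬ onW m w i i (bI m w i c) ∧ x = m * R t + i ∧
    y = m * kk r (bI m w i c) t + bI m w i c ∧ v = Sum.inl (c, nu i c t)) ∨
  (∃ j c t, j < r ∧ t < 12 ∧ ¬ onW m w j (aI m w j c) j ∧
    x = m * kk r (aI m w j c) t + aI m w j c ∧ y = m * R t + j ∧ v = Sum.inl (c, xi j c t)) ∨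
  (∃ a b X Y, a < m ∧ b < m ∧ x = m * X + a ∧ y = m * Y + b ∧ Rg m r w a b X Y ∧
    H a b X Y < 12 ∧ v = Sum.inl (lab m a b, H a b X Y)) ∨
  (∃ a b X Y i, a < m ∧ b < m ∧ x = m * X + a ∧ y = m * Y + b ∧ Rg m r w a b X Y ∧
    H a b X Y = 12 ∧ i < r ∧ onW m w i a b ∧ v = Sum.inr i) ∨
  (∃ p q, p < r ∧ q < r ∧ x = m * 6 + p ∧ y = m * 6 + q ∧ v = Sum.inr (h p q))

theorem AS_exists {m r : ℕ} (h6 : Nat.Coprime m 6) (hm : 0 < m) (hrm : r < m) (w : ℕ → ZMod m)
    (nu xi : ℕ → ZMod m → ℕ → ℕ) (H : ℕ → ℕ → ℕ → ℕ → ℕ) (h : ℕ → ℕ → ℕ)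
    (hH : ∀ a b, a < m → b < m → BoardOK m r w nu xi a b (H a b)) (x y : ℕ)
    (hx : x < 12 * m + r) (hy : y < 12 * m + r) : ∃ v, AS_C m r w nu xi H h x y v := by
  have size : ∀ z, z < 12 * m + r → z / m < sz r (z % m) := by
    intro z hz
    have h1 := Nat.div_add_mod z m
    unfold sz
    split_ifs with h2
    · by_contra h3
      have h4 : m * 13 ≤ m * (z / m) := Nat.mul_le_mul_left m (by omega)
      omega
    · by_contra h3
      have h4 : m * 12 ≤ m * (z / m) := Nat.mul_le_mul_left m (by omega)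
      omega
  obtain ⟨X, a, hX, ha, rfl⟩ : ∃ X a, X < sz r a ∧ a < m ∧ x = m * X + a :=
    ⟨x / m, x % m, size x hx, Nat.mod_lt _ hm, (Nat.div_add_mod x m).symm⟩
  obtain ⟨Y, b, hY, hb, rfl⟩ : ∃ Y b, Y < sz r b ∧ b < m ∧ y = m * Y + b :=
    ⟨y / m, y % m, size y hy, Nat.mod_lt _ hm, (Nat.div_add_mod y m).symm⟩
  by_cases hh : isHole r a b X Y
  · obtain ⟨h1, h2, rfl, rfl⟩ := hh
    exact ⟨_, Or.inr (Or.inr (Or.inr (Or.inr ⟨a, b, h1, h2, rfl, rfl, rfl⟩)))⟩
  by_cases hF : isF m r w a b X Y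
  · obtain ⟨h1, h2, h3, h4⟩ := hF
    have h5 : b < r → Y ≠ 6 := by
      intro hb hY6
      subst hY6
      apply h4
      refine ⟨h1, hb, ?_, rfl⟩
      rw [h2]
      unfold RF
      rw [if_pos hb, Rc_six]
    obtain ⟨k1, k2, k3⟩ := AS_ki hY h5
    refine ⟨Sum.inl (lF m w a b, nu a (lF m w a b) (ki r b Y)), Or.inl
      ⟨a, lF m w a b, ki r b Y, h1, k1, ?_, ?_, ?_, rfl⟩⟩
    · rw [bI_lF h6 w hb]; exact h3
    · rw [k3, ← h2]
    · rw [bI_lF h6 w hb, k2]
  by_cases hG : isG m r w a b X Y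
  · obtain ⟨h1, h2, h3, h4⟩ := hG
    have h5 : a < r → X ≠ 6 := by
      intro ha hX6
      subst hX6
      apply h4
      refine ⟨ha, h1, rfl, ?_⟩
      rw [h2]
      unfold RF
      rw [if_pos ha, Rc_six]
    obtain ⟨k1, k2, k3⟩ := AS_ki hX h5
    refine ⟨Sum.inl (lG m w b a, xi b (lG m w b a) (ki r a X)), Or.inr (Or.inl
      ⟨b, lG m w b a, ki r a X, h1, k1, ?_, ?_, ?_, rfl⟩)⟩
    · rw [aI_lG h6 w ha]; exact h3
    · rw [aI_lG h6 w ha, k2]
    · rw [k3, ← h2]
  have hR : Rg m r w a b X Y := ⟨hX, hY, hh, hF, hG⟩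
  rcases lt_or_ge (H a b X Y) 12 with h12 | h12
  · exact ⟨_, Or.inr (Or.inr (Or.inl ⟨a, b, X, Y, ha, hb, rfl, rfl, hR, h12, rfl⟩))⟩
  · have h13 : H a b X Y = 12 := le_antisymm ((hH a b ha hb).le12 X Y hR) h12
    obtain ⟨i, hi, hon⟩ := (hH a b ha hb).inf X Y hR h13
    exact ⟨_, Or.inr (Or.inr (Or.inr (Or.inl
      ⟨a, b, X, Y, i, ha, hb, rfl, rfl, hR, h13, hi, hon, rfl⟩)))⟩

theorem AS_pair {m r : ℕ} (h6 : Nat.Coprime m 6) (hm : 0 < m) (w : ℕ → ZMod m)
    (nu xi : ℕ → ZMod m → ℕ → ℕ) (H : ℕ → ℕ → ℕ → ℕ → ℕ) (h : ℕ → ℕ → ℕ)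
    (ninj : ∀ i c t t', t < 12 → t' < 12 → nu i c t = nu i c t' → t = t')
    (xinj : ∀ i c t t', t < 12 → t' < 12 → xi i c t = xi i c t' → t = t')
    (hH : ∀ a b, a < m → b < m → BoardOK m r w nu xi a b (H a b))
    (hFF : ∀ i j c t t', i < r → j < r → i ≠ j → t < 12 → t' < 12 →
      ¬ Att (m * R t + i) (m * kk r (bI m w i c) t + bI m w i c)
        (m * R t' + j) (m * kk r (bI m w j c) t' + bI m w j c))
    (hGG : ∀ i j c t t', i < r → j < r → i ≠ j → t < 12 → t' < 12 →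
      ¬ Att (m * kk r (aI m w i c) t + aI m w i c) (m * R t + i)
        (m * kk r (aI m w j c) t' + aI m w j c) (m * R t' + j))
    (hFG : ∀ i j c t t', i < r → j < r → t < 12 → t' < 12 →
      ¬ onW m w i i (bI m w i c) → ¬ onW m w j (aI m w j c) j → nu i c t = xi j c t' →
      ¬ Att (m * R t + i) (m * kk r (bI m w i c) t + bI m w i c)
        (m * kk r (aI m w j c) t' + aI m w j c) (m * R t' + j))
    (hpc : PC r h) {x y x' y' : ℕ} {v : (ZMod m × ℕ) ⊕ ℕ}
    (h1 : AS_C m r w nu xi H h x y v) (h2 : AS_C m r w nu xi H h x' y' v)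
    (hatt : Att x y x' y') : x = x' ∧ y = y' := by
  rcases h1 with ⟨i, c, t, hi, ht, hn, rfl, rfl, rfl⟩ | ⟨i, c, t, hi, ht, hn, rfl, rfl, rfl⟩ |
      ⟨a, b, X, Y, ha, hb, rfl, rfl, hR, h12, rfl⟩ |
      ⟨a, b, X, Y, i, ha, hb, rfl, rfl, hR, h12, hi, hon, rfl⟩ |
      ⟨p, q, hp, hq, rfl, rfl, rfl⟩
  · -- row-foreign
    rcases h2 with ⟨j, c', t', hj, ht', hn', rfl, rfl, hv⟩ |
      ⟨j, c', t', hj, ht', hn', rfl, rfl, hv⟩ |
      ⟨a', b', X', Y', ha', hb', rfl, rfl, hR', h12', hv⟩ |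
      ⟨a', b', X', Y', i', ha', hb', rfl, rfl, hR', h12', hi', hon', hv⟩ |
      ⟨p', q', hp', hq', rfl, rfl, hv⟩
    · rw [Sum.inl.injEq, Prod.mk.injEq] at hv
      obtain ⟨rfl, hv⟩ := hv
      by_cases hij : i = j
      · subst hij
        have := ninj i c t t' ht ht' hv
        subst this
        exact ⟨rfl, rfl⟩
      · exact absurd hatt (hFF i j c t t' hi hj hij ht ht')
    · rw [Sum.inl.injEq, Prod.mk.injEq] at hv
      obtain ⟨rfl, hv⟩ := hv
      exact absurd hatt (hFG i j c t t' hi hj ht ht' hn hn' hv)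
    · rw [Sum.inl.injEq, Prod.mk.injEq] at hv
      obtain ⟨rfl, hv⟩ := hv
      exact absurd (AS_symm hatt) ((hH a' b' ha' hb').grpF i t hi ht hn X' Y' hR' hv.symm)
    · exact absurd hv (by simp)
    · exact absurd hv (by simp)
  · -- column-foreign
    rcases h2 with ⟨j, c', t', hj, ht', hn', rfl, rfl, hv⟩ |
      ⟨j, c', t', hj, ht', hn', rfl, rfl, hv⟩ |
      ⟨a', b', X', Y', ha', hb', rfl, rfl, hR', h12', hv⟩ |
      ⟨a', b', X', Y', i', ha', hb', rfl, rfl, hR', h12', hi', hon', hv⟩ |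
      ⟨p', q', hp', hq', rfl, rfl, hv⟩
    · rw [Sum.inl.injEq, Prod.mk.injEq] at hv
      obtain ⟨rfl, hv⟩ := hv
      exact absurd (AS_symm hatt) (hFG j i c t' t hj hi ht' ht hn' hn hv.symm)
    · rw [Sum.inl.injEq, Prod.mk.injEq] at hv
      obtain ⟨rfl, hv⟩ := hv
      by_cases hij : i = j
      · subst hij
        have := xinj i c t t' ht ht' hv
        subst this
        exact ⟨rfl, rfl⟩
      · exact absurd hatt (hGG i j c t t' hi hj hij ht ht')
    · rw [Sum.inl.injEq, Prod.mk.injEq] at hv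
      obtain ⟨rfl, hv⟩ := hv
      exact absurd (AS_symm hatt) ((hH a' b' ha' hb').grpG i t hi ht hn X' Y' hR' hv.symm)
    · exact absurd hv (by simp)
    · exact absurd hv (by simp)
  · -- regular, with a name
    rcases h2 with ⟨j, c', t', hj, ht', hn', rfl, rfl, hv⟩ |
      ⟨j, c', t', hj, ht', hn', rfl, rfl, hv⟩ |
      ⟨a', b', X', Y', ha', hb', rfl, rfl, hR', h12', hv⟩ |
      ⟨a', b', X', Y', i', ha', hb', rfl, rfl, hR', h12', hi', hon', hv⟩ |
      ⟨p', q', hp', hq', rfl, rfl, hv⟩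
    · rw [Sum.inl.injEq, Prod.mk.injEq] at hv
      obtain ⟨rfl, hv⟩ := hv
      exact absurd hatt ((hH a b ha hb).grpF j t' hj ht' hn' X Y hR hv)
    · rw [Sum.inl.injEq, Prod.mk.injEq] at hv
      obtain ⟨rfl, hv⟩ := hv
      exact absurd hatt ((hH a b ha hb).grpG j t' hj ht' hn' X Y hR hv)
    · rw [Sum.inl.injEq, Prod.mk.injEq] at hv
      obtain ⟨hl, hv⟩ := hv
      obtain ⟨rfl, rfl⟩ := AS_lab h6 ha hb ha' hb' hl hatt
      obtain ⟨rfl, rfl⟩ := (hH a b ha hb).prop X Y X' Y' hR hR' hv (AS_same hm hatt)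
      exact ⟨rfl, rfl⟩
    · exact absurd hv (by simp)
    · exact absurd hv (by simp)
  · -- regular, colour infinity
    rcases h2 with ⟨j, c', t', hj, ht', hn', rfl, rfl, hv⟩ |
      ⟨j, c', t', hj, ht', hn', rfl, rfl, hv⟩ |
      ⟨a', b', X', Y', ha', hb', rfl, rfl, hR', h12', hv⟩ |
      ⟨a', b', X', Y', i', ha', hb', rfl, rfl, hR', h12', hi', hon', hv⟩ |
      ⟨p', q', hp', hq', rfl, rfl, hv⟩
    · exact absurd hv (by simp)
    · exact absurd hv (by simp)
    · exact absurd hv (by simp)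
    · rw [Sum.inr.injEq] at hv
      subst hv
      obtain ⟨rfl, rfl⟩ := AS_W h6 ha hb ha' hb' hon hon' hatt
      obtain ⟨rfl, rfl⟩ := (hH a b ha hb).prop X Y X' Y' hR hR' (h12.trans h12'.symm)
        (AS_same hm hatt)
      exact ⟨rfl, rfl⟩
    · exact absurd hatt ((hH a b ha hb).hol i p' q' hi hp' hq' hon X Y hR h12)
  · -- hole
    rcases h2 with ⟨j, c', t', hj, ht', hn', rfl, rfl, hv⟩ |
      ⟨j, c', t', hj, ht', hn', rfl, rfl, hv⟩ |
      ⟨a', b', X', Y', ha', hb', rfl, rfl, hR', h12', hv⟩ |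
      ⟨a', b', X', Y', i', ha', hb', rfl, rfl, hR', h12', hi', hon', hv⟩ |
      ⟨p', q', hp', hq', rfl, rfl, hv⟩
    · exact absurd hv (by simp)
    · exact absurd hv (by simp)
    · exact absurd hv (by simp)
    · exact absurd (AS_symm hatt)
        ((hH a' b' ha' hb').hol i' p q hi' hp hq hon' X' Y' hR' h12')
    · rw [Sum.inr.injEq] at hv
      have h3 : Att p q p' q' := by
        unfold Att at *
        omega
      obtain ⟨rfl, rfl⟩ := hpc p q p' q' hp hq hp' hq' hv h3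
      exact ⟨rfl, rfl⟩


theorem assemble {m r : ℕ} (h6 : Nat.Coprime m 6) (h1 : 1 < m) (hrm : r < m) (w : ℕ → ZMod m)
    (hw : ∀ i j, i < r → j < r → w i = w j → i = j) (hr : SQ r)
    (hsm : ∀ i p q, i < r → p < r → q < r → ¬ onW m w i p q)
    (nu xi : ℕ → ZMod m → ℕ → ℕ)
    (nlt : ∀ i c t, t < 12 → nu i c t < 12)
    (ninj : ∀ i c t t', t < 12 → t' < 12 → nu i c t = nu i c t' → t = t')
    (xlt : ∀ i c t, t < 12 → xi i c t < 12)
    (xinj : ∀ i c t t', t < 12 → t' < 12 → xi i c t = xi i c t' → t = t')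
    (hB : ∀ a b, a < m → b < m → ∃ H, BoardOK m r w nu xi a b H)
    (hFF : ∀ i j c t t', i < r → j < r → i ≠ j → t < 12 → t' < 12 →
      ¬ Att (m * R t + i) (m * kk r (bI m w i c) t + bI m w i c)
        (m * R t' + j) (m * kk r (bI m w j c) t' + bI m w j c))
    (hGG : ∀ i j c t t', i < r → j < r → i ≠ j → t < 12 → t' < 12 →
      ¬ Att (m * kk r (aI m w i c) t + aI m w i c) (m * R t + i)
        (m * kk r (aI m w j c) t' + aI m w j c) (m * R t' + j))
    (hFG : ∀ i j c t t', i < r → j < r → t < 12 → t' < 12 →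
      ¬ onW m w i i (bI m w i c) → ¬ onW m w j (aI m w j c) j → nu i c t = xi j c t' →
      ¬ Att (m * R t + i) (m * kk r (bI m w i c) t + bI m w i c)
        (m * kk r (aI m w j c) t' + aI m w j c) (m * R t' + j)) :
    SQ (12 * m + r) := by
  classical
  have hm : 0 < m := by omega
  have : NeZero m := ⟨by omega⟩
  have c2 := AS_cop h6
  obtain ⟨h, hlt, hpc⟩ := hr
  have hB' : ∀ a b, ∃ H, a < m → b < m → BoardOK m r w nu xi a b H := by
    intro a b
    by_cases hab : a < m ∧ b < m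
    · obtain ⟨H, hH⟩ := hB a b hab.1 hab.2
      exact ⟨H, fun _ _ => hH⟩
    · exact ⟨fun _ _ => 0, fun h1 h2 => absurd ⟨h1, h2⟩ hab⟩
  choose H hH using hB'
  have hex : ∀ x y, ∃ v, x < 12 * m + r → y < 12 * m + r → AS_C m r w nu xi H h x y v := by
    intro x y
    by_cases hxy : x < 12 * m + r ∧ y < 12 * m + r
    · obtain ⟨v, hv⟩ := AS_exists h6 hm hrm w nu xi H h hH x y hxy.1 hxy.2
      exact ⟨v, fun _ _ => hv⟩
    · exact ⟨Sum.inr 0, fun h1 h2 => absurd ⟨h1, h2⟩ hxy⟩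
  choose f hf using hex
  refine SQ_of_card (12 * m + r)
    (((Finset.univ : Finset (ZMod m)) ×ˢ Finset.range 12).disjSum (Finset.range r)) ?_ f ?_ ?_
  · rw [Finset.card_disjSum, Finset.card_product, Finset.card_univ, ZMod.card,
      Finset.card_range, Finset.card_range]
    omega
  · intro x y hx hy
    rcases hf x y hx hy with ⟨i, c, t, hi, ht, -, -, -, hv⟩ | ⟨j, c, t, hj, ht, -, -, -, hv⟩ |
      ⟨a, b, X, Y, ha, hb, -, -, -, h12, hv⟩ | ⟨a, b, X, Y, i, ha, hb, -, -, -, -, hi, -, hv⟩ |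
      ⟨p, q, hp, hq, -, -, hv⟩
    · rw [hv, Finset.inl_mem_disjSum, Finset.mem_product]
      exact ⟨Finset.mem_univ _, Finset.mem_range.mpr (nlt i c t ht)⟩
    · rw [hv, Finset.inl_mem_disjSum, Finset.mem_product]
      exact ⟨Finset.mem_univ _, Finset.mem_range.mpr (xlt j c t ht)⟩
    · rw [hv, Finset.inl_mem_disjSum, Finset.mem_product]
      exact ⟨Finset.mem_univ _, Finset.mem_range.mpr h12⟩
    · rw [hv, Finset.inr_mem_disjSum]
      exact Finset.mem_range.mpr hi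
    · rw [hv, Finset.inr_mem_disjSum]
      exact Finset.mem_range.mpr (hlt p q hp hq)
  · intro x y x' y' hx hy hx' hy' heq hatt
    have h1 := hf x y hx hy
    have h2 := hf x' y' hx' hy'
    rw [← heq] at h2
    exact AS_pair h6 hm w nu xi H h ninj xinj hH hFF hGG hFG hpc h1 h2 hatt

end H54.Q.D
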