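import Mathlib
import Pool.Agent.H54.Q.D.Tab

set_option autoImplicit false

namespace H54.Q.D


theorem Gen.cop6 {m r : ℕ} {U : ℕ → ℕ} (g : Gen m r U) : Nat.Coprime m 6 := by
  have h := g.cop
  exact Nat.Coprime.coprime_dvd_right (by decide) h

theorem Gen.mpos {m r : ℕ} {U : ℕ → ℕ} (g : Gen m r U) : 0 < m := by
  have h := g.hm
  omega

theorem Gen.lt_m {m r : ℕ} {U : ℕ → ℕ} (g : Gen m r U) {i : ℕ} (hi : i < r) : i < m := by
  have h := g.hm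
  omega

theorem gen_mod {m r : ℕ} {U : ℕ → ℕ} (g : Gen m r U) (α : Fin 4 → ℤ) (j : Fin 4 → ℕ) (s : ℤ)
    (hj : ∀ l, j l < r) (hα : ∀ l, |α l| ≤ 1000) (hs : |s| ≤ 5000 * ((r : ℤ) + 1))
    (h : (((∑ l, α l * (U (j l) : ℤ)) + s : ℤ) : ZMod m) = 0) :
    (∀ k, (∑ l, if j l = k then α l else 0) = 0) ∧ s = 0 := by
  have hm : (10000 * ((r : ℤ) + 1)) ≤ (m : ℤ) := by exact_mod_cast g.hm
  have hr0 : (0 : ℤ) ≤ (r : ℤ) := Int.natCast_nonneg r
  have hmpos : (0 : ℤ) < (m : ℤ) := by linarith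
  have hterm : ∀ l, 10000 * |α l * (U (j l) : ℤ)| ≤ 1000 * (m : ℤ) := by
    intro l
    have h1 : (10000 : ℤ) * (U (j l) : ℤ) ≤ (m : ℤ) := by exact_mod_cast g.lt (j l) (hj l)
    have h0 : (0 : ℤ) ≤ (U (j l) : ℤ) := Int.natCast_nonneg _
    rw [abs_mul, abs_of_nonneg h0]
    have h2 : |α l| * (10000 * (U (j l) : ℤ)) ≤ 1000 * (m : ℤ) :=
      mul_le_mul (hα l) h1 (by positivity) (by norm_num)
    linarith
  have hdvd : (m : ℤ) ∣ (∑ l, α l * (U (j l) : ℤ)) + s := by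
    rw [← ZMod.intCast_zmod_eq_zero_iff_dvd]
    exact h
  have hsum : |(∑ l, α l * (U (j l) : ℤ)) + s| < (m : ℤ) := by
    have e : (∑ l, α l * (U (j l) : ℤ)) = α 0 * (U (j 0) : ℤ) + α 1 * (U (j 1) : ℤ) +
        α 2 * (U (j 2) : ℤ) + α 3 * (U (j 3) : ℤ) := by
      rw [Fin.sum_univ_four]
    rw [e]
    have t0 := hterm 0
    have t1 := hterm 1
    have t2 := hterm 2
    have t3 := hterm 3
    generalize α 0 * (U (j 0) : ℤ) = x0 at *
    generalize α 1 * (U (j 1) : ℤ) = x1 at *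
    generalize α 2 * (U (j 2) : ℤ) = x2 at *
    generalize α 3 * (U (j 3) : ℤ) = x3 at *
    have a0 := abs_le.mp (le_refl |x0|)
    have a1 := abs_le.mp (le_refl |x1|)
    have a2 := abs_le.mp (le_refl |x2|)
    have a3 := abs_le.mp (le_refl |x3|)
    have a4 := abs_le.mp hs
    rw [abs_lt]
    constructor
    · linarith [a0.1, a1.1, a2.1, a3.1, a4.1]
    · linarith [a0.2, a1.2, a2.2, a3.2, a4.2]
  have h0 : (∑ l, α l * (U (j l) : ℤ)) + s = 0 :=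
    Int.eq_zero_of_abs_lt_dvd hdvd hsum
  exact g.gen α j s hj hα (by linarith) h0

theorem gen_mod0 {m r : ℕ} {U : ℕ → ℕ} (g : Gen m r U) {s : ℤ}
    (hs : |s| ≤ 5000 * ((r : ℤ) + 1)) (h : ((s : ℤ) : ZMod m) = 0) : s = 0 := by
  have hm : (10000 * ((r : ℤ) + 1)) ≤ (m : ℤ) := by exact_mod_cast g.hm
  have hr0 : (0 : ℤ) ≤ (r : ℤ) := Int.natCast_nonneg r
  have hdvd : (m : ℤ) ∣ s := by
    rw [← ZMod.intCast_zmod_eq_zero_iff_dvd]
    exact h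
  exact Int.eq_zero_of_abs_lt_dvd hdvd (by linarith)

theorem gen_mod1 {m r : ℕ} {U : ℕ → ℕ} (g : Gen m r U) {i : ℕ} (hi : i < r) {α s : ℤ}
    (hα : |α| ≤ 1000) (hs : |s| ≤ 5000 * ((r : ℤ) + 1))
    (h : ((α * (U i : ℤ) + s : ℤ) : ZMod m) = 0) : α = 0 ∧ s = 0 := by
  have key := gen_mod g ![α, 0, 0, 0] ![i, i, i, i] s
    (by intro l; fin_cases l <;> simpa using hi)
    (by intro l; fin_cases l <;> simp [hα]) hs
    (by rw [Fin.sum_univ_four]; simpa using h)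
  refine ⟨?_, key.2⟩
  have h1 := key.1 i
  rw [Fin.sum_univ_four] at h1
  simpa using h1

theorem gen_mod2 {m r : ℕ} {U : ℕ → ℕ} (g : Gen m r U) {i j : ℕ} (hi : i < r) (hj : j < r)
    {α β s : ℤ} (hα : |α| ≤ 1000) (hβ : |β| ≤ 1000) (hs : |s| ≤ 5000 * ((r : ℤ) + 1))
    (h : ((α * (U i : ℤ) + β * (U j : ℤ) + s : ℤ) : ZMod m) = 0) :
    s = 0 ∧ (i = j → α + β = 0) ∧ (i ≠ j → α = 0 ∧ β = 0) := by
  have key := gen_mod g ![α, β, 0, 0] ![i, j, i, i] s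
    (by intro l; fin_cases l <;> simp [hi, hj])
    (by intro l; fin_cases l <;> simp [hα, hβ]) hs
    (by rw [Fin.sum_univ_four]; simpa using h)
  refine ⟨key.2, ?_, ?_⟩
  · intro hij
    have h1 := key.1 i
    rw [Fin.sum_univ_four] at h1
    simpa [hij] using h1
  · intro hij
    have h1 := key.1 i
    have h2 := key.1 j
    rw [Fin.sum_univ_four] at h1 h2
    constructor
    · simpa [Ne.symm hij] using h1
    · simpa [hij] using h2

theorem GT_pos_aux {m r : ℕ} {U : ℕ → ℕ} (g : Gen m r U) {z' : ℤ} {j : ℕ} {q α s : ℤ}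
    (hj : j < r) (hq : 1 ≤ q) (hq' : q ≤ 100) (hα : α ≠ 0) (hα' : |α| ≤ 1000)
    (hs : |s| ≤ 1000 * ((r : ℤ) + 1)) (hz : |z'| ≤ 2 * (r : ℤ))
    (h : ((q * z' - α * (U j : ℤ) - s : ℤ) : ZMod m) = 0) : False := by
  have hb : |s - q * z'| ≤ 5000 * ((r : ℤ) + 1) := by
    have h1 : |q * z'| ≤ 100 * (2 * (r : ℤ)) := by
      rw [abs_mul, abs_of_nonneg (by linarith : (0 : ℤ) ≤ q)]
      exact mul_le_mul hq' hz (abs_nonneg _) (by norm_num)
    have h2 := abs_sub s (q * z')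
    have hr0 : (0 : ℤ) ≤ (r : ℤ) := Int.natCast_nonneg r
    linarith
  have h1 : ((α * (U j : ℤ) + (s - q * z') : ℤ) : ZMod m) = 0 := by
    have e : (α * (U j : ℤ) + (s - q * z') : ℤ) = -(q * z' - α * (U j : ℤ) - s) := by ring
    rw [e, Int.cast_neg, h, neg_zero]
  exact hα (gen_mod1 g hj hα' hb h1).1

theorem pos_of {m r : ℕ} {U : ℕ → ℕ} (g : Gen m r U) {z j : ℕ} {q α s : ℤ} (hz : z < m)
    (hj : j < r) (hq : 1 ≤ q) (hq' : q ≤ 100) (hα : α ≠ 0) (hα' : |α| ≤ 1000)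
    (hs : |s| ≤ 1000 * ((r : ℤ) + 1))
    (h : ((q * (z : ℤ) - α * (U j : ℤ) - s : ℤ) : ZMod m) = 0) :
    2 * r ≤ z ∧ z + 2 * r ≤ m := by
  constructor
  · by_contra hlt
    refine GT_pos_aux g (z' := (z : ℤ)) hj hq hq' hα hα' hs ?_ h
    rw [abs_le]
    constructor <;> omega
  · by_contra hlt
    refine GT_pos_aux g (z' := (z : ℤ) - (m : ℤ)) hj hq hq' hα hα' hs ?_ ?_
    · rw [abs_le]
      constructor <;> omega
    · have e : (q * ((z : ℤ) - (m : ℤ)) - α * (U j : ℤ) - s : ℤ) =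
          (q * (z : ℤ) - α * (U j : ℤ) - s) - q * (m : ℤ) := by ring
      rw [e, Int.cast_sub, h]
      simp

end H54.Q.D
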