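import Mathlib
import Pool.Agent.H54.Q.D.Tab
import Pool.Agent.H54.Q.D.GT
import Pool.Agent.H54.Q.D.TA

set_option autoImplicit false

namespace H54.Q.D


theorem CLA_dvd {κ1 κ2 : Kind} (hne : κ1 ≠ κ2) :
    (kp κ1 * kq κ2 - kp κ2 * kq κ1).natAbs ∣ 210 ^ 3 := by
  cases κ1 <;> cases κ2 <;> first | exact absurd rfl hne | (simp only [kp, kq]; decide)

theorem CLA_unit {m r : ℕ} {U : ℕ → ℕ} (g : Gen m r U) {κ1 κ2 : Kind} (hne : κ1 ≠ κ2)
    {x y : ZMod m} (h : (((kp κ1 * kq κ2 - kp κ2 * kq κ1 : ℤ)) : ZMod m) * x =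
      (((kp κ1 * kq κ2 - kp κ2 * kq κ1 : ℤ)) : ZMod m) * y) : x = y := by
  have hd := CLA_dvd hne
  have hc : Nat.Coprime m (kp κ1 * kq κ2 - kp κ2 * kq κ1).natAbs :=
    Nat.Coprime.coprime_dvd_right hd (Nat.Coprime.pow_right 3 g.cop)
  generalize (kp κ1 * kq κ2 - kp κ2 * kq κ1) = D at h hc
  apply cancel hc
  rcases Int.natAbs_eq D with h1 | h1
  · rw [h1] at h
    simpa using h
  · rw [h1] at h
    simp only [Int.cast_neg, neg_mul, neg_inj] at h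
    simpa using h

theorem CLA_kP {κ : Kind} (hP : κ ≠ .cl ∧ κ ≠ .dc ∧ κ ≠ .ac) : kq κ = -2 * ky κ := by
  obtain ⟨h1, h2, h3⟩ := hP
  cases κ <;> first | exact absurd rfl h1 | exact absurd rfl h2 | exact absurd rfl h3 | rfl

theorem CLA_kQ {κ : Kind} (hP : κ ≠ .rw ∧ κ ≠ .dr ∧ κ ≠ .ar) : kp κ = ky κ := by
  obtain ⟨h1, h2, h3⟩ := hP
  cases κ <;> first | exact absurd rfl h1 | exact absurd rfl h2 | exact absurd rfl h3 | rfl

theorem CLA_sum (κ : Kind) : kp κ + kq κ ≠ 0 ∧ |kp κ + kq κ| ≤ 5 ∧ |ky κ| ≤ 2 := by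
  cases κ <;> (simp only [kp, kq, ky]; decide)

theorem par {m r : ℕ} {U : ℕ → ℕ} (g : Gen m r U) {κ : Kind} {i j a b : ℕ} (hi : i < r)
    (hj : j < r) (h1 : ln m U κ i a b) (h2 : ln m U κ j a b) : i = j := by
  obtain ⟨hs, hs5, hy⟩ := CLA_sum κ
  have key := gen_mod2 g hi hj (α := ky κ) (β := -(ky κ))
    (s := -((kp κ + kq κ) * ((i : ℤ) - j))) (by linarith)
    (by rw [abs_neg]; linarith) (by
      rw [abs_neg, abs_mul]
      have h3 : |(i : ℤ) - j| ≤ (r : ℤ) + 1 := by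
        rw [abs_le]; constructor <;> omega
      have h4 : 0 ≤ |(i : ℤ) - j| := abs_nonneg _
      nlinarith) (by
      unfold ln at h1 h2
      push_cast
      linear_combination h1 - h2)
  have h0 := key.1
  rw [neg_eq_zero, mul_eq_zero] at h0
  rcases h0 with h0 | h0
  · exact absurd h0 hs
  · omega

theorem small_not_W {m r : ℕ} {U : ℕ → ℕ} (g : Gen m r U) {i p q : ℕ} (hi : i < r) (hp : p < r)
    (hq : q < r) : ¬ onW m (wU m U) i p q := by
  intro h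
  have key := gen_mod1 g hi (α := 1) (s := (p : ℤ) - 2 * q + i) (by norm_num)
    (by rw [abs_le]; constructor <;> omega) (by
      unfold onW wU at h
      push_cast
      linear_combination h)
  exact absurd key.1 one_ne_zero

theorem wU_inj {m r : ℕ} {U : ℕ → ℕ} (g : Gen m r U) {i j : ℕ} (hi : i < r) (hj : j < r)
    (h : wU m U i = wU m U j) : i = j := by
  have key := gen_mod2 g hi hj (α := 1) (β := -1) (s := (i : ℤ) - j) (by norm_num)
    (by norm_num) (by rw [abs_le]; constructor <;> omega) (by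
      unfold wU at h
      push_cast
      linear_combination -h)
  have := key.1
  omega

theorem twoP {m r : ℕ} {U : ℕ → ℕ} (g : Gen m r U) {κ1 κ2 : Kind} {i a b : ℕ}
    (h1 : ln m U κ1 i a b) (h2 : ln m U κ2 i a b) (n12 : κ1 ≠ κ2)
    (hP1 : κ1 ≠ .cl ∧ κ1 ≠ .dc ∧ κ1 ≠ .ac) (hP2 : κ2 ≠ .cl ∧ κ2 ≠ .dc ∧ κ2 ≠ .ac) :
    ln m U .rw i a b ∧ ln m U .w i a b ∧ ln m U .dr i a b ∧ ln m U .ar i a b := by
  have e1 := CLA_kP hP1
  have e2 := CLA_kP hP2
  have f1 : ((kq κ1 : ℤ) : ZMod m) = -2 * ((ky κ1 : ℤ) : ZMod m) := by rw [e1]; push_cast; ring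
  have f2 : ((kq κ2 : ℤ) : ZMod m) = -2 * ((ky κ2 : ℤ) : ZMod m) := by rw [e2]; push_cast; ring
  unfold ln at h1 h2
  rw [f1] at h1
  rw [f2] at h2
  have hx : (a : ZMod m) - i = 0 := by
    apply CLA_unit g n12
    push_cast
    rw [f1, f2]
    linear_combination (-2 * ((ky κ2 : ℤ) : ZMod m)) * h1 + 2 * ((ky κ1 : ℤ) : ZMod m) * h2
  have hy : 2 * ((b : ZMod m) - i) = U i := by
    apply CLA_unit g n12
    push_cast
    rw [f1, f2]
    linear_combination (-2 * ((kp κ2 : ℤ) : ZMod m)) * h1 + 2 * ((kp κ1 : ℤ) : ZMod m) * h2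
  unfold ln
  simp only [kp, kq, ky]
  push_cast
  refine ⟨?_, ?_, ?_, ?_⟩
  · linear_combination hx
  · linear_combination hx - hy
  · linear_combination 5 * hx - 2 * hy
  · linear_combination hx + 2 * hy

theorem twoQ {m r : ℕ} {U : ℕ → ℕ} (g : Gen m r U) {κ1 κ2 : Kind} {i a b : ℕ}
    (h1 : ln m U κ1 i a b) (h2 : ln m U κ2 i a b) (n12 : κ1 ≠ κ2)
    (hP1 : κ1 ≠ .rw ∧ κ1 ≠ .dr ∧ κ1 ≠ .ar) (hP2 : κ2 ≠ .rw ∧ κ2 ≠ .dr ∧ κ2 ≠ .ar) :
    ln m U .cl i a b ∧ ln m U .w i a b ∧ ln m U .dc i a b ∧ ln m U .ac i a b := by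
  have e1 := CLA_kQ hP1
  have e2 := CLA_kQ hP2
  unfold ln at h1 h2
  rw [← e1] at h1
  rw [← e2] at h2
  have hx : (a : ZMod m) - i + U i = 0 := by
    apply CLA_unit g n12
    push_cast
    linear_combination ((kq κ2 : ℤ) : ZMod m) * h1 - ((kq κ1 : ℤ) : ZMod m) * h2
  have hy : (b : ZMod m) - i = 0 := by
    apply CLA_unit g n12
    push_cast
    linear_combination (-((kp κ2 : ℤ) : ZMod m)) * h1 + ((kp κ1 : ℤ) : ZMod m) * h2
  unfold ln
  simp only [kp, kq, ky]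
  push_cast
  refine ⟨?_, ?_, ?_, ?_⟩
  · linear_combination hy
  · linear_combination hx - 2 * hy
  · linear_combination hx + hy
  · linear_combination hx - 5 * hy

theorem meet_unique {m r : ℕ} {U : ℕ → ℕ} (g : Gen m r U) {κ1 κ2 : Kind}
    {i j a b a' b' : ℕ} (hne : κ1 ≠ κ2) (ha : a < m) (hb : b < m) (ha' : a' < m) (hb' : b' < m)
    (h1 : ln m U κ1 i a b) (h2 : ln m U κ2 j a b) (h1' : ln m U κ1 i a' b')
    (h2' : ln m U κ2 j a' b') : a = a' ∧ b = b' := by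
  unfold ln at h1 h2 h1' h2'
  have hx : (a : ZMod m) = a' := by
    apply CLA_unit g hne
    push_cast
    linear_combination ((kq κ2 : ℤ) : ZMod m) * (h1 - h1') - ((kq κ1 : ℤ) : ZMod m) * (h2 - h2')
  have hy : (b : ZMod m) = b' := by
    apply CLA_unit g hne
    push_cast
    linear_combination (-((kp κ2 : ℤ) : ZMod m)) * (h1 - h1') +
      ((kp κ1 : ℤ) : ZMod m) * (h2 - h2')
  exact ⟨cast_eq ha ha' hx, cast_eq hb hb' hy⟩

end H54.Q.D
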