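import Mathlib
import Pool.Agent.H54.Q.D.Tab
import Pool.Agent.H54.Q.D.GT
import Pool.Agent.H54.Q.D.TA
import Pool.Agent.H54.Q.D.TB

set_option autoImplicit false

namespace H54.Q.D


theorem GA_wU (m : ℕ) (U : ℕ → ℕ) (i : ℕ) : wU m U i = -(i : ZMod m) - (U i : ZMod m) := rfl

theorem GA_key {m r : ℕ} {U : ℕ → ℕ} (g : Gen m r U) {i j : ℕ} (hi : i < r) (hj : j < r)
    (hne : i ≠ j) {p q : ℤ} (hp : |p| ≤ 100) (hp0 : p ≠ 0) (hq : |q| ≤ 100)
    (h : (p : ZMod m) * (U i : ZMod m) + (q : ZMod m) * (i : ZMod m) =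
      (p : ZMod m) * (U j : ZMod m) + (q : ZMod m) * (j : ZMod m)) : False := by
  have h0 : ((p * (U i : ℤ) + (-p) * (U j : ℤ) + (q * i - q * j) : ℤ) : ZMod m) = 0 := by
    push_cast
    linear_combination h
  have hb : |q * (i : ℤ) - q * j| ≤ 5000 * ((r : ℤ) + 1) := by
    have e : q * (i : ℤ) - q * j = q * ((i : ℤ) - j) := by ring
    rw [e, abs_mul]
    have h1 : |(i : ℤ) - j| ≤ (r : ℤ) := by
      rw [abs_le]; constructor <;> omega
    have h2 : |q| * |(i : ℤ) - j| ≤ 100 * (r : ℤ) := by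
      apply mul_le_mul hq h1 (abs_nonneg _) (by norm_num)
    have h3 : (0 : ℤ) ≤ r := by positivity
    linarith
  have := (gen_mod2 g hi hj (α := p) (β := -p) (s := q * i - q * j) (by linarith)
    (by rw [abs_neg]; linarith) hb h0).2.2 hne
  exact hp0 this.1

theorem GA_cast {m : ℕ} {x y s : ℤ} (h : x - y = s * m) : (x : ZMod m) = (y : ZMod m) := by
  have : ((x - y : ℤ) : ZMod m) = ((s * m : ℤ) : ZMod m) := by rw [h]
  push_cast at this
  simp only [CharP.cast_eq_zero, mul_zero] at this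
  linear_combination this

theorem gFF {m r : ℕ} {U : ℕ → ℕ} (g : Gen m r U) {i j t t' : ℕ} (c : ZMod m) (hi : i < r)
    (hj : j < r) (hne : i ≠ j) (ht : t < 12) (ht' : t' < 12) :
    ¬ Att (m * R t + i) (m * kk r (bI m (wU m U) i c) t + bI m (wU m U) i c)
      (m * R t' + j) (m * kk r (bI m (wU m U) j c) t' + bI m (wU m U) j c) := by
  intro h
  have e1 := bI_eq g.cop6 (wU m U) i c
  have e2 := bI_eq g.cop6 (wU m U) j c
  rw [GA_wU] at e1 e2
  rcases att_split (g.lt_m hi) (bI_lt g.mpos _ _ _) (g.lt_m hj) (bI_lt g.mpos _ _ _) h with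
    h | h | ⟨s, h, -⟩ | ⟨s, h, -⟩
  · exact hne h.1
  · have h1 := h.1
    rw [h1, e2] at e1
    refine GA_key g hi hj hne (p := 4) (q := 4) (by norm_num) (by norm_num) (by norm_num) ?_
    push_cast
    linear_combination (-1 : ZMod m) * e1
  · have h1 := GA_cast h
    push_cast at h1
    refine GA_key g hi hj hne (p := -4) (q := 2) (by norm_num) (by norm_num) (by norm_num) ?_
    push_cast
    linear_combination (-6 : ZMod m) * h1 + e1 - e2
  · have h1 := GA_cast h
    push_cast at h1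
    refine GA_key g hi hj hne (p := 4) (q := 10) (by norm_num) (by norm_num) (by norm_num) ?_
    push_cast
    linear_combination (-6 : ZMod m) * h1 - e1 + e2

theorem gGG {m r : ℕ} {U : ℕ → ℕ} (g : Gen m r U) {i j t t' : ℕ} (c : ZMod m) (hi : i < r)
    (hj : j < r) (hne : i ≠ j) (ht : t < 12) (ht' : t' < 12) :
    ¬ Att (m * kk r (aI m (wU m U) i c) t + aI m (wU m U) i c) (m * R t + i)
      (m * kk r (aI m (wU m U) j c) t' + aI m (wU m U) j c) (m * R t' + j) := by
  intro h
  have e1 := aI_eq g.cop6 (wU m U) i c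
  have e2 := aI_eq g.cop6 (wU m U) j c
  rw [GA_wU] at e1 e2
  rcases att_split (aI_lt g.mpos _ _ _) (g.lt_m hi) (aI_lt g.mpos _ _ _) (g.lt_m hj) h with
    h | h | ⟨s, h, -⟩ | ⟨s, h, -⟩
  · have h1 := h.1
    rw [h1, e2] at e1
    refine GA_key g hi hj hne (p := 1) (q := 1) (by norm_num) (by norm_num) (by norm_num) ?_
    push_cast
    linear_combination (-1 : ZMod m) * e1
  · exact hne h.1
  · have h1 := GA_cast h
    push_cast at h1
    refine GA_key g hi hj hne (p := 1) (q := -2) (by norm_num) (by norm_num) (by norm_num) ?_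
    push_cast
    linear_combination (-3 : ZMod m) * h1 - e1 + e2
  · have h1 := GA_cast h
    push_cast at h1
    refine GA_key g hi hj hne (p := 1) (q := 4) (by norm_num) (by norm_num) (by norm_num) ?_
    push_cast
    linear_combination (-3 : ZMod m) * h1 - e1 + e2

end H54.Q.D
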