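import Mathlib
import Pool.Agent.H54.Q.D.Tab
import Pool.Agent.H54.Q.D.GT
import Pool.Agent.H54.Q.D.TA

set_option autoImplicit false

namespace H54.Q.D


theorem PR_line {m : ℕ} {U : ℕ → ℕ} {κ : Kind} {i a b : ℕ} (h : ln m U κ i a b) :
    (36 : ZMod m) * ((a : ZMod m) - (b : ZMod m)) =
      ((kX κ : ℤ) : ZMod m) * (lab m a b + 2 * (i : ZMod m)) -
        ((kY κ : ℤ) : ZMod m) * (U i : ZMod m) := by
  cases κ
  · simp only [ln, kp, kq, ky, kX, kY, lab] at h ⊢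
    push_cast at h ⊢
    linear_combination (-36) * h
  · simp only [ln, kp, kq, ky, kX, kY, lab] at h ⊢
    push_cast at h ⊢
    linear_combination (-18) * h
  · simp only [ln, kp, kq, ky, kX, kY, lab] at h ⊢
    push_cast at h ⊢
    linear_combination 12 * h
  · simp only [ln, kp, kq, ky, kX, kY, lab] at h ⊢
    push_cast at h ⊢
    linear_combination 12 * h
  · simp only [ln, kp, kq, ky, kX, kY, lab] at h ⊢
    push_cast at h ⊢
    linear_combination (-4) * h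
  · simp only [ln, kp, kq, ky, kX, kY, lab] at h ⊢
    push_cast at h ⊢
    linear_combination (-12) * h
  · simp only [ln, kp, kq, ky, kX, kY, lab] at h ⊢
    push_cast at h ⊢
    linear_combination 4 * h

theorem PR_X (κ : Kind) : |kX κ| ≤ 18 := by cases κ <;> simp [kX]

theorem PR_Y (κ : Kind) : |kY κ| ≤ 24 := by cases κ <;> simp [kY]

theorem PR_XX (κ κ' : Kind) : |kX κ - kX κ'| ≤ 24 := by
  rw [abs_le]
  cases κ <;> cases κ' <;> simp [kX]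

theorem PR_mul {x y A B : ℤ} (hx : |x| ≤ A) (hy : |y| ≤ B) : |x * y| ≤ A * B := by
  rw [abs_mul]
  exact mul_le_mul hx hy (abs_nonneg _) ((abs_nonneg _).trans hx)

theorem pairs_rel {m r : ℕ} {U : ℕ → ℕ} (g : Gen m r U) {κ1 κ2 κ3 κ4 : Kind}
    {i1 i2 i3 i4 a b a' b' : ℕ} (hi1 : i1 < r) (hi2 : i2 < r) (hi3 : i3 < r) (hi4 : i4 < r)
    (h1 : ln m U κ1 i1 a b) (h2 : ln m U κ2 i2 a b) (h3 : ln m U κ3 i3 a' b')
    (h4 : ln m U κ4 i4 a' b') (hl : lab m a b = lab m a' b') :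
    (∀ k, (kX κ3 - kX κ4) * ((if i1 = k then kY κ1 else 0) - (if i2 = k then kY κ2 else 0)) =
      (kX κ1 - kX κ2) * ((if i3 = k then kY κ3 else 0) - (if i4 = k then kY κ4 else 0))) ∧
    (kX κ3 - kX κ4) * (kX κ1 * (i1 : ℤ) - kX κ2 * (i2 : ℤ)) =
      (kX κ1 - kX κ2) * (kX κ3 * (i3 : ℤ) - kX κ4 * (i4 : ℤ)) := by
  have e1 := PR_line h1
  have e2 := PR_line h2
  have e3 := PR_line h3
  have e4 := PR_line h4
  rw [← hl] at e3 e4
  have hi : ∀ {i : ℕ}, i < r → |(i : ℤ)| ≤ (r : ℤ) := by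
    intro i hi
    rw [abs_of_nonneg (by positivity)]
    exact_mod_cast hi.le
  have hr : (0 : ℤ) ≤ (r : ℤ) := by positivity
  have key := gen_mod g ![-((kX κ3 - kX κ4) * kY κ1), (kX κ3 - kX κ4) * kY κ2,
    (kX κ1 - kX κ2) * kY κ3, -((kX κ1 - kX κ2) * kY κ4)] ![i1, i2, i3, i4]
    (2 * ((kX κ3 - kX κ4) * (kX κ1 * (i1 : ℤ) - kX κ2 * (i2 : ℤ)) -
      (kX κ1 - kX κ2) * (kX κ3 * (i3 : ℤ) - kX κ4 * (i4 : ℤ)))) ?_ ?_ ?_ ?_
  · constructor
    · intro k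
      have h5 : (if i1 = k then -((kX κ3 - kX κ4) * kY κ1) else 0) +
          (if i2 = k then (kX κ3 - kX κ4) * kY κ2 else 0) +
          (if i3 = k then (kX κ1 - kX κ2) * kY κ3 else 0) +
          (if i4 = k then -((kX κ1 - kX κ2) * kY κ4) else 0) = 0 := by
        have h6 := key.1 k
        rw [Fin.sum_univ_four] at h6
        exact h6
      split_ifs at h5 ⊢ <;> linear_combination -h5
    · have h5 := key.2
      linarith
  · intro l
    fin_cases l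
    · exact hi1
    · exact hi2
    · exact hi3
    · exact hi4
  · intro l
    fin_cases l
    · show |-((kX κ3 - kX κ4) * kY κ1)| ≤ 1000
      rw [abs_neg]
      have := PR_mul (PR_XX κ3 κ4) (PR_Y κ1)
      linarith
    · show |(kX κ3 - kX κ4) * kY κ2| ≤ 1000
      have := PR_mul (PR_XX κ3 κ4) (PR_Y κ2)
      linarith
    · show |(kX κ1 - kX κ2) * kY κ3| ≤ 1000
      have := PR_mul (PR_XX κ1 κ2) (PR_Y κ3)
      linarith
    · show |-((kX κ1 - kX κ2) * kY κ4)| ≤ 1000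
      rw [abs_neg]
      have := PR_mul (PR_XX κ1 κ2) (PR_Y κ4)
      linarith
  · have f1 := PR_mul (PR_X κ1) (hi hi1)
    have f2 := PR_mul (PR_X κ2) (hi hi2)
    have f3 := PR_mul (PR_X κ3) (hi hi3)
    have f4 := PR_mul (PR_X κ4) (hi hi4)
    have g1 : |kX κ1 * (i1 : ℤ) - kX κ2 * (i2 : ℤ)| ≤ 36 * r := by
      have := abs_sub (kX κ1 * (i1 : ℤ)) (kX κ2 * (i2 : ℤ))
      linarith
    have g2 : |kX κ3 * (i3 : ℤ) - kX κ4 * (i4 : ℤ)| ≤ 36 * r := by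
      have := abs_sub (kX κ3 * (i3 : ℤ)) (kX κ4 * (i4 : ℤ))
      linarith
    have k1 := PR_mul (PR_XX κ3 κ4) g1
    have k2 := PR_mul (PR_XX κ1 κ2) g2
    have k3 := abs_sub ((kX κ3 - kX κ4) * (kX κ1 * (i1 : ℤ) - kX κ2 * (i2 : ℤ)))
      ((kX κ1 - kX κ2) * (kX κ3 * (i3 : ℤ) - kX κ4 * (i4 : ℤ)))
    rw [abs_mul 2, show |(2:ℤ)| = 2 from rfl]
    linarith
  · simp only [Fin.sum_univ_four, Matrix.cons_val_zero, Matrix.cons_val_one, Matrix.cons_val]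
    push_cast
    have t1 : ((kX κ1 : ℤ) : ZMod m) * (lab m a b + 2 * (i1 : ZMod m)) -
        ((kY κ1 : ℤ) : ZMod m) * (U i1 : ZMod m) = ((kX κ2 : ℤ) : ZMod m) * (lab m a b + 2 * (i2 : ZMod m)) -
        ((kY κ2 : ℤ) : ZMod m) * (U i2 : ZMod m) := e1.symm.trans e2
    have t2 : ((kX κ3 : ℤ) : ZMod m) * (lab m a b + 2 * (i3 : ZMod m)) -
        ((kY κ3 : ℤ) : ZMod m) * (U i3 : ZMod m) = ((kX κ4 : ℤ) : ZMod m) * (lab m a b + 2 * (i4 : ZMod m)) -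
        ((kY κ4 : ℤ) : ZMod m) * (U i4 : ZMod m) := e3.symm.trans e4
    linear_combination (((kX κ3 : ℤ) : ZMod m) - ((kX κ4 : ℤ) : ZMod m)) * t1 -
      (((kX κ1 : ℤ) : ZMod m) - ((kX κ2 : ℤ) : ZMod m)) * t2

end H54.Q.D

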