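import Mathlib
import Pool.Agent.H54.Q.D.Tab
import Pool.Agent.H54.Q.D.PR

set_option autoImplicit false

namespace H54.Q.D


/-- the list of the kinds -/
def PP_all : List Kind := [.rw, .cl, .w, .dr, .ar, .dc, .ac]

theorem PP_mem (κ : Kind) : κ ∈ PP_all := by
  cases κ <;> decide

/-- the first relation for one value of the index -/
def PP_h (κ1 κ2 κ3 κ4 : Kind) (a b c d : Bool) : Bool :=
  decide ((kX κ3 - kX κ4) * ((if a = true then kY κ1 else 0) - (if b = true then kY κ2 else 0)) =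
    (kX κ1 - kX κ2) * ((if c = true then kY κ3 else 0) - (if d = true then kY κ4 else 0)))

/-- compatibility of the equalities of three indices -/
def PP_t (a b c : Bool) : Bool :=
  !((a && b && !c) || (a && c && !b) || (b && c && !a))

/-- membership in the P kinds -/
def PP_P (κ : Kind) : Bool := decide (κ = .w ∨ κ = .dr ∨ κ = .ar)

/-- membership in the Q kinds -/
def PP_Q (κ : Kind) : Bool := decide (κ = .w ∨ κ = .dc ∨ κ = .ac)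

/-- the finite conclusion -/
def PP_c (κ1 κ2 κ3 κ4 : Kind) (e12 e13 e14 e23 e24 e34 : Bool) : Bool :=
  (decide (κ1 = κ3) && decide (κ2 = κ4) && e13 && e24) ||
  (decide (κ1 = .rw) && decide (κ2 = .cl) && decide (κ3 = .rw) && decide (κ4 = .cl)) ||
  (e24 && PP_P κ2 && PP_P κ4 && (decide (κ1 = .rw) || (e12 && decide (κ1 = .w ∨ κ1 = .dr))) &&
    (decide (κ3 = .rw) || (e34 && decide (κ3 = .w ∨ κ3 = .dr)))) ||
  (e24 && PP_Q κ2 && PP_Q κ4 && (decide (κ1 = .cl) || (e12 && decide (κ1 = .w ∨ κ1 = .dc))) &&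
    (decide (κ3 = .cl) || (e34 && decide (κ3 = .w ∨ κ3 = .dc)))) ||
  (e12 && e34 && e13 && decide (κ1 = .ar ∧ κ2 = .ac ∧ κ3 = .rw ∧ κ4 = .dc)) ||
  (e12 && e34 && e13 && decide (κ1 = .rw ∧ κ2 = .dc ∧ κ3 = .ar ∧ κ4 = .ac)) ||
  (decide (κ1 = κ3) && decide (κ2 = κ4) && e24 && decide (κ1 = .rw ∨ κ1 = .cl)) ||
  (e14 && e23 && decide (κ1 = .w ∧ κ2 = .dc ∧ κ3 = .w ∧ κ4 = .dc)) ||
  (e23 && e34 && decide (κ1 = .rw ∧ κ2 = .dc ∧ κ3 = .ar ∧ κ4 = .ac)) ||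
  (e12 && e14 && decide (κ1 = .ar ∧ κ2 = .ac ∧ κ3 = .rw ∧ κ4 = .dc))

/-- the hypothesis of the finite check -/
def PP_hyp (κ1 κ2 κ3 κ4 : Kind) (e12 e13 e14 e23 e24 e34 : Bool) : Bool :=
  decide (rk κ1 < rk κ2) && decide (rk κ3 < rk κ4) &&
  PP_t e12 e13 e23 && PP_t e12 e14 e24 && PP_t e13 e14 e34 && PP_t e23 e24 e34 &&
  PP_h κ1 κ2 κ3 κ4 true e12 e13 e14 && PP_h κ1 κ2 κ3 κ4 e12 true e23 e24 &&
  PP_h κ1 κ2 κ3 κ4 e13 e23 true e34 && PP_h κ1 κ2 κ3 κ4 e14 e24 e34 true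

theorem PP_fin : ∀ κ1 ∈ PP_all, ∀ κ2 ∈ PP_all, ∀ κ3 ∈ PP_all, ∀ κ4 ∈ PP_all,
    ∀ e12 e13 e14 e23 e24 e34 : Bool, PP_hyp κ1 κ2 κ3 κ4 e12 e13 e14 e23 e24 e34 = true →
      PP_c κ1 κ2 κ3 κ4 e12 e13 e14 e23 e24 e34 = true := by
  decide +kernel

theorem pairs {m r : ℕ} {U : ℕ → ℕ} (g : Gen m r U) {κ1 κ2 κ3 κ4 : Kind}
    {i1 i2 i3 i4 a b a' b' : ℕ} (hi1 : i1 < r) (hi2 : i2 < r) (hi3 : i3 < r) (hi4 : i4 < r)
    (h1 : ln m U κ1 i1 a b) (h2 : ln m U κ2 i2 a b) (h3 : ln m U κ3 i3 a' b')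
    (h4 : ln m U κ4 i4 a' b') (hr1 : rk κ1 < rk κ2) (hr2 : rk κ3 < rk κ4)
    (hl : lab m a b = lab m a' b') :
    (κ1 = κ3 ∧ κ2 = κ4 ∧ i1 = i3 ∧ i2 = i4) ∨
    (κ1 = .rw ∧ κ2 = .cl ∧ κ3 = .rw ∧ κ4 = .cl) ∨
    (∃ v, Pc κ1 κ2 i1 i2 v ∧ Pc κ3 κ4 i3 i4 v) ∨
    (∃ v, Qc κ1 κ2 i1 i2 v ∧ Qc κ3 κ4 i3 i4 v) ∨
    (i1 = i2 ∧ i3 = i4 ∧ i1 = i3 ∧ Ec κ1 κ2 κ3 κ4) := by
  obtain ⟨hk, hs⟩ := pairs_rel g hi1 hi2 hi3 hi4 h1 h2 h3 h4 hl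
  have t : ∀ x y z : ℕ, PP_t (decide (x = y)) (decide (x = z)) (decide (y = z)) = true := by
    intro x y z
    unfold PP_t
    by_cases p : x = y <;> by_cases q : x = z <;> by_cases s : y = z <;> simp [p, q, s] <;> omega
  have k1 := hk i1
  have k2 := hk i2
  have k3 := hk i3
  have k4 := hk i4
  have hyp : PP_hyp κ1 κ2 κ3 κ4 (decide (i1 = i2)) (decide (i1 = i3)) (decide (i1 = i4))
      (decide (i2 = i3)) (decide (i2 = i4)) (decide (i3 = i4)) = true := by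
    unfold PP_hyp PP_h
    have s12 : (i2 = i1) = (i1 = i2) := propext eq_comm
    have s13 : (i3 = i1) = (i1 = i3) := propext eq_comm
    have s14 : (i4 = i1) = (i1 = i4) := propext eq_comm
    have s23 : (i3 = i2) = (i2 = i3) := propext eq_comm
    have s24 : (i4 = i2) = (i2 = i4) := propext eq_comm
    have s34 : (i4 = i3) = (i3 = i4) := propext eq_comm
    simp only [s12, s13, s14, if_true] at k1
    simp only [s23, s24, if_true] at k2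
    simp only [s34, if_true] at k3
    simp only [if_true] at k4
    simp only [Bool.and_eq_true, decide_eq_true_eq, t, and_true]
    refine ⟨⟨⟨⟨⟨hr1, hr2⟩, ?_⟩, ?_⟩, ?_⟩, ?_⟩
    · simpa using k1
    · simpa using k2
    · simpa using k3
    · simpa using k4
  have hc := PP_fin κ1 (PP_mem κ1) κ2 (PP_mem κ2) κ3 (PP_mem κ3) κ4 (PP_mem κ4) _ _ _ _ _ _ hyp
  unfold PP_c PP_P PP_Q at hc
  simp only [Bool.or_eq_true, Bool.and_eq_true, decide_eq_true_eq] at hc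
  rcases hc with ((((((((hc | hc) | hc) | hc) | hc) | hc) | hc) | hc) | hc) | hc
  · exact Or.inl ⟨hc.1.1.1, hc.1.1.2, hc.1.2, hc.2⟩
  · exact Or.inr (Or.inl ⟨hc.1.1.1, hc.1.1.2, hc.1.2, hc.2⟩)
  · obtain ⟨⟨⟨⟨e24, p2⟩, p4⟩, p1⟩, p3⟩ := hc
    refine Or.inr (Or.inr (Or.inl ⟨i2, ⟨rfl, p2, ?_⟩, ⟨e24.symm, p4, ?_⟩⟩))
    · rcases p1 with p | ⟨p, q⟩
      · exact Or.inl p
      · exact Or.inr ⟨p, q⟩
    · rcases p3 with p | ⟨p, q⟩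
      · exact Or.inl p
      · exact Or.inr ⟨p.trans e24.symm, q⟩
  · obtain ⟨⟨⟨⟨e24, p2⟩, p4⟩, p1⟩, p3⟩ := hc
    refine Or.inr (Or.inr (Or.inr (Or.inl ⟨i2, ⟨rfl, p2, ?_⟩, ⟨e24.symm, p4, ?_⟩⟩)))
    · rcases p1 with p | ⟨p, q⟩
      · exact Or.inl p
      · exact Or.inr ⟨p, q⟩
    · rcases p3 with p | ⟨p, q⟩
      · exact Or.inl p
      · exact Or.inr ⟨p.trans e24.symm, q⟩
  · obtain ⟨⟨⟨e12, e34⟩, e13⟩, hE⟩ := hc
    exact Or.inr (Or.inr (Or.inr (Or.inr ⟨e12, e34, e13, Or.inl hE⟩)))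
  · obtain ⟨⟨⟨e12, e34⟩, e13⟩, hE⟩ := hc
    exact Or.inr (Or.inr (Or.inr (Or.inr ⟨e12, e34, e13, Or.inr hE⟩)))
  · obtain ⟨⟨⟨e1, e2⟩, e24⟩, hE⟩ := hc
    subst e1
    subst e2
    refine Or.inl ⟨rfl, rfl, ?_, e24⟩
    subst e24
    rcases hE with hE | hE
    · subst hE
      cases κ2 <;> simp only [rk, kX] at hr1 hs <;> omega
    · subst hE
      cases κ2 <;> simp only [rk, kX] at hr1 hs <;> omega
  · obtain ⟨⟨e14, e23⟩, rfl, rfl, rfl, rfl⟩ := hc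
    simp only [kX] at hs
    exact Or.inl ⟨rfl, rfl, by omega, by omega⟩
  · obtain ⟨⟨e23, e34⟩, rfl, rfl, rfl, rfl⟩ := hc
    simp only [kX] at hs
    exact Or.inr (Or.inr (Or.inr (Or.inr ⟨by omega, e34, by omega, Or.inr ⟨rfl, rfl, rfl, rfl⟩⟩)))
  · obtain ⟨⟨e12, e14⟩, rfl, rfl, rfl, rfl⟩ := hc
    simp only [kX] at hs
    exact Or.inr (Or.inr (Or.inr (Or.inr ⟨e12, by omega, by omega, Or.inl ⟨rfl, rfl, rfl, rfl⟩⟩)))

end H54.Q.D
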