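import Mathlib
import Pool.Agent.H54.Q.D.Tab
import Pool.Agent.H54.Q.D.CLA
import Pool.Agent.H54.Q.D.CLB
import Pool.Agent.H54.Q.D.GT
import Pool.Agent.H54.Q.D.PP
import Pool.Agent.H54.Q.D.PR
import Pool.Agent.H54.Q.D.SU
import Pool.Agent.H54.Q.D.TA
import Pool.Agent.H54.Q.D.TB

set_option autoImplicit false

namespace H54.Q.D


/-- a pair of lines of rank at least 2 with different indices coincides in its label with no other pair -/
theorem NFA_pair {m r : ℕ} {U : ℕ → ℕ} (g : Gen m r U) {κ1 κ2 κ3 κ4 : Kind}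
    {i j i3 i4 a b a' b' : ℕ} (hi : i < r) (hj : j < r) (hij : i ≠ j) (hi3 : i3 < r) (hi4 : i4 < r)
    (hk : 2 ≤ rk κ1) (hkk : rk κ1 < rk κ2) (h1 : ln m U κ1 i a b) (h2 : ln m U κ2 j a b)
    (h3 : ln m U κ3 i3 a' b') (h4 : ln m U κ4 i4 a' b') (hr2 : rk κ3 < rk κ4)
    (hl : lab m a b = lab m a' b') : κ1 = κ3 ∧ κ2 = κ4 ∧ i = i3 ∧ j = i4 := by
  have hrw : κ1 ≠ .rw := by
    rintro rfl
    simp [rk] at hk
  have hcl : κ1 ≠ .cl := by
    rintro rfl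
    simp [rk] at hk
  rcases pairs g hi hj hi3 hi4 h1 h2 h3 h4 hkk hr2 hl with h | h | ⟨v, h, -⟩ | ⟨v, h, -⟩ | h
  · exact h
  · exact absurd h.1 hrw
  · obtain ⟨hv, -, h5 | ⟨h5, -⟩⟩ := h
    · exact absurd h5 hrw
    · exact absurd (h5.trans hv.symm) hij
  · obtain ⟨hv, -, h5 | ⟨h5, -⟩⟩ := h
    · exact absurd h5 hcl
    · exact absurd (h5.trans hv.symm) hij
  · exact absurd h.1 hij

theorem NF_VVr {m r : ℕ} {U : ℕ → ℕ} (g : Gen m r U) {i j a b : ℕ} {κ1 κ2 : Kind}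
    (hi : i < r) (hj : j < r) (hij : i ≠ j) (ha : a < m) (hb : b < m) (hk : 2 ≤ rk κ1)
    (hkk : rk κ1 < rk κ2) (h1 : ln m U κ1 i a b) (h2 : ln m U κ2 j a b) :
    r ≤ aI m (wU m U) i (lab m a b) ∧ r ≤ bI m (wU m U) i (lab m a b) ∧
    r ≤ aI m (wU m U) j (lab m a b) ∧ r ≤ bI m (wU m U) j (lab m a b) := by
  have hA : ∀ k, k < r → r ≤ aI m (wU m U) k (lab m a b) := by
    intro k hkr
    by_contra hlt
    rw [not_le] at hlt
    have e1 : ln m U .rw (aI m (wU m U) k (lab m a b)) (aI m (wU m U) k (lab m a b))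
        (bI m (wU m U) k (lab m a b)) :=
      (ln_rw_iff (g.lt_m hlt) (aI_lt g.mpos _ _ _)).2 rfl
    have e2 : ln m U .w k (aI m (wU m U) k (lab m a b)) (bI m (wU m U) k (lab m a b)) :=
      ln_w_iff.2 (onW_AB g.cop6 _ _ _)
    have e3 := NFA_pair g hi hj hij hlt hkr hk hkk h1 h2 e1 e2 (by decide)
      (lab_AB g.cop6 _ _ _).symm
    rw [e3.1] at hk
    simp [rk] at hk
  have hB : ∀ k, k < r → r ≤ bI m (wU m U) k (lab m a b) := by
    intro k hkr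
    by_contra hlt
    rw [not_le] at hlt
    have e1 : ln m U .cl (bI m (wU m U) k (lab m a b)) (aI m (wU m U) k (lab m a b))
        (bI m (wU m U) k (lab m a b)) :=
      (ln_cl_iff (g.lt_m hlt) (bI_lt g.mpos _ _ _)).2 rfl
    have e2 : ln m U .w k (aI m (wU m U) k (lab m a b)) (bI m (wU m U) k (lab m a b)) :=
      ln_w_iff.2 (onW_AB g.cop6 _ _ _)
    have e3 := NFA_pair g hi hj hij hlt hkr hk hkk h1 h2 e1 e2 (by decide)
      (lab_AB g.cop6 _ _ _).symm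
    rw [e3.1] at hk
    simp [rk] at hk
  exact ⟨hA i hi, hB i hi, hA j hj, hB j hj⟩

/-- the first index of such a pair is not changed -/
theorem NFA_noSec {m r : ℕ} {U : ℕ → ℕ} (g : Gen m r U) {i j a b : ℕ} {κ1 κ2 : Kind}
    (hi : i < r) (hj : j < r) (hij : i ≠ j) (hk : 2 ≤ rk κ1)
    (hkk : rk κ1 < rk κ2) (h1 : ln m U κ1 i a b) (h2 : ln m U κ2 j a b) (π : ℕ → ℕ) :
    ¬ Sec m r U i (lab m a b) π := by
  rintro (h | h | h)
  · obtain ⟨i', κ3, κ4, σ1, σ2, a', b', hi', hne, -, -, hl, hk3, hk4, h3, h4, -⟩ := h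
    have e := NFA_pair g hi hj hij hi' hi hk hkk h1 h2 h3 h4 hk4 hl.symm
    exact hij e.2.2.2.symm
  · obtain ⟨i', a', b', hi', hne, -, -, hl, h3, h4, -⟩ := h
    have e := NFA_pair g hi hj hij hi hi' hk hkk h1 h2 h3 h4 (by decide) hl.symm
    rw [e.1] at hk
    simp [rk] at hk
  · obtain ⟨i', a', b', hi', hne, -, -, hl, h3, h4, -⟩ := h
    have e := NFA_pair g hi hj hij hi hi' hk hkk h1 h2 h3 h4 (by decide) hl.symm
    rw [e.1] at hk
    simp [rk] at hk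

theorem NF_VV {m r : ℕ} {U : ℕ → ℕ} (g : Gen m r U) {i j a b : ℕ} {κ1 κ2 : Kind} {σ1 σ2 : ℕ}
    (hi : i < r) (hj : j < r) (hij : i ≠ j) (ha : a < m) (hb : b < m) (hk : 2 ≤ rk κ1)
    (hkk : rk κ1 < rk κ2) (h1 : ln m U κ1 i a b) (h2 : ln m U κ2 j a b)
    (hs1 : shOK m U κ1 σ1 i a b) (hs2 : shOK m U κ2 σ2 j a b) :
    (∀ t, nu m r U i (lab m a b) t = t) ∧ (∀ t, xi m r U i (lab m a b) t = rinv t) ∧
    (∀ t, nu m r U j (lab m a b) t = pVV κ1 σ1 κ2 σ2 t) ∧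
    (∀ t, xi m r U j (lab m a b) t = pVV κ1 σ1 κ2 σ2 (rinv t)) := by
  obtain ⟨r1, r2, r3, r4⟩ := NF_VVr g hi hj hij ha hb hk hkk h1 h2
  have p1 : pn m r U i (lab m a b) = id := pn_eq_id (NFA_noSec g hi hj hij hk hkk h1 h2)
  have p2 : pn m r U j (lab m a b) = pVV κ1 σ1 κ2 σ2 :=
    pn_eq_of_Sec g hj (Or.inl ⟨i, κ1, κ2, σ1, σ2, a, b, hi, hij, ha, hb, rfl, hk, hkk, h1, h2,
      hs1, hs2, rfl⟩)
  refine ⟨fun t => ?_, fun t => ?_, fun t => ?_, fun t => ?_⟩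
  · unfold nu
    rw [if_neg (fun h => absurd h.1 (not_lt.2 r2)), p1]
    rfl
  · unfold xi
    rw [if_neg (fun h => absurd h.1 (not_lt.2 r1)), p1]
    rfl
  · unfold nu
    rw [if_neg (fun h => absurd h.1 (not_lt.2 r4)), p2]
  · unfold xi
    rw [if_neg (fun h => absurd h.1 (not_lt.2 r3)), p2]

end H54.Q.D
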