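import Mathlib
import Pool.Agent.H54.Q.D.Tab
import Pool.Agent.H54.Q.D.CLA
import Pool.Agent.H54.Q.D.CLB
import Pool.Agent.H54.Q.D.GT
import Pool.Agent.H54.Q.D.PP
import Pool.Agent.H54.Q.D.PR
import Pool.Agent.H54.Q.D.SU
import Pool.Agent.H54.Q.D.TA
import Pool.Agent.H54.Q.D.TB

set_option autoImplicit false

namespace H54.Q.D


theorem NFB_pn_id {m r : ℕ} {U : ℕ → ℕ} {j : ℕ} {c : ZMod m}
    (hVV : ∀ (i : ℕ) (κ1 κ2 : Kind) (a b : ℕ), i < r → i ≠ j → lab m a b = c → 2 ≤ rk κ1 →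
      rk κ1 < rk κ2 → ln m U κ1 i a b → ln m U κ2 j a b → False)
    (hWR : ∀ (i a b : ℕ), i < r → i ≠ j → lab m a b = c → ln m U .rw j a b →
      ln m U .w i a b → False)
    (hWC : ∀ (i a b : ℕ), i < r → i ≠ j → lab m a b = c → ln m U .cl j a b →
      ln m U .w i a b → False) : pn m r U j c = id := by
  apply pn_eq_id
  intro π hπ
  rcases hπ with h | h | h
  · obtain ⟨i, κ1, κ2, σ1, σ2, a, b, hi, hij, _, _, hl, h2, h12, l1, l2, _⟩ := h
    exact hVV i κ1 κ2 a b hi hij hl h2 h12 l1 l2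
  · obtain ⟨i, a, b, hi, hij, _, _, hl, l1, l2, _⟩ := h
    exact hWR i a b hi hij hl l1 l2
  · obtain ⟨i, a, b, hi, hij, _, _, hl, l1, l2, _⟩ := h
    exact hWC i a b hi hij hl l1 l2

theorem NFB_boardB {m r : ℕ} {U : ℕ → ℕ} (g : Gen m r U) {j : ℕ} {c : ZMod m}
    (hB : bI m (wU m U) j c < r) :
    ln m U .cl (bI m (wU m U) j c) (aI m (wU m U) j c) (bI m (wU m U) j c) ∧
    ln m U .w j (aI m (wU m U) j c) (bI m (wU m U) j c) ∧
    lab m (aI m (wU m U) j c) (bI m (wU m U) j c) = c :=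
  ⟨(ln_cl_iff (g.lt_m hB) (g.lt_m hB)).mpr rfl, ln_w_iff.mpr (onW_AB g.cop6 _ _ _),
    lab_AB g.cop6 _ _ _⟩

theorem NFB_boardA {m r : ℕ} {U : ℕ → ℕ} (g : Gen m r U) {j : ℕ} {c : ZMod m}
    (hA : aI m (wU m U) j c < r) :
    ln m U .rw (aI m (wU m U) j c) (aI m (wU m U) j c) (bI m (wU m U) j c) ∧
    ln m U .w j (aI m (wU m U) j c) (bI m (wU m U) j c) ∧
    lab m (aI m (wU m U) j c) (bI m (wU m U) j c) = c :=
  ⟨(ln_rw_iff (g.lt_m hA) (g.lt_m hA)).mpr rfl, ln_w_iff.mpr (onW_AB g.cop6 _ _ _),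
    lab_AB g.cop6 _ _ _⟩

/-- a row pair `(rw_e, w_i)` and a column pair `(cl_q, w_j)` have different labels -/
theorem NFB_rc {m r : ℕ} {U : ℕ → ℕ} (g : Gen m r U) {e i q j a b a' b' : ℕ} (he : e < r)
    (hi : i < r) (hq : q < r) (hj : j < r) (h1 : ln m U .rw e a b) (h2 : ln m U .w i a b)
    (h3 : ln m U .cl q a' b') (h4 : ln m U .w j a' b') (hl : lab m a b = lab m a' b') : False := by
  rcases pairs g he hi hq hj h1 h2 h3 h4 (by simp [rk]) (by simp [rk]) hl with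
    h | h | h | h | h
  · exact absurd h.1 (by decide)
  · exact absurd h.2.1 (by decide)
  · obtain ⟨v, _, hP⟩ := h
    rcases hP.2.2 with h5 | ⟨_, h5 | h5⟩ <;> exact absurd h5 (by decide)
  · obtain ⟨v, hP, _⟩ := h
    rcases hP.2.2 with h5 | ⟨_, h5 | h5⟩ <;> exact absurd h5 (by decide)
  · rcases h.2.2.2 with h5 | h5
    · exact absurd h5.1 (by decide)
    · exact absurd h5.2.1 (by decide)

/-- no naming change at index `i` if `(rw_e, w_i)` has this label -/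
theorem NFB_idR {m r : ℕ} {U : ℕ → ℕ} (g : Gen m r U) {e i a b : ℕ} (he : e < r) (hi : i < r)
    (hne : e ≠ i) (h1 : ln m U .rw e a b) (h2 : ln m U .w i a b) :
    pn m r U i (lab m a b) = id := by
  apply NFB_pn_id
  · intro k κ1 κ2 a' b' hk hki hl hr2 hr12 l1 l2
    rcases pairs g he hi hk hi h1 h2 l1 l2 (by simp [rk]) hr12 hl.symm with
      h | h | h | h | h
    · rw [← h.1] at hr2
      exact absurd hr2 (by decide)
    · exact absurd h.2.1 (by decide)
    · obtain ⟨v, _, hP⟩ := h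
      rcases hP.2.2 with h5 | ⟨h5, _⟩
      · rw [h5] at hr2
        exact absurd hr2 (by decide)
      · exact hki (h5.trans hP.1.symm)
    · obtain ⟨v, hP, _⟩ := h
      rcases hP.2.2 with h5 | ⟨_, h5 | h5⟩ <;> exact absurd h5 (by decide)
    · exact hne h.1
  · intro k a' b' hk hki hl l1 l2
    rcases pairs g he hi hi hk h1 h2 l1 l2 (by simp [rk]) (by simp [rk]) hl.symm with
      h | h | h | h | h
    · exact hki h.2.2.2.symm
    · exact absurd h.2.1 (by decide)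
    · obtain ⟨v, hP, hP'⟩ := h
      exact hki (hP'.1.trans hP.1.symm)
    · obtain ⟨v, hP, _⟩ := h
      rcases hP.2.2 with h5 | ⟨_, h5 | h5⟩ <;> exact absurd h5 (by decide)
    · exact hne h.1
  · intro k a' b' hk hki hl l1 l2
    exact NFB_rc g he hi hi hk h1 h2 l1 l2 hl.symm

/-- no naming change at index `i` if `(cl_q, w_i)` has this label -/
theorem NFB_idC {m r : ℕ} {U : ℕ → ℕ} (g : Gen m r U) {q i a b : ℕ} (hq : q < r) (hi : i < r)
    (hne : q ≠ i) (h1 : ln m U .cl q a b) (h2 : ln m U .w i a b) :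
    pn m r U i (lab m a b) = id := by
  apply NFB_pn_id
  · intro k κ1 κ2 a' b' hk hki hl hr2 hr12 l1 l2
    rcases pairs g hq hi hk hi h1 h2 l1 l2 (by simp [rk]) hr12 hl.symm with
      h | h | h | h | h
    · rw [← h.1] at hr2
      exact absurd hr2 (by decide)
    · exact absurd h.1 (by decide)
    · obtain ⟨v, hP, _⟩ := h
      rcases hP.2.2 with h5 | ⟨_, h5 | h5⟩ <;> exact absurd h5 (by decide)
    · obtain ⟨v, _, hP⟩ := h
      rcases hP.2.2 with h5 | ⟨h5, _⟩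
      · rw [h5] at hr2
        exact absurd hr2 (by decide)
      · exact hki (h5.trans hP.1.symm)
    · exact hne h.1
  · intro k a' b' hk hki hl l1 l2
    exact NFB_rc g hi hk hq hi l1 l2 h1 h2 hl
  · intro k a' b' hk hki hl l1 l2
    rcases pairs g hq hi hi hk h1 h2 l1 l2 (by simp [rk]) (by simp [rk]) hl.symm with
      h | h | h | h | h
    · exact hki h.2.2.2.symm
    · exact absurd h.1 (by decide)
    · obtain ⟨v, hP, _⟩ := h
      rcases hP.2.2 with h5 | ⟨_, h5 | h5⟩ <;> exact absurd h5 (by decide)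
    · obtain ⟨v, hP, hP'⟩ := h
      exact hki (hP'.1.trans hP.1.symm)
    · exact hne h.1

theorem NF_WR {m r : ℕ} {U : ℕ → ℕ} (g : Gen m r U) {e i a b : ℕ} (he : e < r) (hi : i < r)
    (hne : e ≠ i) (ha : a < m) (hb : b < m) (h1 : ln m U .rw e a b) (h2 : ln m U .w i a b) :
    (∀ t, nu m r U e (lab m a b) t = pWR t) ∧ (∀ t, nu m r U i (lab m a b) t = t) ∧
    (∀ t, xi m r U i (lab m a b) t = xWR t) ∧ r ≤ b := by
  have hae : a = e := (ln_rw_iff (g.lt_m he) ha).mp h1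
  have hW : onW m (wU m U) i a b := ln_w_iff.mp h2
  have hrb : r ≤ b := by
    by_contra hcon
    push Not at hcon
    exact small_not_W g hi (hae ▸ he : a < r) hcon hW
  have hbI : bI m (wU m U) i (lab m a b) = b := onW_b g.cop6 _ hb hW
  have haI : aI m (wU m U) i (lab m a b) = a := onW_a g.cop6 _ ha hW
  refine ⟨?_, ?_, ?_, hrb⟩
  · intro t
    have hno : ¬ (bI m (wU m U) e (lab m a b) < r ∧ bI m (wU m U) e (lab m a b) ≠ e) := by
      rintro ⟨hB, _⟩
      obtain ⟨l1, l2, l3⟩ := NFB_boardB g hB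
      exact NFB_rc g he hi hB he h1 h2 l1 l2 l3.symm
    unfold nu
    rw [if_neg hno]
    have hS : Sec m r U e (lab m a b) pWR :=
      Or.inr (Or.inl ⟨i, a, b, hi, hne.symm, ha, hb, rfl, h1, h2, rfl⟩)
    rw [pn_eq_of_Sec g he hS]
  · intro t
    unfold nu
    rw [hbI, if_neg (by rintro ⟨hB, _⟩; exact absurd hB (not_lt.mpr hrb)),
      NFB_idR g he hi hne h1 h2]
    rfl
  · intro t
    unfold xi
    rw [haI, if_pos ⟨hae ▸ he, hae ▸ hne⟩]

theorem NF_WC {m r : ℕ} {U : ℕ → ℕ} (g : Gen m r U) {q i a b : ℕ} (hq : q < r) (hi : i < r)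
    (hne : q ≠ i) (ha : a < m) (hb : b < m) (h1 : ln m U .cl q a b) (h2 : ln m U .w i a b) :
    (∀ t, xi m r U q (lab m a b) t = pWC (rinv t)) ∧ (∀ t, nu m r U i (lab m a b) t = nWC t) ∧
    (∀ t, xi m r U i (lab m a b) t = rinv t) ∧ r ≤ a := by
  have hbq : b = q := (ln_cl_iff (g.lt_m hq) hb).mp h1
  have hW : onW m (wU m U) i a b := ln_w_iff.mp h2
  have hra : r ≤ a := by
    by_contra hcon
    push Not at hcon
    exact small_not_W g hi hcon (hbq ▸ hq : b < r) hW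
  have hbI : bI m (wU m U) i (lab m a b) = b := onW_b g.cop6 _ hb hW
  have haI : aI m (wU m U) i (lab m a b) = a := onW_a g.cop6 _ ha hW
  refine ⟨?_, ?_, ?_, hra⟩
  · intro t
    have hno : ¬ (aI m (wU m U) q (lab m a b) < r ∧ aI m (wU m U) q (lab m a b) ≠ q) := by
      rintro ⟨hA, _⟩
      obtain ⟨l1, l2, l3⟩ := NFB_boardA g hA
      exact NFB_rc g hA hq hq hi l1 l2 h1 h2 l3
    unfold xi
    rw [if_neg hno]
    have hS : Sec m r U q (lab m a b) pWC :=
      Or.inr (Or.inr ⟨i, a, b, hi, hne.symm, ha, hb, rfl, h1, h2, rfl⟩)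
    rw [pn_eq_of_Sec g hq hS]
  · intro t
    unfold nu
    rw [hbI, if_pos ⟨hbq ▸ hq, hbq ▸ hne⟩]
  · intro t
    unfold xi
    rw [haI, if_neg (by rintro ⟨hA, _⟩; exact absurd hA (not_lt.mpr hra)),
      NFB_idC g hq hi hne h1 h2]
    rfl

end H54.Q.D
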