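import Mathlib
import Pool.Agent.H54.Q.D.Tab
import Pool.Agent.H54.Q.D.CLA
import Pool.Agent.H54.Q.D.CLB
import Pool.Agent.H54.Q.D.GT
import Pool.Agent.H54.Q.D.NFA
import Pool.Agent.H54.Q.D.NFB
import Pool.Agent.H54.Q.D.NFE
import Pool.Agent.H54.Q.D.SC
import Pool.Agent.H54.Q.D.SE
import Pool.Agent.H54.Q.D.TA
import Pool.Agent.H54.Q.D.TB

set_option autoImplicit false

namespace H54.Q.D


theorem GB_kk_big {r b t : ℕ} (h : r ≤ b) : kk r b t = t := by
  unfold kk; rw [if_neg (by omega)]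

theorem GB_kk_small {r b t : ℕ} (h : b < r) : kk r b t = kap t := by
  unfold kk; rw [if_pos h]

theorem GB_Jdr {σ t : ℕ} (h : σ < 2) : J .dr σ t = (R t : ℤ) - t - σ := by
  show (if σ = 2 then (R t : ℤ) - kap t else (R t : ℤ) - t - σ) = _
  rw [if_neg (by omega)]

theorem GB_Jar {σ t : ℕ} (h : σ < 2) : J .ar σ t = (R t : ℤ) + t - σ := by
  show (if σ = 2 then (R t : ℤ) + kap t - 1 else (R t : ℤ) + t - σ) = _
  rw [if_neg (by omega)]

theorem GB_Jdc {σ t : ℕ} (h : σ < 2) : J .dc σ t = (t : ℤ) - R t + σ := by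
  show (if σ = 2 then (kap t : ℤ) - R t else (t : ℤ) - R t + σ) = _
  rw [if_neg (by omega)]

theorem GB_Jac {σ t : ℕ} (h : σ < 2) : J .ac σ t = (t : ℤ) + R t - σ := by
  show (if σ = 2 then (kap t : ℤ) + R t - 1 else (t : ℤ) + R t - σ) = _
  rw [if_neg (by omega)]

/-- the shift `s` is determined -/
theorem GB_s {m : ℕ} (hm : 0 < m) {s e : ℤ} (h : s * m = e * m) : s = e := by
  have hm' : (m : ℤ) ≠ 0 := by exact_mod_cast hm.ne'
  exact mul_right_cancel₀ hm' h

theorem GB_diff {m r : ℕ} {U : ℕ → ℕ} (g : Gen m r U) {i j t t' : ℕ} (c : ZMod m) (hi : i < r)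
    (hj : j < r) (ht : t < 12) (ht' : t' < 12)
    (hn : nu m r U i c t = xi m r U j c t') (s : ℤ)
    (hs : ((aI m (wU m U) j c : ℤ) - j) - ((i : ℤ) - bI m (wU m U) i c) = s * m)
    (he : (R t : ℤ) - kk r (bI m (wU m U) i c) t = (kk r (aI m (wU m U) j c) t' : ℤ) - R t' + s) :
    False := by
  have hm := g.mpos
  have h6 := g.cop6
  obtain ⟨a, b, ha, hb, hlab, hd⟩ := exists_diff hm h6 c ((i : ZMod m) - (bI m (wU m U) i c : ZMod m))
  -- the line dr_i
  have h1 : ln m U .dr i a b := by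
    rw [ln_D_iff h6 (by unfold isD; trivial)]
    have h2 : (((a : ℤ) - b : ℤ) : ZMod m) = (((i : ℤ) - bI m (wU m U) i c : ℤ) : ZMod m) := by
      push_cast; exact hd
    rw [ZMod.intCast_eq_intCast_iff_dvd_sub] at h2
    obtain ⟨k, hk⟩ := h2
    refine ⟨k, ?_⟩
    rw [hlab]
    show (i : ℤ) - bI m (wU m U) i c - ((a : ℤ) - b) = k * m
    rw [hk]; ring
  have h2 : ln m U .dc j a b := by
    rw [ln_D_iff h6 (by unfold isD; trivial)] at h1 ⊢
    obtain ⟨k, hk⟩ := h1
    refine ⟨k + s, ?_⟩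
    rw [hlab] at hk ⊢
    have hk' : (i : ℤ) - bI m (wU m U) i c - ((a : ℤ) - b) = k * m := hk
    show (aI m (wU m U) j c : ℤ) - j - ((a : ℤ) - b) = (k + s) * m
    rw [add_mul, ← hs, ← hk']; ring
  by_cases hij : i = j
  · subst hij
    obtain ⟨n1, n2, n3, n4⟩ := NF_link g hi ha hb (Or.inl rfl) (Or.inl rfl) h1 h2
    obtain ⟨s1, s2⟩ := sh_link g hi ha hb (Or.inl rfl) (Or.inl rfl) h1 h2
    rw [hlab] at n1 n2 n3 n4 s1 s2
    rw [if_neg (by simp)] at s1
    rw [if_pos (by simp)] at s2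
    have s1' : (i : ℤ) - bI m (wU m U) i c - ((a : ℤ) - b) = 0 := s1
    have s2' : (aI m (wU m U) i c : ℤ) - i - ((a : ℤ) - b) = (m : ℤ) := s2
    have hs1 : s = 1 := GB_s hm (by rw [← hs, one_mul]; linarith)
    rw [n1, n2] at hn
    rw [GB_kk_big n4, GB_kk_big n3, hs1] at he
    have ht2 : rho t = t' := by rw [hn]; exact rho_rinv t' ht'
    have := link_dc t ht
    apply this
    rw [ht2]
    rw [GB_Jdr (by norm_num), GB_Jdc (by norm_num)]
    push_cast
    linarith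
  · have hra : r ≤ a := by
      by_contra hlt
      push Not at hlt
      have h3 : ln m U .rw a a b := (ln_rw_iff ha ha).mpr rfl
      exact hij (three g hi hj hlt h1 h2 h3 (by decide) (by decide) (by decide)).1
    obtain ⟨v1, v2, v3, v4⟩ := NF_VVr g hi hj hij ha hb (by decide) (by decide) h1 h2
    obtain ⟨σ1, hσ1, e1⟩ := sh_reg g hi ha hb (κ := .dr) (by unfold isD; trivial) h1 (fun _ => v2)
      (fun _ => v1) (Or.inl hra)
    obtain ⟨σ2, hσ2, e2⟩ := sh_reg g hj ha hb (κ := .dc) (by unfold isD; trivial) h2 (fun _ => v4)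
      (fun _ => v3) (Or.inl hra)
    have b1 : (r : ℤ) ≤ bI m (wU m U) i (lab m a b) := by exact_mod_cast v2
    have b2 : (r : ℤ) ≤ aI m (wU m U) j (lab m a b) := by exact_mod_cast v3
    have ha' : (a : ℤ) < m := by exact_mod_cast ha
    have hb' : (b : ℤ) < m := by exact_mod_cast hb
    have hi' : (i : ℤ) < r := by exact_mod_cast hi
    have hj' : (j : ℤ) < r := by exact_mod_cast hj
    have hm' : (0 : ℤ) < m := by exact_mod_cast hm
    have p1 : 0 ≤ σ1 := by
      have e : (i : ℤ) - bI m (wU m U) i (lab m a b) - ((a : ℤ) - b) = -1 * σ1 * m := e1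
      by_contra hneg
      push Not at hneg
      have : -1 * σ1 * (m : ℤ) ≥ m := by nlinarith
      omega
    have p2 : 0 ≤ σ2 := by
      have e : (aI m (wU m U) j (lab m a b) : ℤ) - j - ((a : ℤ) - b) = 1 * σ2 * m := e2
      by_contra hneg
      push Not at hneg
      have : 1 * σ2 * (m : ℤ) ≤ -m := by nlinarith
      omega
    lift σ1 to ℕ using p1
    lift σ2 to ℕ using p2
    have hσ1 : σ1 < 2 := by exact_mod_cast hσ1
    have hσ2 : σ2 < 2 := by exact_mod_cast hσ2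
    have k1 : shOK m U .dr σ1 i a b := Or.inr ⟨by unfold isD; trivial, hσ1, e1⟩
    have k2 : shOK m U .dc σ2 j a b := Or.inr ⟨by unfold isD; trivial, hσ2, e2⟩
    have hsum := sh_drdc g hi hj ha hb k1 k2 v2 v3
    obtain ⟨n1, _, _, n4⟩ := NF_VV g hi hj hij ha hb (by decide) (by decide) h1 h2 k1 k2
    rw [hlab] at v1 v2 v3 v4 e1 e2 n1 n4
    have e1' : (i : ℤ) - bI m (wU m U) i c - ((a : ℤ) - b) = -1 * σ1 * m := e1
    have e2' : (aI m (wU m U) j c : ℤ) - j - ((a : ℤ) - b) = 1 * σ2 * m := e2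
    have hs1 : s = 1 := GB_s hm (by
      have : ((σ1 : ℤ) + σ2) = 1 := by exact_mod_cast hsum
      rw [← hs]
      have h3 : ((aI m (wU m U) j c : ℤ) - j) - ((i : ℤ) - bI m (wU m U) i c) =
        ((σ1 : ℤ) + σ2) * m := by rw [add_mul]; linarith
      rw [h3, this])
    rw [n1, n4] at hn
    rw [GB_kk_big v2, GB_kk_big v3, hs1] at he
    have hp : pVV .dr σ1 .dc σ2 (rinv t') = MIt .dr σ1 (Mt .dc σ2 t') := by
      unfold pVV
      rw [if_neg (by unfold isFk; exact id)]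
      unfold M2
      rw [if_neg (by decide), rho_rinv t' ht']
      rfl
    rw [hp] at hn
    have hM : Mt .dr σ1 t = Mt .dc σ2 t' := by
      rw [hn]
      exact (Mt_MIt σ1 (by omega) _ (Mt_lt σ2 (by omega) t' ht').2.2.1).1
    have hcase : (σ1 = 0 ∧ σ2 = 1) ∨ (σ1 = 1 ∧ σ2 = 0) := by omega
    rcases hcase with ⟨q1, q2⟩ | ⟨q1, q2⟩
    · subst q1; subst q2
      apply drdc_compat0 t ht t' ht' hM
      rw [GB_Jdr (by norm_num), GB_Jdc (by norm_num)]
      push_cast
      linarith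
    · subst q1; subst q2
      apply drdc_compat1 t ht t' ht' hM
      rw [GB_Jdr (by norm_num), GB_Jdc (by norm_num)]
      push_cast
      linarith

theorem GB_sum {m r : ℕ} {U : ℕ → ℕ} (g : Gen m r U) {i j t t' : ℕ} (c : ZMod m) (hi : i < r)
    (hj : j < r) (ht : t < 12) (ht' : t' < 12)
    (hn : nu m r U i c t = xi m r U j c t') (s : ℤ)
    (hs : ((aI m (wU m U) j c : ℤ) + j) - ((i : ℤ) + bI m (wU m U) i c) = s * m)
    (he : (R t : ℤ) + kk r (bI m (wU m U) i c) t = (kk r (aI m (wU m U) j c) t' : ℤ) + R t' + s) :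
    False := by
  have hm := g.mpos
  have h6 := g.cop6
  obtain ⟨a, b, ha, hb, hlab, hd⟩ := exists_sum hm h6 c ((i : ZMod m) + (bI m (wU m U) i c : ZMod m))
  have h1 : ln m U .ar i a b := by
    rw [ln_D_iff h6 (by unfold isD; trivial)]
    have h2 : (((a : ℤ) + b : ℤ) : ZMod m) = (((i : ℤ) + bI m (wU m U) i c : ℤ) : ZMod m) := by
      push_cast; exact hd
    rw [ZMod.intCast_eq_intCast_iff_dvd_sub] at h2
    obtain ⟨k, hk⟩ := h2
    refine ⟨k, ?_⟩
    rw [hlab]
    show (i : ℤ) + bI m (wU m U) i c - ((a : ℤ) + b) = k * m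
    rw [hk]; ring
  have h2 : ln m U .ac j a b := by
    rw [ln_D_iff h6 (by unfold isD; trivial)] at h1 ⊢
    obtain ⟨k, hk⟩ := h1
    refine ⟨k + s, ?_⟩
    rw [hlab] at hk ⊢
    have hk' : (i : ℤ) + bI m (wU m U) i c - ((a : ℤ) + b) = k * m := hk
    show (aI m (wU m U) j c : ℤ) + j - ((a : ℤ) + b) = (k + s) * m
    rw [add_mul, ← hs, ← hk']; ring
  by_cases hij : i = j
  · subst hij
    obtain ⟨n1, n2, n3, n4⟩ := NF_link g hi ha hb (Or.inr rfl) (Or.inr rfl) h1 h2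
    obtain ⟨s1, s2⟩ := sh_link g hi ha hb (Or.inr rfl) (Or.inr rfl) h1 h2
    rw [hlab] at n1 n2 n3 n4 s1 s2
    rw [if_neg (by simp)] at s1
    rw [if_neg (by simp)] at s2
    have s1' : (i : ℤ) + bI m (wU m U) i c - ((a : ℤ) + b) = 0 := s1
    have s2' : (aI m (wU m U) i c : ℤ) + i - ((a : ℤ) + b) = 0 := s2
    have hs1 : s = 0 := GB_s hm (by rw [← hs, zero_mul]; linarith)
    rw [n1, n2] at hn
    rw [GB_kk_big n4, GB_kk_big n3, hs1] at he
    have ht2 : rho t = t' := by rw [hn]; exact rho_rinv t' ht'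
    have := link_ac t ht
    apply this
    rw [ht2]
    rw [GB_Jar (by norm_num), GB_Jac (by norm_num)]
    push_cast
    linarith
  · have hra : r ≤ a := by
      by_contra hlt
      push Not at hlt
      have h3 : ln m U .rw a a b := (ln_rw_iff ha ha).mpr rfl
      exact hij (three g hi hj hlt h1 h2 h3 (by decide) (by decide) (by decide)).1
    obtain ⟨v1, v2, v3, v4⟩ := NF_VVr g hi hj hij ha hb (by decide) (by decide) h1 h2
    obtain ⟨σ1, hσ1, e1⟩ := sh_reg g hi ha hb (κ := .ar) (by unfold isD; trivial) h1 (fun _ => v2)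
      (fun _ => v1) (Or.inl hra)
    obtain ⟨σ2, hσ2, e2⟩ := sh_reg g hj ha hb (κ := .ac) (by unfold isD; trivial) h2 (fun _ => v4)
      (fun _ => v3) (Or.inl hra)
    have hra' : (r : ℤ) ≤ a := by exact_mod_cast hra
    have hB' : (bI m (wU m U) i (lab m a b) : ℤ) < m := by exact_mod_cast bI_lt hm _ _ _
    have hA' : (aI m (wU m U) j (lab m a b) : ℤ) < m := by exact_mod_cast aI_lt hm _ _ _
    have hi' : (i : ℤ) < r := by exact_mod_cast hi
    have hj' : (j : ℤ) < r := by exact_mod_cast hj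
    have hm' : (0 : ℤ) < m := by exact_mod_cast hm
    have p1 : 0 ≤ σ1 := by
      have e : (i : ℤ) + bI m (wU m U) i (lab m a b) - ((a : ℤ) + b) = -1 * σ1 * m := e1
      by_contra hneg
      push Not at hneg
      have : -1 * σ1 * (m : ℤ) ≥ m := by nlinarith
      omega
    have p2 : 0 ≤ σ2 := by
      have e : (aI m (wU m U) j (lab m a b) : ℤ) + j - ((a : ℤ) + b) = -1 * σ2 * m := e2
      by_contra hneg
      push Not at hneg
      have : -1 * σ2 * (m : ℤ) ≥ m := by nlinarith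
      omega
    lift σ1 to ℕ using p1
    lift σ2 to ℕ using p2
    have hσ1 : σ1 < 2 := by exact_mod_cast hσ1
    have hσ2 : σ2 < 2 := by exact_mod_cast hσ2
    have k1 : shOK m U .ar σ1 i a b := Or.inr ⟨by unfold isD; trivial, hσ1, e1⟩
    have k2 : shOK m U .ac σ2 j a b := Or.inr ⟨by unfold isD; trivial, hσ2, e2⟩
    have hsum := sh_arac g hi hj ha hb k1 k2 v2 v3
    obtain ⟨n1, _, _, n4⟩ := NF_VV g hi hj hij ha hb (by decide) (by decide) h1 h2 k1 k2
    rw [hlab] at v1 v2 v3 v4 e1 e2 n1 n4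
    subst hsum
    have e1' : (i : ℤ) + bI m (wU m U) i c - ((a : ℤ) + b) = -1 * σ1 * m := e1
    have e2' : (aI m (wU m U) j c : ℤ) + j - ((a : ℤ) + b) = -1 * σ1 * m := e2
    have hs1 : s = 0 := GB_s hm (by rw [← hs, zero_mul]; linarith)
    rw [n1, n4] at hn
    rw [GB_kk_big v2, GB_kk_big v3, hs1] at he
    have hp : pVV .ar σ1 .ac σ1 (rinv t') = MIt .ar σ1 (Mt .ac σ1 t') := by
      unfold pVV
      rw [if_neg (by unfold isFk; exact id)]
      unfold M2
      rw [if_neg (by decide), rho_rinv t' ht']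
      rfl
    rw [hp] at hn
    have hM : Mt .ar σ1 t = Mt .ac σ1 t' := by
      rw [hn]
      exact (Mt_MIt σ1 (by omega) _ (Mt_lt σ1 (by omega) t' ht').2.2.2).2.1
    apply arac_compat σ1 hσ1 t ht t' ht' hM
    rw [GB_Jar hσ1, GB_Jac hσ1]
    linarith

theorem gFG {m r : ℕ} {U : ℕ → ℕ} (g : Gen m r U) {i j t t' : ℕ} (c : ZMod m) (hi : i < r)
    (hj : j < r) (ht : t < 12) (ht' : t' < 12)
    (hwi : ¬ onW m (wU m U) i i (bI m (wU m U) i c))
    (hwj : ¬ onW m (wU m U) j (aI m (wU m U) j c) j)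
    (hn : nu m r U i c t = xi m r U j c t') :
    ¬ Att (m * R t + i) (m * kk r (bI m (wU m U) i c) t + bI m (wU m U) i c)
      (m * kk r (aI m (wU m U) j c) t' + aI m (wU m U) j c) (m * R t' + j) := by
  intro hatt
  have hm := g.mpos
  have h6 := g.cop6
  have him := g.lt_m hi
  have hjm := g.lt_m hj
  rcases att_split him (bI_lt hm (wU m U) i c) (aI_lt hm (wU m U) j c) hjm hatt with
    ⟨h1, h2⟩ | ⟨h1, h2⟩ | ⟨s, h1, h2⟩ | ⟨s, h1, h2⟩
  · -- rows
    by_cases hij : i = j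
    · subst hij
      have h3 := onW_AB h6 (wU m U) i c
      rw [← h1] at h3
      exact hwi h3
    · have hl1 : ln m U .rw i (aI m (wU m U) j c) (bI m (wU m U) j c) :=
        (ln_rw_iff him (aI_lt hm _ _ _)).mpr h1.symm
      have hl2 : ln m U .w j (aI m (wU m U) j c) (bI m (wU m U) j c) :=
        ln_w_iff.mpr (onW_AB h6 (wU m U) j c)
      obtain ⟨n1, _, n3, _⟩ := NF_WR g hi hj hij (aI_lt hm (wU m U) j c) (bI_lt hm (wU m U) j c)
        hl1 hl2
      rw [lab_AB h6] at n1 n3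
      rw [n1, n3] at hn
      apply WR_compat t ht t' ht' hn
      rw [h2, ← h1, GB_kk_small hi]
  · by_cases hij : i = j
    · subst hij
      have h3 := onW_AB h6 (wU m U) i c
      rw [h1] at h3
      exact hwj h3
    · have hl1 : ln m U .cl j (aI m (wU m U) i c) (bI m (wU m U) i c) :=
        (ln_cl_iff hjm (bI_lt hm _ _ _)).mpr h1
      have hl2 : ln m U .w i (aI m (wU m U) i c) (bI m (wU m U) i c) :=
        ln_w_iff.mpr (onW_AB h6 (wU m U) i c)
      obtain ⟨n1, n2, _, _⟩ := NF_WC g hj hi (Ne.symm hij) (aI_lt hm (wU m U) i c)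
        (bI_lt hm (wU m U) i c) hl1 hl2
      rw [lab_AB h6] at n1 n2
      rw [n1, n2] at hn
      apply WC_compat t ht t' ht' hn
      rw [← h2, h1, GB_kk_small hj]
  · exact GB_diff g c hi hj ht ht' hn s h1 h2
  · exact GB_sum g c hi hj ht ht' hn s h1 h2

end H54.Q.D
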