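import Mathlib
import Pool.Agent.H54.Q.D.Tab
import Pool.Agent.H54.Q.D.GT
import Pool.Agent.H54.Q.D.TA
import Pool.Agent.H54.Q.D.TB

set_option autoImplicit false

namespace H54.Q.D


theorem SD_zero {m s t : ℤ} (h : t = s * m) (h1 : -m < t) (h2 : t < m) : t = 0 := by
  have hm : 0 < m := by linarith
  have hs : s = 0 := by
    rcases lt_trichotomy s 0 with h' | h' | h'
    · have : s ≤ -1 := by omega
      nlinarith
    · exact h'
    · have : 1 ≤ s := by omega
      nlinarith
  rw [h, hs, zero_mul]

theorem SD_neg {m s t : ℤ} (h : t = s * m) (h1 : -(2 * m) < t) (h2 : t < 0) : t = -m := by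
  have hm : 0 < m := by linarith
  have hs : s = -1 := by
    rcases lt_trichotomy s (-1) with h' | h' | h'
    · have : s ≤ -2 := by omega
      nlinarith
    · exact h'
    · have : 0 ≤ s := by omega
      nlinarith
  rw [h, hs]; ring

theorem sh_cenF {m r : ℕ} {U : ℕ → ℕ} (g : Gen m r U) {i a b : ℕ} {κ : Kind} (hi : i < r)
    (ha : a < m) (hb : b < m) (hκ : κ = .dr ∨ κ = .ar) (h : ln m U κ i a b)
    (hB : bI m (wU m U) i (lab m a b) < r) :
    gofs m U κ i (lab m a b) - bofs κ a b = if κ = .ar then -(m : ℤ) else 0 := by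
  have h1 := bI_eq g.cop6 (wU m U) i (lab m a b)
  rcases hκ with rfl | rfl
  · obtain ⟨s, hs⟩ := (ln_D_iff g.cop6 (show isD .dr from trivial)).1 h
    rw [if_neg (by decide)]
    simp only [gofs, bofs] at hs ⊢
    generalize bI m (wU m U) i (lab m a b) = e at h1 hs hB ⊢
    have h2 := congrArg (Int.cast : ℤ → ZMod m) hs
    push_cast at h2
    rw [ZMod.natCast_self, mul_zero] at h2
    simp only [lab, wU] at h1
    have h3 := pos_of g (z := b) (j := i) (q := 2) (α := -4) (s := 10 * (e : ℤ) - 8 * i) hb hi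
      (by norm_num) (by norm_num) (by norm_num) (by norm_num) (by rw [abs_le]; omega)
      (by push_cast; linear_combination (-1) * h1 + 4 * h2)
    exact SD_zero hs (by omega) (by omega)
  · obtain ⟨s, hs⟩ := (ln_D_iff g.cop6 (show isD .ar from trivial)).1 h
    rw [if_pos rfl]
    simp only [gofs, bofs] at hs ⊢
    generalize bI m (wU m U) i (lab m a b) = e at h1 hs hB ⊢
    have h2 := congrArg (Int.cast : ℤ → ZMod m) hs
    push_cast at h2
    rw [ZMod.natCast_self, mul_zero] at h2
    simp only [lab, wU] at h1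
    have h3 := pos_of g (z := b) (j := i) (q := 6) (α := 4) (s := 8 * (i : ℤ) - 2 * e) hb hi
      (by norm_num) (by norm_num) (by norm_num) (by norm_num) (by rw [abs_le]; omega)
      (by push_cast; linear_combination h1 - 4 * h2)
    exact SD_neg hs (by omega) (by omega)

theorem sh_cenG {m r : ℕ} {U : ℕ → ℕ} (g : Gen m r U) {i a b : ℕ} {κ : Kind} (hi : i < r)
    (ha : a < m) (hb : b < m) (hκ : κ = .dc ∨ κ = .ac) (h : ln m U κ i a b)
    (hA : aI m (wU m U) i (lab m a b) < r) :
    gofs m U κ i (lab m a b) - bofs κ a b = if κ = .ac then -(m : ℤ) else 0 := by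
  have h1 := aI_eq g.cop6 (wU m U) i (lab m a b)
  rcases hκ with rfl | rfl
  · obtain ⟨s, hs⟩ := (ln_D_iff g.cop6 (show isD .dc from trivial)).1 h
    rw [if_neg (by decide)]
    simp only [gofs, bofs] at hs ⊢
    generalize aI m (wU m U) i (lab m a b) = e at h1 hs hA ⊢
    have h2 := congrArg (Int.cast : ℤ → ZMod m) hs
    push_cast at h2
    rw [ZMod.natCast_self, mul_zero] at h2
    simp only [lab, wU] at h1
    have h3 := pos_of g (z := b) (j := i) (q := 2) (α := -1) (s := 3 * (i : ℤ) - e) hb hi
      (by norm_num) (by norm_num) (by norm_num) (by norm_num) (by rw [abs_le]; omega)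
      (by push_cast; linear_combination (-1) * h1 + 4 * h2)
    exact SD_zero hs (by omega) (by omega)
  · obtain ⟨s, hs⟩ := (ln_D_iff g.cop6 (show isD .ac from trivial)).1 h
    rw [if_pos rfl]
    simp only [gofs, bofs] at hs ⊢
    generalize aI m (wU m U) i (lab m a b) = e at h1 hs hA ⊢
    have h2 := congrArg (Int.cast : ℤ → ZMod m) hs
    push_cast at h2
    rw [ZMod.natCast_self, mul_zero] at h2
    simp only [lab, wU] at h1
    have h3 := pos_of g (z := b) (j := i) (q := 6) (α := 1) (s := (e : ℤ) + 5 * i) hb hi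
      (by norm_num) (by norm_num) (by norm_num) (by norm_num) (by rw [abs_le]; omega)
      (by push_cast; linear_combination h1 - 4 * h2)
    exact SD_neg hs (by omega) (by omega)

end H54.Q.D
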