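import Mathlib
import Pool.Agent.H54.Q.D.Tab
import Pool.Agent.H54.Q.D.GT
import Pool.Agent.H54.Q.D.TA
import Pool.Agent.H54.Q.D.TB

set_option autoImplicit false

namespace H54.Q.D


theorem SF_key {m r : ℕ} {U : ℕ → ℕ} (g : Gen m r U) {i p q a b : ℕ} (hi : i < r) (hp : p < r)
    (hq : q < r) (ha : a < m) (hb : b < m) (h : onW m (wU m U) i a b)
    {s : ℤ} (hs : ((p : ℤ) - q) - ((a : ℤ) - b) = s * m) : b + q = U i + i + p := by
  have hm := g.hm
  have hbig := g.big i hi
  have hlt := g.lt i hi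
  have e1 : (((p : ℤ) - q - ((a : ℤ) - b) : ℤ) : ZMod m) = 0 := by
    rw [hs]; push_cast; simp
  push_cast at e1
  have e2 : (a : ZMod m) - 2 * (b : ZMod m) = -(i : ZMod m) - (U i : ZMod m) := h
  have e3 : ((b + q : ℕ) : ZMod m) = ((U i + i + p : ℕ) : ZMod m) := by
    push_cast
    linear_combination (-1 : ZMod m) * e2 - e1
  -- work with the difference
  have e4 : ((m : ℤ)) ∣ ((b + q : ℕ) : ℤ) - ((U i + i + p : ℕ) : ℤ) := by
    rw [← ZMod.intCast_zmod_eq_zero_iff_dvd _ m] 
    push_cast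
    push_cast at e3
    linear_combination e3
  obtain ⟨t, ht⟩ := e4
  have h1 : t = 0 := by
    by_contra hne
    rcases lt_or_gt_of_ne hne with h0 | h0
    · have : (m : ℤ) * t ≤ -m := by nlinarith
      push_cast at ht
      omega
    · have : (m : ℤ) ≤ (m : ℤ) * t := by nlinarith
      push_cast at ht
      omega
  subst h1
  push_cast at ht
  omega

theorem sh_hole {m r : ℕ} {U : ℕ → ℕ} (g : Gen m r U) {i p q a b : ℕ} (hi : i < r) (hp : p < r)
    (hq : q < r) (ha : a < m) (hb : b < m) (h : onW m (wU m U) i a b) :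
    (∀ s : ℤ, ((p : ℤ) - q) - ((a : ℤ) - b) = s * m → s = 0 ∧ r ≤ a ∧ r ≤ b) ∧
    (∀ s : ℤ, ((p : ℤ) + q) - ((a : ℤ) + b) = s * m → s = -1 ∧ r ≤ a ∧ r ≤ b) := by
  have hm := g.hm
  have hbig := g.big i hi
  have hlt := g.lt i hi
  have hmpos : (0 : ℤ) < m := by omega
  constructor
  · intro s hs
    have hk := SF_key g hi hp hq ha hb h hs
    have h1 : s = 0 := by
      by_contra hne
      rcases lt_or_gt_of_ne hne with h0 | h0
      · have : s * (m : ℤ) ≤ -m := by nlinarith
        omega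
      · have : (m : ℤ) ≤ s * (m : ℤ) := by nlinarith
        omega
    subst h1
    refine ⟨rfl, ?_, ?_⟩ <;> omega
  · intro s hs
    have e1 : (((p : ℤ) + q - ((a : ℤ) + b) : ℤ) : ZMod m) = 0 := by
      rw [hs]; push_cast; simp
    push_cast at e1
    have e2 : (a : ZMod m) - 2 * (b : ZMod m) = -(i : ZMod m) - (U i : ZMod m) := h
    have e3 : ((3 * (b : ℤ) - 1 * (U i : ℤ) - ((i : ℤ) + p + q) : ℤ) : ZMod m) = 0 := by
      push_cast
      linear_combination (-1 : ZMod m) * e2 - e1
    have hz := pos_of g (z := b) (j := i) (q := 3) (α := 1) (s := (i : ℤ) + p + q) hb hi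
      (by norm_num) (by norm_num) (by norm_num) (by norm_num)
      (by rw [abs_of_nonneg (by positivity)]; omega) e3
    obtain ⟨hz1, hz2⟩ := hz
    have h1 : s = -1 := by
      rcases lt_trichotomy s (-1) with h0 | h0 | h0
      · have : s * (m : ℤ) ≤ -2 * m := by nlinarith
        omega
      · exact h0
      · have : (0 : ℤ) ≤ s * (m : ℤ) := by
          have : (0 : ℤ) ≤ s := by omega
          positivity
        omega
    subst h1
    refine ⟨rfl, ?_, ?_⟩ <;> omega

end H54.Q.D
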