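import Mathlib
import Pool.Agent.H54.Q.D.Tab
import Pool.Agent.H54.Q.D.AT
import Pool.Agent.H54.Q.D.CLA
import Pool.Agent.H54.Q.D.CLB
import Pool.Agent.H54.Q.D.GT
import Pool.Agent.H54.Q.D.NA
import Pool.Agent.H54.Q.D.Rg
import Pool.Agent.H54.Q.D.SD
import Pool.Agent.H54.Q.D.SE
import Pool.Agent.H54.Q.D.SF
import Pool.Agent.H54.Q.D.TA
import Pool.Agent.H54.Q.D.TB

set_option autoImplicit false

namespace H54.Q.D


theorem LD_ra {m r : ℕ} {U : ℕ → ℕ} {a b i : ℕ} {κ : Kind} (ha : a < m)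
    (hκ : isD κ) (ho : Only2 m r U a b κ i κ i) : r ≤ a := by
  by_contra h
  push Not at h
  have h1 : ln m U .rw a a b := (ln_rw_iff ha ha).mpr rfl
  rcases ho .rw a h h1 with ⟨h2, _⟩ | ⟨h2, _⟩ <;> subst h2 <;> exact hκ

theorem LD_rb {m r : ℕ} {U : ℕ → ℕ} {a b i : ℕ} {κ : Kind} (hb : b < m)
    (hκ : isD κ) (ho : Only2 m r U a b κ i κ i) : r ≤ b := by
  by_contra h
  push Not at h
  have h1 : ln m U .cl b a b := (ln_cl_iff hb hb).mpr rfl
  rcases ho .cl b h h1 with ⟨h2, _⟩ | ⟨h2, _⟩ <;> subst h2 <;> exact hκ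

theorem LD_s {m : ℕ} (hm : 0 < m) {x s q : ℤ} (h1 : x = q * m) (h2 : x = s * m) : s = q := by
  have hm' : (m : ℤ) ≠ 0 := by exact_mod_cast hm.ne'
  rw [h1] at h2
  exact (mul_right_cancel₀ hm' h2).symm

theorem LD_gen {m r : ℕ} {U : ℕ → ℕ} (g : Gen m r U) {a b i : ℕ} {κ : Kind} (ha : a < m)
    (hb : b < m) (ho : Only2 m r U a b κ i κ i) (hra : r ≤ a) (hrb : r ≤ b)
    (μ : ℕ → ℕ) (hμ : ∀ x, x ≤ 11 → μ x < 12) (hμ' : ∀ x y, x ≤ 11 → y ≤ 11 → μ x = μ y → x = y)
    (nn : ℕ → ℕ) (hn : ∀ t, t < 12 → nn t < 12)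
    (hn' : ∀ t t', t < 12 → t' < 12 → nn t = nn t' → t = t')
    (hat : Atom m r U a b (fun X Y => nn (μ (ent tPL X Y))) κ i) : Good m r U a b := by
  refine leaf_table g ha hb tPL tPL_ok (fun x => nn (μ x)) ?_ ?_ ?_ ?_ ?_
  · intro x hx
    exact (hn _ (hμ x hx)).le
  · intro x y hx hy h
    exact hμ' x y hx hy (hn' _ _ (hμ x hx) (hμ y hy) h)
  · intro X Y h
    obtain ⟨h1, h2⟩ := Rg_PL hra hrb h
    exact ⟨h1, h2, tPL_full X h1 Y h2⟩
  · intro x hx h
    have := hn _ (hμ x hx)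
    exact absurd h (by change nn (μ x) ≠ 12; omega)
  · intro κ' k hk hl
    rcases ho κ' k hk hl with ⟨h2, h3⟩ | ⟨h2, h3⟩
    · subst h2; subst h3; exact hat
    · subst h2; subst h3; exact hat

theorem LD_ent {X Y : ℕ} (hX : X < 12) (hY : Y < 12) : ent tPL X Y ≤ 11 :=
  tPL_ok.1 X hX Y hY (tPL_full X hX Y hY)

theorem leaf_Dreg {m r : ℕ} {U : ℕ → ℕ} (g : Gen m r U) {a b i : ℕ} {κ : Kind} (ha : a < m)
    (hb : b < m) (hi : i < r) (hκ : isD κ) (h1 : ln m U κ i a b)
    (ho : Only2 m r U a b κ i κ i) (hF : isFk κ → r ≤ bI m (wU m U) i (lab m a b))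
    (hG : ¬ isFk κ → r ≤ aI m (wU m U) i (lab m a b)) : Good m r U a b := by
  have hra := LD_ra ha hκ ho
  have hrb := LD_rb hb hκ ho
  obtain ⟨σ, hσ, hsh⟩ : ∃ σ : ℕ, σ < 2 ∧
      gofs m U κ i (lab m a b) - bofs κ a b = sg κ * (σ : ℤ) * m := by
    obtain ⟨τ, hτ, hsh⟩ := sh_reg g hi ha hb hκ h1 hF hG (Or.inl hra)
    have hτ2 : (τ : ℤ) < 2 := by exact_mod_cast hτ
    have hτ0 : 0 ≤ (τ : ℤ) := by
      by_contra hneg
      have hn1 : (τ : ℤ) ≤ -1 := by omega
      have hm0 : (0 : ℤ) < m := by exact_mod_cast g.mpos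
      have hprod : (τ : ℤ) * m ≤ -m := by nlinarith
      have hbl := bI_lt g.mpos (wU m U) i (lab m a b)
      have hal := aI_lt g.mpos (wU m U) i (lab m a b)
      cases κ with
      | rw => exact hκ
      | cl => exact hκ
      | w => exact hκ
      | dr =>
        have hB : r ≤ bI m (wU m U) i (lab m a b) := hF (by simp [isFk])
        simp only [gofs, bofs, sg] at hsh
        have e : (-1 : ℤ) * (τ : ℤ) * m = -((τ : ℤ) * m) := by ring
        rw [e] at hsh
        omega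
      | ar =>
        have hB : r ≤ bI m (wU m U) i (lab m a b) := hF (by simp [isFk])
        simp only [gofs, bofs, sg] at hsh
        have e : (-1 : ℤ) * (τ : ℤ) * m = -((τ : ℤ) * m) := by ring
        rw [e] at hsh
        omega
      | dc =>
        have hB : r ≤ aI m (wU m U) i (lab m a b) := hG (by simp [isFk])
        simp only [gofs, bofs, sg] at hsh
        have e : (1 : ℤ) * (τ : ℤ) * m = ((τ : ℤ) * m) := by ring
        rw [e] at hsh
        omega
      | ac =>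
        have hB : r ≤ aI m (wU m U) i (lab m a b) := hG (by simp [isFk])
        simp only [gofs, bofs, sg] at hsh
        have e : (-1 : ℤ) * (τ : ℤ) * m = -((τ : ℤ) * m) := by ring
        rw [e] at hsh
        omega
    refine ⟨(τ : ℤ).toNat, by omega, ?_⟩
    rw [Int.toNat_of_nonneg hτ0]
    exact hsh
  have hσ3 : σ < 3 := by omega
  have hσ2 : σ ≠ 2 := by omega
  cases κ with
  | rw => exact absurd hκ (by simp [isD])
  | cl => exact absurd hκ (by simp [isD])
  | w => exact absurd hκ (by simp [isD])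
  | dr =>
    have hB : r ≤ bI m (wU m U) i (lab m a b) := hF (by simp [isFk])
    refine LD_gen g ha hb ho hra hrb (MIt .dr σ) ?_ ?_ (nu m r U i (lab m a b)) ?_ ?_ ?_
    · intro x hx; exact (MIt_lt σ hσ3 x (by omega)).1
    · intro x y hx hy h
      have e1 := (Mt_MIt σ hσ3 x (by omega)).1
      have e2 := (Mt_MIt σ hσ3 y (by omega)).1
      rw [← e1, ← e2, h]
    · intro t ht; exact nu_lt i _ ht
    · intro t t' ht ht' h; exact nu_inj i _ ht ht' h
    · intro _ t ht s hs X Y hR hH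
      obtain ⟨hX, hY⟩ := Rg_PL hra hrb hR
      have he := LD_ent hX hY
      have ht2 : MIt .dr σ (ent tPL X Y) = t :=
        nu_inj i _ (MIt_lt σ hσ3 _ (by omega)).1 ht hH
      have hs2 : s = sg .dr * σ := LD_s g.mpos hsh hs
      have h3 := tPL_dr σ hσ3 X hX Y hY
      rw [ht2] at h3
      have hk : kk r (bI m (wU m U) i (lab m a b)) t = t := by
        unfold kk; rw [if_neg (by omega)]
      rw [hk, hs2]
      simp only [J, if_neg hσ2, sg] at h3 ⊢
      intro h4
      exact h3 (by rw [h4]; ring)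
  | ar =>
    have hB : r ≤ bI m (wU m U) i (lab m a b) := hF (by simp [isFk])
    refine LD_gen g ha hb ho hra hrb (MIt .ar σ) ?_ ?_ (nu m r U i (lab m a b)) ?_ ?_ ?_
    · intro x hx; exact (MIt_lt σ hσ3 x (by omega)).2.1
    · intro x y hx hy h
      have e1 := (Mt_MIt σ hσ3 x (by omega)).2.1
      have e2 := (Mt_MIt σ hσ3 y (by omega)).2.1
      rw [← e1, ← e2, h]
    · intro t ht; exact nu_lt i _ ht
    · intro t t' ht ht' h; exact nu_inj i _ ht ht' h
    · intro _ t ht s hs X Y hR hH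
      obtain ⟨hX, hY⟩ := Rg_PL hra hrb hR
      have he := LD_ent hX hY
      have ht2 : MIt .ar σ (ent tPL X Y) = t :=
        nu_inj i _ (MIt_lt σ hσ3 _ (by omega)).2.1 ht hH
      have hs2 : s = sg .ar * σ := LD_s g.mpos hsh hs
      have h3 := tPL_ar σ hσ3 X hX Y hY
      rw [ht2] at h3
      have hk : kk r (bI m (wU m U) i (lab m a b)) t = t := by
        unfold kk; rw [if_neg (by omega)]
      rw [hk, hs2]
      simp only [J, if_neg hσ2, sg] at h3 ⊢
      intro h4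
      exact h3 (by rw [h4]; ring)
  | dc =>
    have hB : r ≤ aI m (wU m U) i (lab m a b) := hG (by simp [isFk])
    refine LD_gen g ha hb ho hra hrb (MIt .dc σ) ?_ ?_ (xi m r U i (lab m a b)) ?_ ?_ ?_
    · intro x hx; exact (MIt_lt σ hσ3 x (by omega)).2.2.1
    · intro x y hx hy h
      have e1 := (Mt_MIt σ hσ3 x (by omega)).2.2.1
      have e2 := (Mt_MIt σ hσ3 y (by omega)).2.2.1
      rw [← e1, ← e2, h]
    · intro t ht; exact xi_lt i _ ht
    · intro t t' ht ht' h; exact xi_inj i _ ht ht' h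
    · intro _ t ht s hs X Y hR hH
      obtain ⟨hX, hY⟩ := Rg_PL hra hrb hR
      have he := LD_ent hX hY
      have ht2 : MIt .dc σ (ent tPL X Y) = t :=
        xi_inj i _ (MIt_lt σ hσ3 _ (by omega)).2.2.1 ht hH
      have hs2 : s = sg .dc * σ := LD_s g.mpos hsh hs
      have h3 := tPL_dc σ hσ3 X hX Y hY
      rw [ht2] at h3
      have hk : kk r (aI m (wU m U) i (lab m a b)) t = t := by
        unfold kk; rw [if_neg (by omega)]
      rw [hk, hs2]
      simp only [J, if_neg hσ2, sg] at h3 ⊢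
      intro h4
      exact h3 (by rw [h4]; ring)
  | ac =>
    have hB : r ≤ aI m (wU m U) i (lab m a b) := hG (by simp [isFk])
    refine LD_gen g ha hb ho hra hrb (MIt .ac σ) ?_ ?_ (xi m r U i (lab m a b)) ?_ ?_ ?_
    · intro x hx; exact (MIt_lt σ hσ3 x (by omega)).2.2.2
    · intro x y hx hy h
      have e1 := (Mt_MIt σ hσ3 x (by omega)).2.2.2
      have e2 := (Mt_MIt σ hσ3 y (by omega)).2.2.2
      rw [← e1, ← e2, h]
    · intro t ht; exact xi_lt i _ ht
    · intro t t' ht ht' h; exact xi_inj i _ ht ht' h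
    · intro _ t ht s hs X Y hR hH
      obtain ⟨hX, hY⟩ := Rg_PL hra hrb hR
      have he := LD_ent hX hY
      have ht2 : MIt .ac σ (ent tPL X Y) = t :=
        xi_inj i _ (MIt_lt σ hσ3 _ (by omega)).2.2.2 ht hH
      have hs2 : s = sg .ac * σ := LD_s g.mpos hsh hs
      have h3 := tPL_ac σ hσ3 X hX Y hY
      rw [ht2] at h3
      have hk : kk r (aI m (wU m U) i (lab m a b)) t = t := by
        unfold kk; rw [if_neg (by omega)]
      rw [hk, hs2]
      simp only [J, if_neg hσ2, sg] at h3 ⊢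
      intro h4
      exact h3 (by rw [h4]; ring)

end H54.Q.D
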