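import Mathlib
import Pool.Agent.H54.Q.D.Tab
import Pool.Agent.H54.Q.D.AT
import Pool.Agent.H54.Q.D.CLA
import Pool.Agent.H54.Q.D.CLB
import Pool.Agent.H54.Q.D.GT
import Pool.Agent.H54.Q.D.NA
import Pool.Agent.H54.Q.D.NFA
import Pool.Agent.H54.Q.D.Rg
import Pool.Agent.H54.Q.D.SD
import Pool.Agent.H54.Q.D.SE
import Pool.Agent.H54.Q.D.SF
import Pool.Agent.H54.Q.D.TA
import Pool.Agent.H54.Q.D.TB

set_option autoImplicit false

namespace H54.Q.D


theorem LDD_MIt_lt {κ : Kind} (hκ : isD κ) {σ x : ℕ} (hσ : σ < 3) (hx : x < 12) : MIt κ σ x < 12 := by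
  have h := MIt_lt σ hσ x hx
  cases κ <;> simp only [isD] at hκ
  · exact h.1
  · exact h.2.1
  · exact h.2.2.1
  · exact h.2.2.2

theorem LDD_Mt_MIt {κ : Kind} (hκ : isD κ) {σ x : ℕ} (hσ : σ < 3) (hx : x < 12) : Mt κ σ (MIt κ σ x) = x := by
  have h := Mt_MIt σ hσ x hx
  cases κ <;> simp only [isD] at hκ
  · exact h.1
  · exact h.2.1
  · exact h.2.2.1
  · exact h.2.2.2

theorem LDD_MIt_Mt {κ : Kind} (hκ : isD κ) {σ x : ℕ} (hσ : σ < 3) (hx : x < 12) : MIt κ σ (Mt κ σ x) = x := by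
  have h := MIt_Mt σ hσ x hx
  cases κ <;> simp only [isD] at hκ
  · exact h.1
  · exact h.2.1
  · exact h.2.2.1
  · exact h.2.2.2

theorem LDD_Mt_lt {κ : Kind} (hκ : isD κ) {σ x : ℕ} (hσ : σ < 3) (hx : x < 12) : Mt κ σ x < 12 := by
  have h := Mt_lt σ hσ x hx
  cases κ <;> simp only [isD] at hκ
  · exact h.1
  · exact h.2.1
  · exact h.2.2.1
  · exact h.2.2.2

theorem LDD_nm_F {κ : Kind} (hκ : isD κ) (hF : isFk κ) (σ x : ℕ) : nm κ σ x = MIt κ σ x := by
  cases κ <;> simp only [isD, isFk] at hκ hF <;> rfl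

theorem LDD_nm_G {κ : Kind} (hκ : isD κ) (hF : ¬ isFk κ) (σ x : ℕ) : nm κ σ x = rinv (MIt κ σ x) := by
  cases κ <;> simp only [isD, isFk, not_true] at hκ hF <;> rfl

theorem LDD_rinv_inj {x y : ℕ} (hx : x < 12) (hy : y < 12) (h : rinv x = rinv y) : x = y := by
  rw [← rho_rinv x hx, h, rho_rinv y hy]

theorem LDD_nm_lt {κ : Kind} (hκ : isD κ) {σ x : ℕ} (hσ : σ < 3) (hx : x < 12) : nm κ σ x < 12 := by
  by_cases hF : isFk κ
  · rw [LDD_nm_F hκ hF]; exact LDD_MIt_lt hκ hσ hx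
  · rw [LDD_nm_G hκ hF]; exact rinv_lt _ (LDD_MIt_lt hκ hσ hx)

theorem LDD_nm_inj {κ : Kind} (hκ : isD κ) {σ x y : ℕ} (hσ : σ < 3) (hx : x < 12) (hy : y < 12)
    (h : nm κ σ x = nm κ σ y) : x = y := by
  have key : MIt κ σ x = MIt κ σ y := by
    by_cases hF : isFk κ
    · rw [LDD_nm_F hκ hF, LDD_nm_F hκ hF] at h; exact h
    · rw [LDD_nm_G hκ hF, LDD_nm_G hκ hF] at h
      exact LDD_rinv_inj (LDD_MIt_lt hκ hσ hx) (LDD_MIt_lt hκ hσ hy) h
  rw [← LDD_Mt_MIt hκ hσ hx, key, LDD_Mt_MIt hκ hσ hy]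

theorem LDD_atom {m r : ℕ} {U : ℕ → ℕ} (hm : 0 < m) {a b i σ : ℕ} {κ : Kind} (H : ℕ → ℕ → ℕ)
    (hreg : ∀ X Y, Rg m r (wU m U) a b X Y → X < 12 ∧ Y < 12) (hκ : isD κ) (hσ : σ < 2)
    (hs : gofs m U κ i (lab m a b) - bofs κ a b = sg κ * σ * m)
    (hA : r ≤ aI m (wU m U) i (lab m a b)) (hB : r ≤ bI m (wU m U) i (lab m a b))
    (hF : isFk κ → ∀ t, t < 12 → ∀ X Y, X < 12 → Y < 12 → H X Y = nu m r U i (lab m a b) t →
      MIt κ σ (ent tPL X Y) = t)
    (hG : ¬ isFk κ → ∀ t, t < 12 → ∀ X Y, X < 12 → Y < 12 → H X Y = xi m r U i (lab m a b) t →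
      MIt κ σ (ent tPL X Y) = t) : Atom m r U a b H κ i := by
  have hm' : (m : ℤ) ≠ 0 := by exact_mod_cast hm.ne'
  have hkA : ∀ t, kk r (aI m (wU m U) i (lab m a b)) t = t := fun t => by
    unfold kk; rw [if_neg (by omega)]
  have hkB : ∀ t, kk r (bI m (wU m U) i (lab m a b)) t = t := fun t => by
    unfold kk; rw [if_neg (by omega)]
  have hsig : ∀ s : ℤ, gofs m U κ i (lab m a b) - bofs κ a b = s * m → s = sg κ * σ := by
    intro s h
    rw [hs] at h
    exact (mul_right_cancel₀ hm' h).symm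
  have hσ2 : σ ≠ 2 := by omega
  cases κ <;> simp only [isD] at hκ
  · -- dr
    intro _ t ht s hs' X Y hR hH
    obtain ⟨hX, hY⟩ := hreg X Y hR
    have h1 := hF trivial t ht X Y hX hY hH
    have h2 := tPL_dr σ (by omega) X hX Y hY
    rw [h1] at h2
    have h3 := hsig s hs'
    rw [hkB]
    simp only [J, if_neg hσ2] at h2
    simp only [sg] at h3
    intro h4
    apply h2
    rw [h4, h3]
    ring
  · -- ar
    intro _ t ht s hs' X Y hR hH
    obtain ⟨hX, hY⟩ := hreg X Y hR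
    have h1 := hF trivial t ht X Y hX hY hH
    have h2 := tPL_ar σ (by omega) X hX Y hY
    rw [h1] at h2
    have h3 := hsig s hs'
    rw [hkB]
    simp only [J, if_neg hσ2] at h2
    simp only [sg] at h3
    intro h4
    apply h2
    rw [h4, h3]
    ring
  · -- dc
    intro _ t ht s hs' X Y hR hH
    obtain ⟨hX, hY⟩ := hreg X Y hR
    have h1 := hG (fun h => h) t ht X Y hX hY hH
    have h2 := tPL_dc σ (by omega) X hX Y hY
    rw [h1] at h2
    have h3 := hsig s hs'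
    rw [hkA]
    simp only [J, if_neg hσ2] at h2
    simp only [sg] at h3
    intro h4
    apply h2
    rw [h4, h3]
    ring
  · -- ac
    intro _ t ht s hs' X Y hR hH
    obtain ⟨hX, hY⟩ := hreg X Y hR
    have h1 := hG (fun h => h) t ht X Y hX hY hH
    have h2 := tPL_ac σ (by omega) X hX Y hY
    rw [h1] at h2
    have h3 := hsig s hs'
    rw [hkA]
    simp only [J, if_neg hσ2] at h2
    simp only [sg] at h3
    intro h4
    apply h2
    rw [h4, h3]
    ring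

theorem LDD_sh {m r : ℕ} {U : ℕ → ℕ} (g : Gen m r U) {i a b : ℕ} {κ : Kind} (hi : i < r)
    (ha : a < m) (hb : b < m) (hκ : isD κ) (h : ln m U κ i a b)
    (hB : r ≤ bI m (wU m U) i (lab m a b)) (hA : r ≤ aI m (wU m U) i (lab m a b))
    (hra : r ≤ a) : ∃ σ : ℕ, σ < 2 ∧ gofs m U κ i (lab m a b) - bofs κ a b = sg κ * σ * m := by
  obtain ⟨σ, hσ, hs⟩ := sh_reg g hi ha hb hκ h (fun _ => hB) (fun _ => hA) (Or.inl hra)
  have hbI := bI_lt g.mpos (wU m U) i (lab m a b)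
  have haI := aI_lt g.mpos (wU m U) i (lab m a b)
  have hm : (0 : ℤ) < m := by exact_mod_cast g.mpos
  have h0 : 0 ≤ σ := by
    by_contra hneg
    have hneg' : σ ≤ -1 := by omega
    have hmul : σ * m ≤ -1 * m := mul_le_mul_of_nonneg_right hneg' hm.le
    cases κ <;> simp only [isD] at hκ <;> simp only [gofs, bofs, sg] at hs
    · have : -1 * σ * (m : ℤ) = - (σ * m) := by ring
      rw [this] at hs
      omega
    · have : -1 * σ * (m : ℤ) = - (σ * m) := by ring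
      rw [this] at hs
      omega
    · have : 1 * σ * (m : ℤ) = σ * m := by ring
      rw [this] at hs
      omega
    · have : -1 * σ * (m : ℤ) = - (σ * m) := by ring
      rw [this] at hs
      omega
  refine ⟨σ.toNat, by omega, ?_⟩
  rw [hs, Int.toNat_of_nonneg h0]

theorem leaf_DD {m r : ℕ} {U : ℕ → ℕ} (g : Gen m r U) {a b i j : ℕ} {κ κ' : Kind} (ha : a < m)
    (hb : b < m) (hi : i < r) (hj : j < r) (hne : i ≠ j) (hκ : isD κ) (hκ' : isD κ')
    (hkk : rk κ < rk κ') (h1 : ln m U κ i a b) (h2 : ln m U κ' j a b)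
    (ho : Only2 m r U a b κ i κ' j) : Good m r U a b := by
  have hrk : 2 ≤ rk κ := by
    cases κ <;> simp only [isD] at hκ <;> simp [rk]
  have hκw : κ ≠ .w := by
    rintro rfl; exact hκ
  obtain ⟨hAi, hBi, hAj, hBj⟩ := NF_VVr g hi hj hne ha hb hrk hkk h1 h2
  have hra : r ≤ a := by
    by_contra hlt
    have hlt' : a < r := by omega
    rcases ho .rw a hlt' ((ln_rw_iff (U := U) (b := b) ha ha).2 rfl) with h | h
    · rw [← h.1] at hκ; exact hκ
    · rw [← h.1] at hκ'; exact hκ'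
  have hrb : r ≤ b := by
    by_contra hlt
    have hlt' : b < r := by omega
    rcases ho .cl b hlt' ((ln_cl_iff (U := U) (a := a) hb hb).2 rfl) with h | h
    · rw [← h.1] at hκ; exact hκ
    · rw [← h.1] at hκ'; exact hκ'
  obtain ⟨σ1, hσ1, hs1⟩ := LDD_sh g hi ha hb hκ h1 hBi hAi hra
  obtain ⟨σ2, hσ2, hs2⟩ := LDD_sh g hj ha hb hκ' h2 hBj hAj hra
  obtain ⟨n1, n2, n3, n4⟩ := NF_VV g hi hj hne ha hb hrk hkk h1 h2
    (Or.inr ⟨hκ, hσ1, hs1⟩) (Or.inr ⟨hκ', hσ2, hs2⟩)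
  have hreg : ∀ X Y, Rg m r (wU m U) a b X Y → X < 12 ∧ Y < 12 := fun X Y h => Rg_PL hra hrb h
  have hent : ∀ X Y, X < 12 → Y < 12 → ent tPL X Y < 12 := by
    intro X Y hX hY
    have := tPL_ok.1 X hX Y hY (tPL_full X hX Y hY)
    omega
  refine leaf_table g ha hb tPL tPL_ok (nm κ σ1) ?_ ?_ ?_ ?_ ?_
  · intro x hx
    have := LDD_nm_lt hκ (σ := σ1) (x := x) (by omega) (by omega)
    omega
  · intro x y hx hy h
    exact LDD_nm_inj hκ (σ := σ1) (by omega) (by omega) (by omega) h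
  · intro X Y h
    obtain ⟨hX, hY⟩ := hreg X Y h
    exact ⟨hX, hY, tPL_full X hX Y hY⟩
  · intro x hx h
    have := LDD_nm_lt hκ (σ := σ1) (x := x) (by omega) (by omega)
    omega
  · intro κ0 k hk hln
    rcases ho κ0 k hk hln with ⟨e1, e2⟩ | ⟨e1, e2⟩
    · subst e1 e2
      refine LDD_atom g.mpos _ hreg hκ hσ1 hs1 hAi hBi ?_ ?_
      · intro hF t ht X Y hX hY hH
        rw [n1 t] at hH
        rw [← LDD_nm_F hκ hF]
        exact hH
      · intro hF t ht X Y hX hY hH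
        rw [n2 t] at hH
        have hH' : rinv (MIt κ0 σ1 (ent tPL X Y)) = rinv t := by
          rw [← LDD_nm_G hκ hF]; exact hH
        exact LDD_rinv_inj (LDD_MIt_lt hκ (by omega) (hent X Y hX hY)) ht hH'
    · subst e1 e2
      refine LDD_atom g.mpos _ hreg hκ' hσ2 hs2 hAj hBj ?_ ?_
      · intro hF t ht X Y hX hY hH
        rw [n3 t] at hH
        unfold pVV at hH
        rw [if_pos hF] at hH
        unfold M2 at hH
        rw [if_neg hκw] at hH
        have h5 : ent tPL X Y = Mt κ0 σ2 t :=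
          LDD_nm_inj hκ (by omega) (hent X Y hX hY) (LDD_Mt_lt hκ' (by omega) ht) hH
        rw [h5]
        exact LDD_MIt_Mt hκ' (by omega) ht
      · intro hF t ht X Y hX hY hH
        rw [n4 t] at hH
        unfold pVV at hH
        rw [if_neg hF, rho_rinv t ht] at hH
        unfold M2 at hH
        rw [if_neg hκw] at hH
        have h5 : ent tPL X Y = Mt κ0 σ2 t :=
          LDD_nm_inj hκ (by omega) (hent X Y hX hY) (LDD_Mt_lt hκ' (by omega) ht) hH
        rw [h5]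
        exact LDD_MIt_Mt hκ' (by omega) ht

end H54.Q.D
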