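import Mathlib
import Pool.Agent.H54.Q.D.Tab
import Pool.Agent.H54.Q.D.AT
import Pool.Agent.H54.Q.D.CLA
import Pool.Agent.H54.Q.D.CLB
import Pool.Agent.H54.Q.D.GT
import Pool.Agent.H54.Q.D.NA
import Pool.Agent.H54.Q.D.NFE
import Pool.Agent.H54.Q.D.Rg
import Pool.Agent.H54.Q.D.SD
import Pool.Agent.H54.Q.D.SE
import Pool.Agent.H54.Q.D.SF
import Pool.Agent.H54.Q.D.TA
import Pool.Agent.H54.Q.D.TB

set_option autoImplicit false

namespace H54.Q.D


theorem leaf_P {m r : ℕ} {U : ℕ → ℕ} (g : Gen m r U) {a b i : ℕ} (ha : a < m) (hb : b < m)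
    (hi : i < r) (h1 : ln m U .rw i a b) (h2 : ln m U .w i a b)
    (ho : ∀ κ k, k < r → ln m U κ k a b → k = i ∧ κ ≠ .cl ∧ κ ≠ .dc ∧ κ ≠ .ac) :
    Good m r U a b := by
  have hai : a = i := (ln_rw_iff (g.lt_m hi) ha).1 h1
  subst hai
  have hW : onW m (wU m U) a a b := ln_w_iff.1 h2
  have hrb : r ≤ b := by
    by_contra hlt
    exact small_not_W g hi hi (not_le.1 hlt) hW
  have hbI : bI m (wU m U) a (lab m a b) = b := onW_b g.cop6 (wU m U) hb hW
  have hvac : ∀ {Q : Prop}, ¬ onW m (wU m U) a a (bI m (wU m U) a (lab m a b)) → Q := by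
    intro Q h
    rw [hbI] at h
    exact absurd hW h
  refine leaf_table g ha hb tP tP_ok (fun x => x) (fun x hx => hx) (fun x y _ _ h => h) ?_ ?_ ?_
  · intro X Y h
    obtain ⟨hX, hY⟩ := Rg_P hi hrb h
    exact ⟨hX, hY, tP_full X hX Y hY⟩
  · intro x _ _
    exact ⟨a, hi, hW⟩
  · intro κ k hk hl
    obtain ⟨rfl, hn1, hn2, hn3⟩ := ho κ k hk hl
    cases κ with
    | rw => exact fun h => hvac h
    | cl => exact absurd rfl hn1
    | w =>
      refine ⟨fun h => hvac h, ?_, ?_⟩
      · intro _ t ht X Y hR hH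
        obtain ⟨hX, hY⟩ := Rg_P hi hrb hR
        have e1 : ent tP X Y = rinv t := by
          rw [← NF_P g hi hb hW t]; exact hH
        have e2 : kk r k t = kap t := by
          unfold kk; rw [if_pos hi]
        have e3 : ent tP X Y ≠ 12 := by
          rw [e1]; exact (rinv_lt t ht).ne
        have e4 := tP_row X hX Y hY e3
        rw [e1, rho_rinv t ht] at e4
        rw [e2]
        exact e4
      · intro p q hp hq X Y hR hH hA
        obtain ⟨hX, hY⟩ := Rg_P hi hrb hR
        rcases att_split ha hb (g.lt_m hp) (g.lt_m hq) hA with h | h | ⟨s, h, _⟩ | ⟨s, h, _⟩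
        · exact tP_inf X hX Y hY hH h.2
        · have := h.1
          omega
        · have := ((sh_hole g hi hp hq ha hb hW).1 s h).2.1
          omega
        · have := ((sh_hole g hi hp hq ha hb hW).2 s h).2.1
          omega
    | dr => exact fun h => hvac h
    | ar => exact fun h => hvac h
    | dc => exact absurd rfl hn2
    | ac => exact absurd rfl hn3

theorem leaf_Q {m r : ℕ} {U : ℕ → ℕ} (g : Gen m r U) {a b i : ℕ} (ha : a < m) (hb : b < m)
    (hi : i < r) (h1 : ln m U .cl i a b) (h2 : ln m U .w i a b)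
    (ho : ∀ κ k, k < r → ln m U κ k a b → k = i ∧ κ ≠ .rw ∧ κ ≠ .dr ∧ κ ≠ .ar) :
    Good m r U a b := by
  have hbi : b = i := (ln_cl_iff (g.lt_m hi) hb).1 h1
  subst hbi
  have hW : onW m (wU m U) b a b := ln_w_iff.1 h2
  have hra : r ≤ a := by
    by_contra hlt
    exact small_not_W g hi (not_le.1 hlt) hi hW
  have haI : aI m (wU m U) b (lab m a b) = a := onW_a g.cop6 (wU m U) ha hW
  have hvac : ∀ {Q : Prop}, ¬ onW m (wU m U) b (aI m (wU m U) b (lab m a b)) b → Q := by
    intro Q h
    rw [haI] at h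
    exact absurd hW h
  refine leaf_table g ha hb tQ tQ_ok (fun x => x) (fun x hx => hx) (fun x y _ _ h => h) ?_ ?_ ?_
  · intro X Y h
    obtain ⟨hX, hY⟩ := Rg_Q hra hi h
    exact ⟨hX, hY, tQ_full X hX Y hY⟩
  · intro x _ _
    exact ⟨b, hi, hW⟩
  · intro κ k hk hl
    obtain ⟨rfl, hn1, hn2, hn3⟩ := ho κ k hk hl
    cases κ with
    | rw => exact absurd rfl hn1
    | cl => exact fun h => hvac h
    | w =>
      refine ⟨?_, fun h => hvac h, ?_⟩
      · intro _ t ht X Y hR hH
        obtain ⟨hX, hY⟩ := Rg_Q hra hi hR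
        have e1 : ent tQ X Y = t := by
          rw [← NF_Q g hi ha hW t]; exact hH
        have e2 : kk r k t = kap t := by
          unfold kk; rw [if_pos hi]
        have e3 : ent tQ X Y ≠ 12 := by
          rw [e1]; exact ht.ne
        have e4 := tQ_col X hX Y hY e3
        rw [e1] at e4
        rw [e2]
        exact e4
      · intro p q hp hq X Y hR hH hA
        obtain ⟨hX, hY⟩ := Rg_Q hra hi hR
        rcases att_split ha hb (g.lt_m hp) (g.lt_m hq) hA with h | h | ⟨s, h, _⟩ | ⟨s, h, _⟩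
        · have := h.1
          omega
        · exact tQ_inf X hX Y hY hH h.2
        · have := ((sh_hole g hi hp hq ha hb hW).1 s h).2.2
          omega
        · have := ((sh_hole g hi hp hq ha hb hW).2 s h).2.2
          omega
    | dr => exact absurd rfl hn2
    | ar => exact absurd rfl hn3
    | dc => exact fun h => hvac h
    | ac => exact fun h => hvac h

end H54.Q.D
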