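import Mathlib
import Pool.Agent.H54.Q.D.Tab
import Pool.Agent.H54.Q.D.CLA
import Pool.Agent.H54.Q.D.CLB
import Pool.Agent.H54.Q.D.GT
import Pool.Agent.H54.Q.D.PP
import Pool.Agent.H54.Q.D.PR
import Pool.Agent.H54.Q.D.SU
import Pool.Agent.H54.Q.D.TA
import Pool.Agent.H54.Q.D.TB

set_option autoImplicit false

namespace H54.Q.D


theorem NFC_noSec {m r : ℕ} {U : ℕ → ℕ} {j : ℕ} {c : ZMod m}
    (hVV : ∀ (i : ℕ) (κ1 κ2 : Kind) (a b : ℕ), i < r → i ≠ j → lab m a b = c →
      2 ≤ rk κ1 → rk κ1 < rk κ2 → ln m U κ1 i a b → ln m U κ2 j a b → False)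
    (hWR : ∀ (i a b : ℕ), i < r → i ≠ j → lab m a b = c → ln m U .rw j a b →
      ln m U .w i a b → False)
    (hWC : ∀ (i a b : ℕ), i < r → i ≠ j → lab m a b = c → ln m U .cl j a b →
      ln m U .w i a b → False) : ∀ π, ¬ Sec m r U j c π := by
  rintro π (h | h | h)
  · obtain ⟨i, κ1, κ2, σ1, σ2, a, b, hi, hij, _, _, hl, hr1, hr2, h1, h2, _⟩ := h
    exact hVV i κ1 κ2 a b hi hij hl hr1 hr2 h1 h2
  · obtain ⟨i, a, b, hi, hij, _, _, hl, h1, h2, _⟩ := h
    exact hWR i a b hi hij hl h1 h2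
  · obtain ⟨i, a, b, hi, hij, _, _, hl, h1, h2, _⟩ := h
    exact hWC i a b hi hij hl h1 h2

theorem NFC_B {m r : ℕ} {U : ℕ → ℕ} (g : Gen m r U) (i : ℕ) (c : ZMod m) :
    ln m U .cl (bI m (wU m U) i c) (aI m (wU m U) i c) (bI m (wU m U) i c) ∧
      ln m U .w i (aI m (wU m U) i c) (bI m (wU m U) i c) ∧
      lab m (aI m (wU m U) i c) (bI m (wU m U) i c) = c := by
  have hb := bI_lt g.mpos (wU m U) i c
  exact ⟨(ln_cl_iff hb hb).2 rfl, ln_w_iff.2 (onW_AB g.cop6 _ i c), lab_AB g.cop6 _ i c⟩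

theorem NFC_A {m r : ℕ} {U : ℕ → ℕ} (g : Gen m r U) (i : ℕ) (c : ZMod m) :
    ln m U .rw (aI m (wU m U) i c) (aI m (wU m U) i c) (bI m (wU m U) i c) ∧
      ln m U .w i (aI m (wU m U) i c) (bI m (wU m U) i c) ∧
      lab m (aI m (wU m U) i c) (bI m (wU m U) i c) = c := by
  have ha := aI_lt g.mpos (wU m U) i c
  exact ⟨(ln_rw_iff ha ha).2 rfl, ln_w_iff.2 (onW_AB g.cop6 _ i c), lab_AB g.cop6 _ i c⟩

/-- a row pair with a diagonal kind excludes column pairs with `w` -/
theorem NFC_clw {m r : ℕ} {U : ℕ → ℕ} (g : Gen m r U) {e j a b : ℕ} {κ : Kind} (he : e < r)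
    (hj : j < r) (hκ : κ = .dr ∨ κ = .ar ∨ κ = .dc ∨ κ = .ac)
    (h1 : ln m U .rw e a b) (h2 : ln m U κ j a b) {p i a' b' : ℕ} (hp : p < r) (hi : i < r)
    (h3 : ln m U .cl p a' b') (h4 : ln m U .w i a' b') (hl : lab m a' b' = lab m a b) :
    False := by
  have hr : rk .rw < rk κ := by rcases hκ with rfl | rfl | rfl | rfl <;> decide
  have := pairs g he hj hp hi h1 h2 h3 h4 hr (by decide) hl.symm
  rcases this with h | h | ⟨v, h, h'⟩ | ⟨v, h, h'⟩ | h
  · exact absurd h.1 (by decide)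
  · exact absurd h.2.2.1 (by decide)
  · rcases h'.2.2 with h5 | ⟨_, h5 | h5⟩ <;> exact absurd h5 (by decide)
  · rcases h.2.2 with h5 | ⟨_, h5 | h5⟩ <;> exact absurd h5 (by decide)
  · rcases h.2.2.2 with h5 | h5
    · exact absurd h5.1 (by decide)
    · exact absurd h5.2.2.1 (by decide)

theorem NF_rwF {m r : ℕ} {U : ℕ → ℕ} (g : Gen m r U) {e j a b : ℕ} {κ : Kind} (he : e < r)
    (hj : j < r) (hne : e ≠ j) (ha : a < m) (hb : b < m) (hκ : κ = .dr ∨ κ = .ar)
    (h1 : ln m U .rw e a b) (h2 : ln m U κ j a b) :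
    (∀ t, nu m r U e (lab m a b) t = t) ∧ (∀ t, nu m r U j (lab m a b) t = t) ∧
    r ≤ bI m (wU m U) e (lab m a b) ∧ r ≤ bI m (wU m U) j (lab m a b) := by
  have hκ' : κ = .dr ∨ κ = .ar ∨ κ = .dc ∨ κ = .ac := by
    rcases hκ with h | h
    · exact Or.inl h
    · exact Or.inr (Or.inl h)
  have hrk : rk .rw < rk κ := by rcases hκ with rfl | rfl <;> decide
  have hB : ∀ i, i < r → r ≤ bI m (wU m U) i (lab m a b) := by
    intro i hi
    by_contra hcon
    push Not at hcon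
    obtain ⟨h3, h4, h5⟩ := NFC_B g i (lab m a b)
    exact NFC_clw g he hj hκ' h1 h2 hcon hi h3 h4 h5
  have hS : ∀ f, (f = e ∨ f = j) → ∀ π, ¬ Sec m r U f (lab m a b) π := by
    intro f hf
    have hfr : f < r := by rcases hf with rfl | rfl <;> assumption
    apply NFC_noSec
    · intro i κ1 κ2 a' b' hi hif hl hr1 hr2 h3 h4
      have := pairs g he hj hi hfr h1 h2 h3 h4 hrk hr2 hl.symm
      rcases this with h | h | ⟨v, h, h'⟩ | ⟨v, h, h'⟩ | h
      · rw [← h.1] at hr1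
        exact absurd hr1 (by decide)
      · rw [h.2.2.1] at hr1
        exact absurd hr1 (by decide)
      · rcases h'.2.2 with h5 | ⟨h5, _⟩
        · rw [h5] at hr1
          exact absurd hr1 (by decide)
        · exact hif (h5.trans h'.1.symm)
      · rcases h.2.2 with h5 | ⟨_, h5 | h5⟩ <;> exact absurd h5 (by decide)
      · exact hne h.1
    · intro i a' b' hi hif hl h3 h4
      have := pairs g he hj hfr hi h1 h2 h3 h4 hrk (by decide) hl.symm
      rcases this with h | h | ⟨v, h, h'⟩ | ⟨v, h, h'⟩ | h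
      · rcases hκ with rfl | rfl <;> exact absurd h.2.1 (by decide)
      · exact absurd h.2.2.2 (by decide)
      · have hij : i = j := h'.1.trans h.1.symm
        subst hij
        rcases hf with rfl | rfl
        · have hrel := (pairs_rel g he hj hfr hi h1 h2 h3 h4 hl.symm).2
          rcases hκ with rfl | rfl
          · simp only [kX] at hrel
            omega
          · simp only [kX] at hrel
            omega
        · exact hif rfl
      · rcases h.2.2 with h5 | ⟨_, h5 | h5⟩ <;> exact absurd h5 (by decide)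
      · exact hne h.1
    · intro i a' b' hi hif hl h3 h4
      exact NFC_clw g he hj hκ' h1 h2 hfr hi h3 h4 hl
  refine ⟨fun t => ?_, fun t => ?_, hB e he, hB j hj⟩
  · unfold nu
    rw [if_neg (fun h => absurd h.1 (not_lt.2 (hB e he))), pn_eq_id (hS e (Or.inl rfl))]
    rfl
  · unfold nu
    rw [if_neg (fun h => absurd h.1 (not_lt.2 (hB j hj))), pn_eq_id (hS j (Or.inr rfl))]
    rfl

theorem NF_rwG {m r : ℕ} {U : ℕ → ℕ} (g : Gen m r U) {e j a b : ℕ} {κ : Kind} (he : e < r)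
    (hj : j < r) (ha : a < m) (hb : b < m) (hκ : κ = .dc ∨ κ = .ac)
    (h1 : ln m U .rw e a b) (h2 : ln m U κ j a b) :
    (∀ t, nu m r U e (lab m a b) t = t) ∧ (∀ t, xi m r U j (lab m a b) t = rinv t) ∧
    r ≤ bI m (wU m U) e (lab m a b) ∧ r ≤ aI m (wU m U) j (lab m a b) := by
  have hκ' : κ = .dr ∨ κ = .ar ∨ κ = .dc ∨ κ = .ac := by
    rcases hκ with h | h
    · exact Or.inr (Or.inr (Or.inl h))
    · exact Or.inr (Or.inr (Or.inr h))
  have hrk : rk .rw < rk κ := by rcases hκ with rfl | rfl <;> decide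
  have hP : ∀ v, ¬ Pc .rw κ e j v := by
    rintro v ⟨_, h, _⟩
    rcases hκ with rfl | rfl <;> rcases h with h | h | h <;> exact absurd h (by decide)
  have hQ : ∀ v, ¬ Qc .rw κ e j v := by
    rintro v ⟨_, _, h5 | ⟨_, h5 | h5⟩⟩ <;> exact absurd h5 (by decide)
  have hWR : ∀ f i a' b', f < r → i < r → lab m a' b' = lab m a b → ln m U .rw f a' b' →
      ln m U .w i a' b' → False := by
    intro f i a' b' hf hi hl h3 h4
    have := pairs g he hj hf hi h1 h2 h3 h4 hrk (by decide) hl.symm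
    rcases this with h | h | ⟨v, h, h'⟩ | ⟨v, h, h'⟩ | h
    · rcases hκ with rfl | rfl <;> exact absurd h.2.1 (by decide)
    · exact absurd h.2.2.2 (by decide)
    · exact hP v h
    · exact hQ v h
    · rcases h.2.2.2 with h5 | h5
      · exact absurd h5.1 (by decide)
      · exact absurd h5.2.2.2 (by decide)
  have hB : ∀ i, i < r → r ≤ bI m (wU m U) i (lab m a b) := by
    intro i hi
    by_contra hcon
    push Not at hcon
    obtain ⟨h3, h4, h5⟩ := NFC_B g i (lab m a b)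
    exact NFC_clw g he hj hκ' h1 h2 hcon hi h3 h4 h5
  have hA : ∀ i, i < r → r ≤ aI m (wU m U) i (lab m a b) := by
    intro i hi
    by_contra hcon
    push Not at hcon
    obtain ⟨h3, h4, h5⟩ := NFC_A g i (lab m a b)
    exact hWR _ i _ _ hcon hi h5 h3 h4
  have hS : ∀ f, f < r → ∀ π, ¬ Sec m r U f (lab m a b) π := by
    intro f hfr
    apply NFC_noSec
    · intro i κ1 κ2 a' b' hi hif hl hr1 hr2 h3 h4
      have := pairs g he hj hi hfr h1 h2 h3 h4 hrk hr2 hl.symm
      rcases this with h | h | ⟨v, h, h'⟩ | ⟨v, h, h'⟩ | h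
      · rw [← h.1] at hr1
        exact absurd hr1 (by decide)
      · rw [h.2.2.1] at hr1
        exact absurd hr1 (by decide)
      · exact hP v h
      · exact hQ v h
      · exact hif h.2.1
    · intro i a' b' hi _ hl h3 h4
      exact hWR f i a' b' hfr hi hl h3 h4
    · intro i a' b' hi _ hl h3 h4
      exact NFC_clw g he hj hκ' h1 h2 hfr hi h3 h4 hl
  refine ⟨fun t => ?_, fun t => ?_, hB e he, hA j hj⟩
  · unfold nu
    rw [if_neg (fun h => absurd h.1 (not_lt.2 (hB e he))), pn_eq_id (hS e he)]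
    rfl
  · unfold xi
    rw [if_neg (fun h => absurd h.1 (not_lt.2 (hA j hj))), pn_eq_id (hS j hj)]
    rfl

end H54.Q.D
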