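import Mathlib
import Pool.Agent.H54.Q.D.Tab
import Pool.Agent.H54.Q.D.AT
import Pool.Agent.H54.Q.D.CLA
import Pool.Agent.H54.Q.D.CLB
import Pool.Agent.H54.Q.D.GT
import Pool.Agent.H54.Q.D.NA
import Pool.Agent.H54.Q.D.NFC
import Pool.Agent.H54.Q.D.Rg
import Pool.Agent.H54.Q.D.SA
import Pool.Agent.H54.Q.D.SB
import Pool.Agent.H54.Q.D.SC
import Pool.Agent.H54.Q.D.TA
import Pool.Agent.H54.Q.D.TB

set_option autoImplicit false

namespace H54.Q.D


theorem LRD_gen {m r : ℕ} {U : ℕ → ℕ} (g : Gen m r U) {a b e j : ℕ} {κ : Kind} (ha : a < m)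
    (hb : b < m) (he : e < r) (hae : a = e) (hrb : r ≤ b)
    (hw : ¬ onW m (wU m U) a a b) (ho : Only2 m r U a b .rw e κ j)
    (T : List (List ℕ)) (hT : TabOK T 13 12 11)
    (hfor : ∀ X < (13 : ℕ), ∀ Y < (12 : ℕ), (ent T X Y = 13 ↔ X = R Y))
    (hrow : ∀ X < (13 : ℕ), ∀ Y < (12 : ℕ), ent T X Y ≠ 13 → X ≠ R (ent T X Y))
    (hnu : ∀ t, nu m r U e (lab m a b) t = t)
    (hA : Atom m r U a b (fun X Y => ent T X Y) κ j) : Good m r U a b := by
  have har : a < r := by omega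
  have hreg : ∀ X Y, Rg m r (wU m U) a b X Y → X < 13 ∧ Y < 12 ∧ ent T X Y ≠ 13 := by
    intro X Y h
    obtain ⟨hX, hY, hXY⟩ := Rg_NR har hrb hw h
    exact ⟨hX, hY, fun h13 => hXY ((hfor X hX Y hY).1 h13)⟩
  refine leaf_table g ha hb T hT (fun x => x) (fun x hx => by omega) (fun x y _ _ h => h) hreg
    (fun x hx h => ?_) ?_
  · exfalso
    change x = 12 at h
    omega
  · intro κ' i hi hl
    rcases ho κ' i hi hl with ⟨h3, h4⟩ | ⟨h3, h4⟩
    · subst h3
      subst h4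
      intro _ t ht X Y hR hH
      obtain ⟨hX, hY, h13⟩ := hreg X Y hR
      rw [hnu] at hH
      have h5 := hrow X hX Y hY h13
      simp only at hH
      rw [hH] at h5
      exact h5
    · subst h3
      subst h4
      exact hA

theorem LRD_reg {m r : ℕ} {U : ℕ → ℕ} {a b X Y : ℕ} (har : a < r) (hrb : r ≤ b)
    (hw : ¬ onW m (wU m U) a a b) {T : List (List ℕ)}
    (hfor : ∀ X < (13 : ℕ), ∀ Y < (12 : ℕ), (ent T X Y = 13 ↔ X = R Y))
    (h : Rg m r (wU m U) a b X Y) : X < 13 ∧ Y < 12 ∧ ent T X Y ≠ 13 := by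
  obtain ⟨hX, hY, hXY⟩ := Rg_NR har hrb hw h
  exact ⟨hX, hY, fun h13 => hXY ((hfor X hX Y hY).1 h13)⟩

theorem LRD_kk {r b t : ℕ} (h : r ≤ b) : kk r b t = t := by
  unfold kk
  rw [if_neg (by omega)]

theorem LRD_s0 {m : ℕ} (hm : 0 < m) {s : ℤ} (h : (0 : ℤ) = s * m) : s = 0 := by
  have hm' : (m : ℤ) ≠ 0 := by exact_mod_cast hm.ne'
  rcases mul_eq_zero.1 h.symm with h1 | h1
  · exact h1
  · exact absurd h1 hm'

theorem LRD_s1 {m : ℕ} (hm : 0 < m) {s : ℤ} (h : (m : ℤ) = s * m) : s = 1 := by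
  have hm' : (m : ℤ) ≠ 0 := by exact_mod_cast hm.ne'
  have h1 : (s - 1) * (m : ℤ) = 0 := by rw [sub_mul, ← h, one_mul, sub_self]
  rcases mul_eq_zero.1 h1 with h2 | h2
  · omega
  · exact absurd h2 hm'

theorem leaf_rwD {m r : ℕ} {U : ℕ → ℕ} (g : Gen m r U) {a b e j : ℕ} {κ : Kind} (ha : a < m)
    (hb : b < m) (he : e < r) (hj : j < r) (hκ : isD κ) (hne : isFk κ → e ≠ j)
    (h1 : ln m U .rw e a b) (h2 : ln m U κ j a b) (ho : Only2 m r U a b .rw e κ j) :
    Good m r U a b := by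
  have hae : a = e := (ln_rw_iff (g.lt_m he) ha).1 h1
  have har : a < r := by omega
  have hrb : r ≤ b := by
    by_contra hc
    have hc' : b < r := by omega
    have h3 : ln m U .cl b a b := (ln_cl_iff (g.lt_m hc') hb).2 rfl
    rcases ho .cl b hc' h3 with ⟨h4, _⟩ | ⟨h4, _⟩
    · exact absurd h4 (by decide)
    · rw [← h4] at hκ
      exact hκ
  have hw : ¬ onW m (wU m U) a a b := by
    intro hc
    rcases ho .w a har (ln_w_iff.2 hc) with ⟨h4, _⟩ | ⟨h4, _⟩
    · exact absurd h4 (by decide)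
    · rw [← h4] at hκ
      exact hκ
  have hsh := sh_rw g he hj ha hb hκ h1 h2
  have hm := g.mpos
  cases κ with
  | rw => exact absurd hκ id
  | cl => exact absurd hκ id
  | w => exact absurd hκ id
  | dr =>
      obtain ⟨n1, n2, n3, n4⟩ := NF_rwF g he hj (hne trivial) ha hb (Or.inl rfl) h1 h2
      refine LRD_gen g ha hb he hae hrb hw ho tNRdr tNRdr_ok tNRdr_for tNRdr_row n1 ?_
      intro _ t ht s hs X Y hR hH
      obtain ⟨hX, hY, h13⟩ := LRD_reg har hrb hw tNRdr_for hR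
      rw [hsh, if_neg (by decide)] at hs
      have hs0 := LRD_s0 hm hs
      simp only at hH
      rw [n2] at hH
      have h5 := tNRdr_av X hX Y hY h13
      rw [hH] at h5
      rw [LRD_kk n4, hs0]
      have h6 : J .dr 0 t = (R t : ℤ) - t - 0 := rfl
      rw [h6] at h5
      intro h7
      apply h5
      rw [h7]
      ring
  | ar =>
      obtain ⟨n1, n2, n3, n4⟩ := NF_rwF g he hj (hne trivial) ha hb (Or.inr rfl) h1 h2
      refine LRD_gen g ha hb he hae hrb hw ho tNRar tNRar_ok tNRar_for tNRar_row n1 ?_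
      intro _ t ht s hs X Y hR hH
      obtain ⟨hX, hY, h13⟩ := LRD_reg har hrb hw tNRar_for hR
      rw [hsh, if_neg (by decide)] at hs
      have hs0 := LRD_s0 hm hs
      simp only at hH
      rw [n2] at hH
      have h5 := tNRar_av X hX Y hY h13
      rw [hH] at h5
      rw [LRD_kk n4, hs0]
      have h6 : J .ar 0 t = (R t : ℤ) + t - 0 := rfl
      rw [h6] at h5
      intro h7
      apply h5
      rw [h7]
      ring
  | dc =>
      obtain ⟨n1, n2, n3, n4⟩ := NF_rwG g he hj ha hb (Or.inl rfl) h1 h2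
      refine LRD_gen g ha hb he hae hrb hw ho tNRdc tNRdc_ok tNRdc_for tNRdc_row n1 ?_
      intro _ t ht s hs X Y hR hH
      obtain ⟨hX, hY, h13⟩ := LRD_reg har hrb hw tNRdc_for hR
      rw [hsh, if_pos rfl] at hs
      have hs0 := LRD_s1 hm hs
      simp only at hH
      rw [n2] at hH
      have h5 := tNRdc_av X hX Y hY h13
      rw [hH, rho_rinv t ht] at h5
      rw [LRD_kk n4, hs0]
      have h6 : J .dc 1 t = (t : ℤ) - R t + 1 := rfl
      rw [h6] at h5
      exact h5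
  | ac =>
      obtain ⟨n1, n2, n3, n4⟩ := NF_rwG g he hj ha hb (Or.inr rfl) h1 h2
      refine LRD_gen g ha hb he hae hrb hw ho tNRac tNRac_ok tNRac_for tNRac_row n1 ?_
      intro _ t ht s hs X Y hR hH
      obtain ⟨hX, hY, h13⟩ := LRD_reg har hrb hw tNRac_for hR
      rw [hsh, if_neg (by decide)] at hs
      have hs0 := LRD_s0 hm hs
      simp only at hH
      rw [n2] at hH
      have h5 := tNRac_av X hX Y hY h13
      rw [hH, rho_rinv t ht] at h5
      rw [LRD_kk n4, hs0]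
      have h6 : J .ac 0 t = (t : ℤ) + R t - 0 := rfl
      rw [h6] at h5
      intro h7
      apply h5
      rw [h7]
      ring

end H54.Q.D
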