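import Mathlib
import Pool.Agent.H54.Q.D.Tab
import Pool.Agent.H54.Q.D.AT
import Pool.Agent.H54.Q.D.CLA
import Pool.Agent.H54.Q.D.CLB
import Pool.Agent.H54.Q.D.GT
import Pool.Agent.H54.Q.D.NA
import Pool.Agent.H54.Q.D.NFA
import Pool.Agent.H54.Q.D.Rg
import Pool.Agent.H54.Q.D.SD
import Pool.Agent.H54.Q.D.SE
import Pool.Agent.H54.Q.D.SF
import Pool.Agent.H54.Q.D.TA
import Pool.Agent.H54.Q.D.TB

set_option autoImplicit false

namespace H54.Q.D


theorem leaf_WD {m r : ℕ} {U : ℕ → ℕ} (g : Gen m r U) {a b i j : ℕ} {κ : Kind} (ha : a < m)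
    (hb : b < m) (hi : i < r) (hj : j < r) (hne : i ≠ j) (hκ : isD κ)
    (h1 : ln m U .w i a b) (h2 : ln m U κ j a b) (ho : Only2 m r U a b .w i κ j) :
    Good m r U a b := by
  have hmpos : 0 < m := g.mpos
  have hmz : (m : ℤ) ≠ 0 := by exact_mod_cast hmpos.ne'
  have hra : r ≤ a := by
    by_contra hcon
    have h3 := ho .rw a (by omega) ((ln_rw_iff (g.lt_m (by omega)) ha).2 rfl)
    rcases h3 with ⟨h4, -⟩ | ⟨h4, -⟩
    · exact absurd h4 (by decide)
    · rw [← h4] at hκ
      exact hκ
  have hrb : r ≤ b := by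
    by_contra hcon
    have h3 := ho .cl b (by omega) ((ln_cl_iff (g.lt_m (by omega)) hb).2 rfl)
    rcases h3 with ⟨h4, -⟩ | ⟨h4, -⟩
    · exact absurd h4 (by decide)
    · rw [← h4] at hκ
      exact hκ
  have hkk : rk .w < rk κ := by
    cases κ <;> simp [isD, rk] at hκ ⊢
  have hk : 2 ≤ rk .w := by decide
  obtain ⟨q1, q2, q3, q4⟩ := NF_VVr g hi hj hne ha hb hk hkk h1 h2
  obtain ⟨σz, hσz, hσmz⟩ := sh_reg g hj ha hb hκ h2 (fun _ => q4) (fun _ => q3) (Or.inl hra)
  have hσ0 : 0 ≤ σz := by
    by_contra hcon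
    have hle : σz * (m : ℤ) ≤ -(m : ℤ) := by
      have : σz ≤ -1 := by omega
      nlinarith [(show (0 : ℤ) < m by exact_mod_cast hmpos)]
    have l1 := aI_lt hmpos (wU m U) j (lab m a b)
    have l2 := bI_lt hmpos (wU m U) j (lab m a b)
    cases κ with
    | rw => exact hκ.elim
    | cl => exact hκ.elim
    | w => exact hκ.elim
    | dr =>
      simp only [gofs, bofs, sg] at hσmz
      have e : (-1 : ℤ) * σz * m = -(σz * m) := by ring
      rw [e] at hσmz
      omega
    | ar =>
      simp only [gofs, bofs, sg] at hσmz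
      have e : (-1 : ℤ) * σz * m = -(σz * m) := by ring
      rw [e] at hσmz
      omega
    | dc =>
      simp only [gofs, bofs, sg] at hσmz
      rw [one_mul] at hσmz
      omega
    | ac =>
      simp only [gofs, bofs, sg] at hσmz
      have e : (-1 : ℤ) * σz * m = -(σz * m) := by ring
      rw [e] at hσmz
      omega
  obtain ⟨σ, hσm, hσ⟩ : ∃ σ : ℕ, gofs m U κ j (lab m a b) - bofs κ a b = sg κ * σ * m ∧ σ < 2 := by
    refine ⟨σz.toNat, ?_, by omega⟩
    rw [Int.toNat_of_nonneg hσ0]
    exact hσmz
  obtain ⟨n1, n2, n3, n4⟩ := NF_VV (σ1 := 0) (σ2 := σ) g hi hj hne ha hb hk hkk h1 h2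
    (Or.inl ⟨rfl, rfl⟩) (Or.inr ⟨hκ, hσ, hσm⟩)
  have hkka : ∀ t, kk r a t = t := by
    intro t
    unfold kk
    rw [if_neg (by omega)]
  have hkkb : ∀ t, kk r b t = t := by
    intro t
    unfold kk
    rw [if_neg (by omega)]
  have hkkA : ∀ t, kk r (aI m (wU m U) j (lab m a b)) t = t := by
    intro t
    unfold kk
    rw [if_neg (by omega)]
  have hkkB : ∀ t, kk r (bI m (wU m U) j (lab m a b)) t = t := by
    intro t
    unfold kk
    rw [if_neg (by omega)]
  have hs : ∀ s : ℤ, gofs m U κ j (lab m a b) - bofs κ a b = s * m → s = sg κ * σ := by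
    intro s h3
    rw [hσm] at h3
    exact (mul_right_cancel₀ hmz h3).symm
  refine leaf_table g ha hb tW tW_ok (fun x => x) (fun x hx => hx) (fun x y _ _ h => h) ?_ ?_ ?_
  · intro X Y h
    obtain ⟨hX, hY⟩ := Rg_PL hra hrb h
    exact ⟨hX, hY, tW_full X hX Y hY⟩
  · intro x _ _
    exact ⟨i, hi, ln_w_iff.1 h1⟩
  · intro κ' i' hi' h3
    rcases ho κ' i' hi' h3 with ⟨rfl, rfl⟩ | ⟨rfl, rfl⟩
    · unfold Atom
      refine ⟨?_, ?_, ?_⟩
      · intro _ t _ X Y hR he
        obtain ⟨hX, hY⟩ := Rg_PL hra hrb hR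
        rw [n1] at he
        rw [hkkb]
        intro hYt
        exact tW_col X hX Y hY (he.trans hYt.symm)
      · intro _ t ht X Y hR he
        obtain ⟨hX, hY⟩ := Rg_PL hra hrb hR
        simp only [n2] at he
        rw [hkka]
        have h4 := tW_row X hX Y hY (by
          rw [he]
          have := rinv_lt t ht
          omega)
        rw [he, rho_rinv t ht] at h4
        exact h4
      · intro p q hp hq X Y hR he hAtt
        obtain ⟨hX, hY⟩ := Rg_PL hra hrb hR
        obtain ⟨e1, e2⟩ := tW_inf X hX Y hY he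
        have hpm : p < m := g.lt_m hp
        have hqm : q < m := g.lt_m hq
        obtain ⟨s1, s2⟩ := sh_hole g hi' hp hq ha hb (ln_w_iff.1 h1)
        rcases att_split ha hb hpm hqm hAtt with h4 | h4 | ⟨s, h4, h5⟩ | ⟨s, h4, h5⟩
        · omega
        · omega
        · obtain ⟨h6, -, -⟩ := s1 s h4
          subst h6
          apply e1
          push_cast at h5
          omega
        · obtain ⟨h6, -, -⟩ := s2 s h4
          subst h6
          apply e2
          push_cast at h5
          omega
    · have hσ2 : ¬ (σ = 2) := by omega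
      cases κ' with
      | rw => exact hκ.elim
      | cl => exact hκ.elim
      | w => exact hκ.elim
      | dr =>
        unfold Atom
        intro _ t ht s h4 X Y hR he
        obtain ⟨hX, hY⟩ := Rg_PL hra hrb hR
        have h5 := hs s h4
        rw [n3] at he
        have h6 := tW_dr σ hσ t ht X hX Y hY he
        rw [hkkB, h5]
        have hJ : J .dr σ t = if σ = 2 then (R t : ℤ) - kap t else (R t : ℤ) - t - σ := rfl
        rw [hJ, if_neg hσ2] at h6
        simp only [sg]
        intro h7
        apply h6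
        linarith
      | ar =>
        unfold Atom
        intro _ t ht s h4 X Y hR he
        obtain ⟨hX, hY⟩ := Rg_PL hra hrb hR
        have h5 := hs s h4
        rw [n3] at he
        have h6 := tW_ar σ hσ t ht X hX Y hY he
        rw [hkkB, h5]
        have hJ : J .ar σ t = if σ = 2 then (R t : ℤ) + kap t - 1 else (R t : ℤ) + t - σ := rfl
        rw [hJ, if_neg hσ2] at h6
        simp only [sg]
        intro h7
        apply h6
        linarith
      | dc =>
        unfold Atom
        intro _ t ht s h4 X Y hR he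
        obtain ⟨hX, hY⟩ := Rg_PL hra hrb hR
        have h5 := hs s h4
        have he' : ent tW X Y = MWt .dc σ t := by
          rw [n4] at he
          have h8 : pVV .w 0 .dc σ (rinv t) = MWt .dc σ (rho (rinv t)) := rfl
          rw [h8, rho_rinv t ht] at he
          exact he
        have h6 := tW_dc σ hσ t ht X hX Y hY he'
        rw [hkkA, h5]
        have hJ : J .dc σ t = if σ = 2 then (kap t : ℤ) - R t else (t : ℤ) - R t + σ := rfl
        rw [hJ, if_neg hσ2] at h6
        simp only [sg]
        intro h7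
        apply h6
        linarith
      | ac =>
        unfold Atom
        intro _ t ht s h4 X Y hR he
        obtain ⟨hX, hY⟩ := Rg_PL hra hrb hR
        have h5 := hs s h4
        have he' : ent tW X Y = MWt .ac σ t := by
          rw [n4] at he
          have h8 : pVV .w 0 .ac σ (rinv t) = MWt .ac σ (rho (rinv t)) := rfl
          rw [h8, rho_rinv t ht] at he
          exact he
        have h6 := tW_ac σ hσ t ht X hX Y hY he'
        rw [hkkA, h5]
        have hJ : J .ac σ t = if σ = 2 then (kap t : ℤ) + R t - 1 else (t : ℤ) + R t - σ := rfl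
        rw [hJ, if_neg hσ2] at h6
        simp only [sg]
        intro h7
        apply h6
        linarith

end H54.Q.D
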