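import Mathlib
import Pool.Agent.H54.Q.D.Tab
import Pool.Agent.H54.Q.D.AT
import Pool.Agent.H54.Q.D.CLA
import Pool.Agent.H54.Q.D.CLB
import Pool.Agent.H54.Q.D.GT
import Pool.Agent.H54.Q.D.NA
import Pool.Agent.H54.Q.D.NFB
import Pool.Agent.H54.Q.D.Rg
import Pool.Agent.H54.Q.D.SD
import Pool.Agent.H54.Q.D.SE
import Pool.Agent.H54.Q.D.SF
import Pool.Agent.H54.Q.D.TA
import Pool.Agent.H54.Q.D.TB

set_option autoImplicit false

namespace H54.Q.D


theorem leaf_WR {m r : ℕ} {U : ℕ → ℕ} (g : Gen m r U) {a b e i : ℕ} (ha : a < m) (hb : b < m)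
    (he : e < r) (hi : i < r) (hne : e ≠ i) (h1 : ln m U .rw e a b) (h2 : ln m U .w i a b)
    (ho : Only2 m r U a b .rw e .w i) : Good m r U a b := by
  have hem : e < m := g.lt_m he
  have hae : a = e := (ln_rw_iff (U := U) hem ha).1 h1
  have har : a < r := by omega
  have hW : onW m (wU m U) i a b := ln_w_iff.1 h2
  obtain ⟨hnu, hnu2, hxi, hrb⟩ := NF_WR g he hi hne ha hb h1 h2
  have hnW : ¬ onW m (wU m U) a a b := by
    intro hcon
    have h3 : ln m U .w e a b := ln_w_iff.2 (hae ▸ hcon)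
    rcases ho .w e he h3 with h4 | h4
    · exact absurd h4.1 (by decide)
    · exact hne h4.2
  refine leaf_table g ha hb tWR tWR_ok id (fun x hx => hx) (fun x y _ _ h => h) ?_ ?_ ?_
  · intro X Y hR
    obtain ⟨hX, hY, hXY⟩ := Rg_NR har hrb hnW hR
    exact ⟨hX, hY, fun h13 => hXY ((tWR_for X hX Y hY).1 h13)⟩
  · intro x _ _
    exact ⟨i, hi, hW⟩
  · intro κ k hk hl
    rcases ho κ k hk hl with ⟨hκ, hke⟩ | ⟨hκ, hki⟩
    · subst hκ
      rw [hke]
      intro _ t ht X Y hR hH
      obtain ⟨hX, hY, _⟩ := Rg_NR har hrb hnW hR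
      rw [hnu t] at hH
      exact tWR_p t ht X hX Y hY hH
    · subst hκ
      rw [hki]
      refine ⟨?_, ?_, ?_⟩
      · intro _ t ht X Y hR hH hYt
        obtain ⟨hX, hY, _⟩ := Rg_NR har hrb hnW hR
        rw [hnu2 t] at hH
        have hkk : kk r b t = t := by unfold kk; rw [if_neg (by omega)]
        have h5 : ent tWR X Y = t := hH
        rw [hkk] at hYt
        exact tWR_col X hX Y hY (by rw [h5, hYt])
      · intro _ t ht X Y hR hH hXt
        obtain ⟨hX, hY, _⟩ := Rg_NR har hrb hnW hR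
        rw [hxi t] at hH
        have hkk : kk r a t = kap t := by unfold kk; rw [if_pos har]
        rw [hkk] at hXt
        exact tWR_x t ht X hX Y hY hH hXt
      · intro p q hp hq X Y hR hH hatt
        obtain ⟨hX, hY, _⟩ := Rg_NR har hrb hnW hR
        have h6 : X ≠ 6 := tWR_inf X hX Y hY hH
        have hhole := sh_hole g hi hp hq ha hb hW
        rcases att_split ha hb (g.lt_m hp) (g.lt_m hq) hatt with h7 | h7 | ⟨s, h7, _⟩ | ⟨s, h7, _⟩
        · exact h6 h7.2
        · omega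
        · have := (hhole.1 s h7).2.1
          omega
        · have := (hhole.2 s h7).2.1
          omega

end H54.Q.D
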