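import Mathlib
import Pool.Agent.H54.Q.D.Tab

set_option autoImplicit false

namespace H54.Q.D


lemma GX_digits (N : ℤ) (hN : 0 < N) : ∀ (n : ℕ) (d : ℕ → ℤ), (∀ k, k < n → |d k| < N) →
    (∑ k ∈ Finset.range n, d k * N ^ k) = 0 → ∀ k, k < n → d k = 0 := by
  intro n
  induction n with
  | zero => intro d _ _ k hk; omega
  | succ n ih =>
    intro d hd hs
    rw [Finset.sum_range_succ'] at hs
    have h1 : (∑ k ∈ Finset.range n, d (k + 1) * N ^ (k + 1))
        = N * ∑ k ∈ Finset.range n, d (k + 1) * N ^ k := by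
      rw [Finset.mul_sum]
      refine Finset.sum_congr rfl fun k _ => ?_
      ring
    rw [h1, pow_zero, mul_one] at hs
    have h0 : d 0 = 0 := by
      refine Int.eq_zero_of_abs_lt_dvd (m := N) ?_ (hd 0 (Nat.succ_pos n))
      exact ⟨-(∑ k ∈ Finset.range n, d (k + 1) * N ^ k), by linarith⟩
    have h2 : (∑ k ∈ Finset.range n, d (k + 1) * N ^ k) = 0 := by
      rw [h0, add_zero] at hs
      rcases mul_eq_zero.mp hs with h | h
      · exact absurd h hN.ne'
      · exact h
    have h3 := ih (fun k => d (k + 1)) (fun k hk => hd (k + 1) (by omega)) h2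
    intro k hk
    cases k with
    | zero => exact h0
    | succ k => exact h3 k (by omega)

theorem exists_gen (r : ℕ) : ∃ m₀, ∀ m, m₀ ≤ m → Nat.Coprime m 210 → ∃ U, Gen m r U := by
  obtain ⟨N, hNdef⟩ : ∃ N : ℕ, N = 10000000 * (r + 1) := ⟨_, rfl⟩
  have hN1 : 1 ≤ N := by omega
  have hN2 : 10000 * (r + 1) ≤ N := by omega
  obtain ⟨m₀, hm₀⟩ : ∃ m₀ : ℕ, m₀ = 10000 * (210 * N ^ (r + 1)) + 10000 * (r + 1) := ⟨_, rfl⟩
  refine ⟨m₀, fun m hm hc => ?_⟩
  rw [hm₀] at hm
  refine ⟨fun i => 210 * N ^ (i + 1), ?_⟩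
  have hmono : ∀ i, i < r → N ^ (i + 1) ≤ N ^ (r + 1) := fun i hi =>
    Nat.pow_le_pow_right hN1 (by omega)
  have hself : ∀ i : ℕ, N ≤ N ^ (i + 1) := fun i => by
    exact Nat.le_self_pow (by omega) N
  refine
    { cop := hc
      hm := le_trans (Nat.le_add_left _ _) hm
      big := fun i hi => ?_
      dvd := fun i hi => Dvd.intro _ rfl
      lt := fun i hi => ?_
      gen := ?_ }
  · have h := hself i
    have h9 : 10000 * (r + 1) ≤ N := hN2
    show 10000 * (r + 1) ≤ 210 * N ^ (i + 1)
    exact le_trans h9 (le_trans h (Nat.le_mul_of_pos_left _ (by norm_num)))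
  · have := hmono i hi
    show 10000 * (210 * N ^ (i + 1)) ≤ m
    omega
  · intro α j s hj hα hs hsum
    set c : ℕ → ℤ := fun k => ∑ l, if j l = k then α l else 0 with hcdef
    have hcb : ∀ k, |c k| ≤ 4000 := by
      intro k
      calc |c k| ≤ ∑ l, |if j l = k then α l else 0| := Finset.abs_sum_le_sum_abs _ _
        _ ≤ ∑ _l : Fin 4, (1000 : ℤ) := by
            refine Finset.sum_le_sum fun l _ => ?_
            split_ifs
            · exact hα l
            · simp
        _ = 4000 := by simp
    have hgroup : (∑ l, α l * ((210 * N ^ (j l + 1) : ℕ) : ℤ))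
        = ∑ k ∈ Finset.range r, (210 * c k) * (N : ℤ) ^ (k + 1) := by
      have h1 : ∀ l, α l * ((210 * N ^ (j l + 1) : ℕ) : ℤ)
          = ∑ k ∈ Finset.range r, (210 * (if j l = k then α l else 0)) * (N : ℤ) ^ (k + 1) := by
        intro l
        rw [Finset.sum_eq_single (j l)]
        · simp only [if_true]
          push_cast
          ring
        · intro k _ hk
          rw [if_neg (Ne.symm hk)]
          ring
        · intro h
          exact absurd (Finset.mem_range.mpr (hj l)) h
      rw [Finset.sum_congr rfl fun l _ => h1 l, Finset.sum_comm]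
      refine Finset.sum_congr rfl fun k _ => ?_
      rw [hcdef, Finset.mul_sum, Finset.sum_mul]
    have hsum' : (∑ l, α l * ((210 * N ^ (j l + 1) : ℕ) : ℤ)) + s = 0 := hsum
    rw [hgroup] at hsum'
    set d : ℕ → ℤ := fun k => if k = 0 then s else 210 * c (k - 1) with hddef
    have hdsum : (∑ k ∈ Finset.range (r + 1), d k * (N : ℤ) ^ k) = 0 := by
      rw [Finset.sum_range_succ']
      have h2 : ∀ k, d (k + 1) = 210 * c k := fun k => by simp [hddef]
      have h3 : d 0 = s := by simp [hddef]
      simp only [h2, h3, pow_zero, mul_one]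
      exact hsum'
    have hNz : (0 : ℤ) < (N : ℤ) := by exact_mod_cast hN1
    have hNval : (N : ℤ) = 10000000 * ((r : ℤ) + 1) := by
      rw [hNdef]; push_cast; ring
    have hr0 : (0 : ℤ) ≤ (r : ℤ) := Int.natCast_nonneg r
    have hdb : ∀ k, k < r + 1 → |d k| < (N : ℤ) := by
      intro k _
      by_cases hk : k = 0
      · subst hk
        have : d 0 = s := by simp [hddef]
        rw [this, hNval]
        calc |s| ≤ 10000 * ((r : ℤ) + 1) := hs
          _ < 10000000 * ((r : ℤ) + 1) := by linarith
      · have : d k = 210 * c (k - 1) := by simp [hddef, hk]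
        rw [this, abs_mul, hNval]
        have h4 := hcb (k - 1)
        have h5 : |(210 : ℤ)| = 210 := by norm_num
        rw [h5]
        nlinarith
    have hz := GX_digits (N : ℤ) hNz (r + 1) d hdb hdsum
    have hs0 : s = 0 := by
      have := hz 0 (Nat.succ_pos r)
      simpa [hddef] using this
    refine ⟨fun k => ?_, hs0⟩
    by_cases hk : k < r
    · have h6 := hz (k + 1) (by omega)
      have h7 : d (k + 1) = 210 * c k := by simp [hddef]
      rw [h7] at h6
      have h8 : c k = 0 := by
        rcases mul_eq_zero.mp h6 with h | h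
        · norm_num at h
        · exact h
      exact h8
    · refine Finset.sum_eq_zero fun l _ => ?_
      have := hj l
      rw [if_neg (by omega)]

end H54.Q.D
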