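import Mathlib
import Pool.Agent.H54.Q.D.Tab
import Pool.Agent.H54.Q.D.AT
import Pool.Agent.H54.Q.D.CLA
import Pool.Agent.H54.Q.D.CLB
import Pool.Agent.H54.Q.D.GT
import Pool.Agent.H54.Q.D.NA
import Pool.Agent.H54.Q.D.Rg
import Pool.Agent.H54.Q.D.SD
import Pool.Agent.H54.Q.D.SE
import Pool.Agent.H54.Q.D.SF
import Pool.Agent.H54.Q.D.TA
import Pool.Agent.H54.Q.D.TB

set_option autoImplicit false

namespace H54.Q.D


theorem leaf_w {m r : ℕ} {U : ℕ → ℕ} (g : Gen m r U) {a b i : ℕ} (ha : a < m) (hb : b < m)
    (hi : i < r) (h1 : ln m U .w i a b) (ho : Only2 m r U a b .w i .w i) :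
    Good m r U a b := by
  have hW : onW m (wU m U) i a b := ln_w_iff.mp h1
  have hra : r ≤ a := by
    by_contra hlt
    push Not at hlt
    rcases ho .rw a hlt ((ln_rw_iff ha ha).mpr rfl) with h | h
    · exact absurd h.1 (by decide)
    · exact absurd h.1 (by decide)
  have hrb : r ≤ b := by
    by_contra hlt
    push Not at hlt
    rcases ho .cl b hlt ((ln_cl_iff hb hb).mpr rfl) with h | h
    · exact absurd h.1 (by decide)
    · exact absurd h.1 (by decide)
  have hB : bI m (wU m U) i (lab m a b) = b := onW_b g.cop6 (wU m U) hb hW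
  have hA : aI m (wU m U) i (lab m a b) = a := onW_a g.cop6 (wU m U) ha hW
  have hnu : ∀ t, nu m r U i (lab m a b) t = pn m r U i (lab m a b) t := by
    intro t
    unfold nu
    rw [hB, if_neg (fun h => absurd h.1 (by omega))]
  have hxi : ∀ t, xi m r U i (lab m a b) t = pn m r U i (lab m a b) (rinv t) := by
    intro t
    unfold xi
    rw [hA, if_neg (fun h => absurd h.1 (by omega))]
  set f : ℕ → ℕ := fun n => if n = 12 then 12 else pn m r U i (lab m a b) n with hf
  have hf12 : f 12 = 12 := by simp [hf]
  have hfn : ∀ n, n ≠ 12 → f n = pn m r U i (lab m a b) n := by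
    intro n hn
    simp [hf, hn]
  have hflt : ∀ n, n ≤ 12 → n ≠ 12 → f n < 12 := by
    intro n hn hn'
    rw [hfn n hn']
    exact pn_lt i (lab m a b) (by omega)
  have hfl : ∀ n t, n ≤ 12 → t < 12 → f n = pn m r U i (lab m a b) t → n = t := by
    intro n t hn ht h
    have h12 : n ≠ 12 := by
      intro h0
      rw [h0, hf12] at h
      have := pn_lt (m := m) (r := r) (U := U) i (lab m a b) ht
      omega
    rw [hfn n h12] at h
    exact pn_inj i (lab m a b) (by omega) ht h
  refine leaf_table g ha hb tW tW_ok f ?_ ?_ ?_ ?_ ?_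
  · intro x hx
    by_cases h : x = 12
    · rw [h, hf12]
    · exact (hflt x hx h).le
  · intro x y hx hy hxy
    by_cases hx' : x = 12
    · by_cases hy' : y = 12
      · rw [hx', hy']
      · have := hflt y hy hy'
        rw [← hxy, hx', hf12] at this
        omega
    · by_cases hy' : y = 12
      · have := hflt x hx hx'
        rw [hxy, hy', hf12] at this
        omega
      · rw [hfn y hy'] at hxy
        exact hfl x y hx (by omega) hxy
  · intro X Y hR
    have h := Rg_PL hra hrb hR
    exact ⟨h.1, h.2, tW_full X h.1 Y h.2⟩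
  · intro x _ _
    exact ⟨i, hi, hW⟩
  · intro κ k hk hl
    have hκ : κ = .w ∧ k = i := by
      rcases ho κ k hk hl with h | h
      · exact h
      · exact h
    rw [hκ.1, hκ.2]
    unfold Atom
    refine ⟨?_, ?_, ?_⟩
    · intro _ t ht X Y hR hH
      have h := Rg_PL hra hrb hR
      have h13 := tW_full X h.1 Y h.2
      have hle := tW_ok.1 X h.1 Y h.2 h13
      rw [hnu] at hH
      have he := hfl _ t hle ht hH
      have hc := tW_col X h.1 Y h.2
      unfold kk
      rw [if_neg (by omega)]
      rw [he] at hc
      exact fun h0 => hc h0.symm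
    · intro _ t ht X Y hR hH
      have h := Rg_PL hra hrb hR
      have h13 := tW_full X h.1 Y h.2
      have hle := tW_ok.1 X h.1 Y h.2 h13
      rw [hxi] at hH
      have hrt := rinv_lt t ht
      have he := hfl _ (rinv t) hle hrt hH
      have hc := tW_row X h.1 Y h.2 (by rw [he]; omega)
      unfold kk
      rw [if_neg (by omega)]
      rw [he, rho_rinv t ht] at hc
      exact hc
    · intro p q hp hq X Y hR hH hatt
      have h := Rg_PL hra hrb hR
      have h13 := tW_full X h.1 Y h.2
      have hle := tW_ok.1 X h.1 Y h.2 h13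
      have he : ent tW X Y = 12 := by
        by_contra hne
        have h2 := hflt _ hle hne
        have h3 : f (ent tW X Y) = 12 := hH
        omega
      obtain ⟨hXY, hXY'⟩ := tW_inf X h.1 Y h.2 he
      have hsh := sh_hole g hi hp hq ha hb hW
      have hpm : p < m := g.lt_m hp
      have hqm : q < m := g.lt_m hq
      rcases att_split ha hb hpm hqm hatt with h4 | h4 | ⟨s, hs1, hs2⟩ | ⟨s, hs1, hs2⟩
      · omega
      · omega
      · have h5 := (hsh.1 s hs1).1
        subst h5
        apply hXY
        push_cast at hs2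
        omega
      · have h5 := (hsh.2 s hs1).1
        subst h5
        apply hXY'
        push_cast at hs2
        omega

end H54.Q.D

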