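import Mathlib
import Pool.Agent.H54.Q.Glue
import Pool.Agent.H54.Q.D.Tab
import Pool.Agent.H54.Q.D.TA
import Pool.Agent.H54.Q.D.TB
import Pool.Agent.H54.Q.D.GT
import Pool.Agent.H54.Q.D.CLA
import Pool.Agent.H54.Q.D.NA
import Pool.Agent.H54.Q.D.GL
import Pool.Agent.H54.Q.D.GA
import Pool.Agent.H54.Q.D.GB
import Pool.Agent.H54.Q.D.AS
import Pool.Agent.H54.Q.D.GX
import Pool.Agent.H54.Q.D.FI

/-! # The n x n queens graph is n-colourable for all large n -/

set_option autoImplicit false

namespace H54.Q.D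

/-- from a colouring of the `r × r` board to colourings of the boards of order `12 m + r` -/
theorem T (r : ℕ) (hr : SQ r) : ∃ m₀, ∀ m, m₀ ≤ m → Nat.Coprime m 210 → SQ (12 * m + r) := by
  obtain ⟨m₀, h⟩ := exists_gen r
  refine ⟨m₀ + 2, fun m hm hc => ?_⟩
  obtain ⟨U, g⟩ := h m (by omega) hc
  have hmr : r < m := by have := g.hm; omega
  exact assemble g.cop6 (by omega) hmr (wU m U) (fun i j hi hj => wU_inj g hi hj) hr
    (fun i p q hi hp hq => small_not_W g hi hp hq) (nu m r U) (xi m r U)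
    (fun i c t ht => nu_lt i c ht) (fun i c t t' ht ht' => nu_inj i c ht ht')
    (fun i c t ht => xi_lt i c ht) (fun i c t t' ht ht' => xi_inj i c ht ht')
    (fun a b ha hb => all_good g ha hb)
    (fun i j c t t' hi hj hne ht ht' => gFF g c hi hj hne ht ht')
    (fun i j c t t' hi hj hne ht ht' => gGG g c hi hj hne ht ht')
    (fun i j c t t' hi hj ht ht' hwi hwj hn => gFG g c hi hj ht ht' hwi hwj hn)

/-- all large boards -/
theorem SQ_all : ∃ n₀, ∀ n, n₀ ≤ n → SQ n := by
  classical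
  refine fin_step SQ ?_ ?_
  · have h := density_SQ
    convert h using 5
  · intro r hr
    obtain ⟨m₀, h⟩ := T r hr
    refine ⟨m₀, fun m hm hmod => h m hm ?_⟩
    have : Nat.gcd m 210 = 1 := by
      rw [Nat.gcd_comm, Nat.gcd_rec, hmod]
      decide
    exact this

end H54.Q.D
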